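import Pool.Agent.H45.Corr.Exchange

/-!
# Exchanging labellings of a poset between the slices `f y - f x = h`
-/

open Finset

namespace Pool.Agent.H45.Corr

/-- Labellings of the poset `X`, together with a reference value `f none`: monotone maps with
values in `[f none, f none + N]`. -/
def EN (X : Type) [PartialOrder X] (N : ℕ) : Set (Option X → ℤ) :=
  {f | (∀ a b : X, a ≤ b → f (some a) ≤ f (some b)) ∧
    ∀ a : X, f none ≤ f (some a) ∧ f (some a) ≤ f none + N}

variable {X : Type} [PartialOrder X] {N : ℕ}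

theorem exA_diff {I : Type*} {m : ℤ} {c b : I → ℤ} {i j : I} {K : ℤ} (h1 : c i ≤ c j + K)
    (h2 : b i ≤ b j + K) : exA m c b i ≤ exA m c b j + K := by
  unfold exA clip; omega

theorem exD_diff {I : Type*} {m : ℤ} {c b : I → ℤ} {i j : I} {K : ℤ} (h1 : c i ≤ c j + K)
    (h2 : b i ≤ b j + K) : exD m c b i ≤ exD m c b j + K := by
  unfold exD clip; omega

theorem exA_EN {m : ℤ} {c b : Option X → ℤ} (hc : c ∈ EN X N) (hb : b ∈ EN X N) :
    exA m c b ∈ EN X N := by
  refine ⟨fun i j hij => ?_, fun i => ⟨?_, ?_⟩⟩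
  · have := exA_diff (m := m) (K := 0) (by simpa using hc.1 i j hij) (by simpa using hb.1 i j hij)
    simpa using this
  · have := exA_diff (m := m) (i := none) (j := some i) (K := 0) (by simpa using (hc.2 i).1)
      (by simpa using (hb.2 i).1)
    simpa using this
  · exact exA_diff (hc.2 i).2 (hb.2 i).2

theorem exD_EN {m : ℤ} {c b : Option X → ℤ} (hc : c ∈ EN X N) (hb : b ∈ EN X N) :
    exD m c b ∈ EN X N := by
  refine ⟨fun i j hij => ?_, fun i => ⟨?_, ?_⟩⟩
  · have := exD_diff (m := m) (K := 0) (by simpa using hc.1 i j hij) (by simpa using hb.1 i j hij)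
    simpa using this
  · have := exD_diff (m := m) (i := none) (j := some i) (K := 0) (by simpa using (hc.2 i).1)
      (by simpa using (hb.2 i).1)
    simpa using this
  · exact exD_diff (hc.2 i).2 (hb.2 i).2

theorem EN_finite [Finite X] (x : X) : {f | f ∈ EN X N ∧ f (some x) = 0}.Finite := by
  classical
  have := Fintype.ofFinite X
  refine (Set.finite_Icc (fun _ : Option X => (0 : ℤ) - N) (fun _ => 0 + N)).subset ?_
  rintro f ⟨hf, hc⟩
  have h0 := hf.2 x
  refine ⟨fun i => ?_, fun i => ?_⟩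
  · rcases i with _ | a
    · dsimp only; omega
    · have := hf.2 a; dsimp only; omega
  · rcases i with _ | a
    · dsimp only; omega
    · have := hf.2 a; dsimp only; omega

/-- The slice `f x = 0`, `f y = h`. -/
def slice (X : Type) [PartialOrder X] (N : ℕ) (x y : X) (h : ℤ) : Set (Option X → ℤ) :=
  {f | f ∈ EN X N ∧ f (some x) = 0 ∧ f (some y) = h}

theorem slice_finite [Finite X] {x y : X} (h : ℤ) : (slice X N x y h).Finite :=
  (EN_finite x).subset fun _ hf => ⟨hf.1, hf.2.1⟩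

/-- Exchange between two slices. -/
theorem slice_exchange [Finite X] {x y : X} {C B A D : Set (Option X → ℤ)} {h h' : ℤ}
    (hh : h ≤ h')
    (H : ∀ c ∈ slice X N x y h ∩ C, ∀ b ∈ slice X N x y h' ∩ B,
      exA (h' - h) c b ∈ A ∧ exD (h' - h) c b ∈ D) :
    (slice X N x y h ∩ C).ncard * (slice X N x y h' ∩ B).ncard
      ≤ (slice X N x y h' ∩ A).ncard * (slice X N x y h ∩ D).ncard := by
  have fin : ∀ (t : ℤ) (S : Set (Option X → ℤ)), (slice X N x y t ∩ S).Finite :=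
    fun t S => (slice_finite t).subset Set.inter_subset_left
  refine exchange_ncard (m := h' - h) (by omega) (fin _ _) (fin _ _) (fin _ _) (fin _ _) ?_
  intro c hc b hb
  obtain ⟨hA, hD⟩ := H c hc b hb
  have e1 : exA (h' - h) c b (some x) = 0 := by
    unfold exA clip; rw [hc.1.2.1, hb.1.2.1]; omega
  have e2 : exA (h' - h) c b (some y) = h' := by
    unfold exA clip; rw [hc.1.2.2, hb.1.2.2]; omega
  have e3 : exD (h' - h) c b (some x) = 0 := by
    unfold exD clip; rw [hc.1.2.1, hb.1.2.1]; omega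
  have e4 : exD (h' - h) c b (some y) = h := by
    unfold exD clip; rw [hc.1.2.2, hb.1.2.2]; omega
  exact ⟨⟨⟨exA_EN hc.1.1 hb.1.1, e1, e2⟩, hA⟩, ⟨⟨exD_EN hc.1.1 hb.1.1, e3, e4⟩, hD⟩⟩

/-- Summed over `h < 0 < h'`. -/
theorem halves_ineq [Finite X] {x y : X} {C B A D : Set (Option X → ℤ)}
    (H : ∀ c ∈ EN X N, ∀ b ∈ EN X N, c (some x) = 0 → b (some x) = 0 → c (some y) < 0 →
      0 < b (some y) → c ∈ C → b ∈ B →
      exA (b (some y) - c (some y)) c b ∈ A ∧ exD (b (some y) - c (some y)) c b ∈ D) :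
    {f | f ∈ EN X N ∧ f (some x) = 0 ∧ f (some y) < 0 ∧ f ∈ C}.ncard
      * {f | f ∈ EN X N ∧ f (some x) = 0 ∧ 0 < f (some y) ∧ f ∈ B}.ncard
      ≤ {f | f ∈ EN X N ∧ f (some x) = 0 ∧ 0 < f (some y) ∧ f ∈ A}.ncard
      * {f | f ∈ EN X N ∧ f (some x) = 0 ∧ f (some y) < 0 ∧ f ∈ D}.ncard := by
  have hb : ∀ f ∈ EN X N, f (some x) = 0 → -(N : ℤ) ≤ f (some y) ∧ f (some y) ≤ N := by
    intro f hf h0
    have h1 := hf.2 x; have h2 := hf.2 y
    omega
  have key : ∀ (P : Set (Option X → ℤ)) (lo hi : ℤ),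
      ∑ h ∈ Icc lo hi, (slice X N x y h ∩ P).ncard
        = {f | f ∈ EN X N ∧ f (some x) = 0 ∧ (lo ≤ f (some y) ∧ f (some y) ≤ hi) ∧ f ∈ P}.ncard := by
    intro P lo hi
    classical
    have hfin : {f | f ∈ EN X N ∧ f (some x) = 0 ∧ (lo ≤ f (some y) ∧ f (some y) ≤ hi)
        ∧ f ∈ P}.Finite :=
      (EN_finite x).subset fun _ hf => ⟨hf.1, hf.2.1⟩
    rw [Set.ncard_eq_toFinset_card _ hfin,
      Finset.card_eq_sum_card_fiberwise (f := fun f => f (some y)) (t := Icc lo hi)]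
    · refine sum_congr rfl fun h hh => ?_
      have hfin2 : (slice X N x y h ∩ P).Finite := (slice_finite h).subset Set.inter_subset_left
      rw [Set.ncard_eq_toFinset_card _ hfin2]
      congr 1
      ext f
      rw [mem_Icc] at hh
      simp only [Set.Finite.mem_toFinset, Set.mem_inter_iff, Set.mem_ofPred_eq, mem_filter, slice]
      constructor
      · rintro ⟨⟨h1, h2, h3⟩, h4⟩
        exact ⟨⟨h1, h2, by omega, h4⟩, h3⟩
      · rintro ⟨⟨h1, h2, h3, h4⟩, h5⟩
        exact ⟨⟨h1, h2, h5⟩, h4⟩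
    · intro f hf
      simp only [Set.Finite.coe_toFinset, Set.mem_ofPred_eq, coe_Icc, Set.mem_Icc] at hf ⊢
      exact hf.2.2.1
  have kneg : ∀ P : Set (Option X → ℤ),
      {f | f ∈ EN X N ∧ f (some x) = 0 ∧ f (some y) < 0 ∧ f ∈ P}.ncard
        = ∑ h ∈ Icc (-(N : ℤ)) (-1), (slice X N x y h ∩ P).ncard := by
    intro P
    rw [key]
    congr 1
    ext f
    simp only [Set.mem_ofPred_eq]
    constructor
    · rintro ⟨h1, h2, h3, h4⟩
      have := hb f h1 h2
      exact ⟨h1, h2, by omega, h4⟩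
    · rintro ⟨h1, h2, h3, h4⟩
      exact ⟨h1, h2, by omega, h4⟩
  have kpos : ∀ P : Set (Option X → ℤ),
      {f | f ∈ EN X N ∧ f (some x) = 0 ∧ 0 < f (some y) ∧ f ∈ P}.ncard
        = ∑ h ∈ Icc (1 : ℤ) N, (slice X N x y h ∩ P).ncard := by
    intro P
    rw [key]
    congr 1
    ext f
    simp only [Set.mem_ofPred_eq]
    constructor
    · rintro ⟨h1, h2, h3, h4⟩
      have := hb f h1 h2
      exact ⟨h1, h2, by omega, h4⟩
    · rintro ⟨h1, h2, h3, h4⟩
      exact ⟨h1, h2, by omega, h4⟩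
  rw [kneg, kpos, kpos, kneg, Finset.sum_mul_sum]
  rw [mul_comm (∑ h ∈ Icc (1 : ℤ) N, (slice X N x y h ∩ A).ncard), Finset.sum_mul_sum]
  refine Finset.sum_le_sum fun h hh => Finset.sum_le_sum fun h' hh' => ?_
  rw [mem_Icc] at hh hh'
  rw [mul_comm (slice X N x y h ∩ D).ncard]
  refine slice_exchange (by omega) ?_
  rintro c ⟨⟨hc1, hc2, hc3⟩, hc4⟩ b ⟨⟨hb1, hb2, hb3⟩, hb4⟩
  have := H c hc1 b hb1 hc2 hb2 (by omega) (by omega) hc4 hb4
  rwa [hb3, hc3] at this

end Pool.Agent.H45.Corr
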