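import Pool.Agent.H45.Corr.Defs
import Pool.Agent.H45.Corr.Slices

/-!
# Counting monotone maps into a long chain, and passage to linear extensions
-/

open Finset Filter Topology

namespace Pool.Agent.H45.Corr

instance {α : Type} [Finite α] : Finite (LinOrd α) := by
  unfold LinOrd; infer_instance

variable {X : Type} [PartialOrder X] [Fintype X]

omit [PartialOrder X] in
theorem exists_rank (L : LinOrd X) :
    ∃ e : X ≃ Fin (Fintype.card X), ∀ a b, L.1 a b ↔ e a < e b := by
  classical
  obtain ⟨r, hr⟩ := L
  let _ : LinearOrder X := @linearOrderOfSTO X r hr _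
  refine ⟨(Fintype.orderIsoFinOfCardEq X rfl).symm.toEquiv, fun a b => ?_⟩
  have : (r a b) ↔ a < b := Iff.rfl
  rw [show (⟨r, hr⟩ : LinOrd X).1 a b = r a b from rfl, this]
  exact ((Fintype.orderIsoFinOfCardEq X rfl).symm.lt_iff_lt).symm

/-- The linear ordering defined by an injective map. -/
def ordOf {n : ℕ} (g : X → Fin n) (hg : Function.Injective g) : LinOrd X :=
  ⟨fun a b => g a < g b,
    { trichotomous := fun _ _ h1 h2 => hg (le_antisymm (not_lt.1 h2) (not_lt.1 h1))
      irrefl := fun _ => lt_irrefl _
      trans := fun _ _ _ => lt_trans }⟩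

/-- Monotone maps into a chain with `M` elements whose order type satisfies `P`. -/
def mon (X : Type) [PartialOrder X] (M : ℕ) (P : (X → X → Prop) → Prop) : Set (X → Fin M) :=
  {g | (∀ a b, a ≤ b → g a ≤ g b) ∧ P (fun a b => g a < g b)}

/-- Number of linear extensions satisfying `P`. -/
noncomputable def eP (X : Type) [PartialOrder X] (P : (X → X → Prop) → Prop) : ℕ :=
  {L | L ∈ linExts X ∧ P L.1}.ncard

theorem inj_count (M : ℕ) (P : (X → X → Prop) → Prop) :
    {g | g ∈ mon X M P ∧ Function.Injective g}.ncard = eP X P * M.choose (Fintype.card X) := by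
  classical
  set n := Fintype.card X with hn
  choose e he using fun L : LinOrd X => exists_rank L
  have hcard : Nat.card (Fin n ↪o Fin M) = M.choose n := by
    rw [Nat.card_congr (Set.powersetCard.ofFinEmbEquiv (n := n) (I := Fin M)),
      Set.powersetCard.card]
    simp
  have : Nat.card ({L | L ∈ linExts X ∧ P L.1} × (Fin n ↪o Fin M))
      = Nat.card {g | g ∈ mon X M P ∧ Function.Injective g} := by
    refine Nat.card_eq_of_bijective
      (fun p => ⟨fun a => p.2 (e p.1.1 a), ⟨⟨fun a b hab => ?_, ?_⟩, ?_⟩⟩) ⟨?_, ?_⟩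
    · rcases hab.lt_or_eq with h | h
      · have := (he p.1.1 a b).1 (p.1.2.1 a b h)
        exact (p.2.strictMono this).le
      · rw [h]
    · have : (fun a b => p.2 (e p.1.1 a) < p.2 (e p.1.1 b)) = p.1.1.1 := by
        funext a b
        rw [eq_iff_iff, p.2.lt_iff_lt, ← he]
      rw [this]; exact p.1.2.2
    · exact p.2.injective.comp (e p.1.1).injective
    · rintro ⟨⟨L, hL⟩, φ⟩ ⟨⟨L', hL'⟩, φ'⟩ h
      have h' : ∀ a, φ (e L a) = φ' (e L' a) := fun a => congrFun (congrArg Subtype.val h) a
      have hLL : L = L' := by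
        apply Subtype.ext
        funext a b
        rw [eq_iff_iff, he L, he L', ← φ.lt_iff_lt, ← φ'.lt_iff_lt, h', h']
      subst hLL
      have : φ = φ' := by
        ext i
        obtain ⟨a, rfl⟩ := (e L).surjective i
        rw [h' a]
      rw [this]
    · rintro ⟨g, ⟨hg1, hg2⟩, hg3⟩
      refine ⟨⟨⟨ordOf g hg3, ⟨fun a b hab => ?_, hg2⟩⟩, OrderEmbedding.ofStrictMono
        (fun i => g ((e (ordOf g hg3)).symm i)) (fun i j hij => ?_)⟩, ?_⟩
      · exact lt_of_le_of_ne (hg1 a b hab.le) (fun h => hab.ne (hg3 h))
      · have := (he (ordOf g hg3) ((e (ordOf g hg3)).symm i) ((e (ordOf g hg3)).symm j)).2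
          (by simpa using hij)
        exact this
      · apply Subtype.ext
        funext a
        simp
  rw [Nat.card_prod, hcard] at this
  rw [← Nat.card_coe_set_eq, ← this]
  rfl

omit [PartialOrder X] in
/-- the number of non-injective maps -/
theorem noninj_count (M : ℕ) :
    {g : X → Fin M | ¬ Function.Injective g}.ncard
      = M ^ Fintype.card X - M.descFactorial (Fintype.card X) := by
  classical
  have h1 : {g : X → Fin M | Function.Injective g}.ncard = M.descFactorial (Fintype.card X) := by
    rw [← Nat.card_coe_set_eq]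
    have : Nat.card (X ↪ Fin M) = M.descFactorial (Fintype.card X) := by
      rw [Nat.card_eq_fintype_card, Fintype.card_embedding_eq, Fintype.card_fin]
    rw [← this]
    exact Nat.card_congr (Equiv.subtypeInjectiveEquivEmbedding X (Fin M))
  have h2 : (Set.univ : Set (X → Fin M)).ncard = M ^ Fintype.card X := by
    rw [Set.ncard_univ, Nat.card_eq_fintype_card]; simp
  have h3 := Set.ncard_inter_add_ncard_sdiff_eq_ncard (Set.univ : Set (X → Fin M))
    {g : X → Fin M | Function.Injective g} Set.finite_univ
  rw [Set.univ_inter, h1, h2] at h3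
  have h4 : {g : X → Fin M | ¬ Function.Injective g}
      = Set.univ \ {g : X → Fin M | Function.Injective g} := by
    ext g; simp
  rw [h4]; omega

theorem mon_lower (M : ℕ) (P : (X → X → Prop) → Prop) :
    eP X P * M.choose (Fintype.card X) ≤ (mon X M P).ncard := by
  rw [← inj_count]
  exact Set.ncard_le_ncard (fun g hg => hg.1) (Set.toFinite _)

theorem mon_upper (M : ℕ) (P : (X → X → Prop) → Prop) :
    (mon X M P).ncard ≤ eP X P * M.choose (Fintype.card X)
      + (M ^ Fintype.card X - M.descFactorial (Fintype.card X)) := by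
  rw [← inj_count, ← noninj_count (X := X)]
  refine (Set.ncard_le_ncard (t := {g | g ∈ mon X M P ∧ Function.Injective g} ∪
    {g : X → Fin M | ¬ Function.Injective g}) (fun g hg => ?_) (Set.toFinite _)).trans
    (Set.ncard_union_le _ _)
  by_cases h : Function.Injective g
  · exact Or.inl ⟨hg, h⟩
  · exact Or.inr h

/-- The passage to the limit. -/
theorem limit_ineq (n α β γ δ : ℕ)
    (h : ∀ M : ℕ, n ≤ M → (δ * M.choose n) * (β * M.choose n)
      ≤ (α * M.choose n + (M ^ n - M.descFactorial n))
        * (γ * M.choose n + (M ^ n - M.descFactorial n))) :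
    δ * β ≤ α * γ := by
  set r : ℕ → ℝ := fun M => (n.factorial : ℝ) * ((M ^ n : ℝ) / (M.descFactorial n : ℝ) - 1) with hr
  have hlim : Tendsto r atTop (𝓝 0) := by
    have h1 := (isEquivalent_descFactorial n).symm
    have hz : ∀ᶠ (M : ℕ) in atTop, (M.descFactorial n : ℝ) ≠ 0 :=
      eventually_atTop.mpr ⟨n, fun M hM => by
        have := Nat.pos_of_ne_zero (mt Nat.descFactorial_eq_zero_iff_lt.1 (not_lt.2 hM))
        positivity⟩
    rw [Asymptotics.isEquivalent_iff_tendsto_one hz] at h1
    have h2 := (h1.sub_const 1).const_mul (n.factorial : ℝ)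
    simpa using h2
  have hineq : ∀ M : ℕ, n ≤ M → (δ * β : ℝ) ≤ (α + r M) * (γ + r M) := by
    intro M hM
    have hd : 0 < M.descFactorial n :=
      Nat.pos_of_ne_zero (mt Nat.descFactorial_eq_zero_iff_lt.1 (not_lt.2 hM))
    have hc : 0 < M.choose n := Nat.choose_pos hM
    have hcR : (0 : ℝ) < M.choose n := by exact_mod_cast hc
    have hdR : (0 : ℝ) < M.descFactorial n := by exact_mod_cast hd
    have e1 : (M.descFactorial n : ℝ) = n.factorial * M.choose n := by
      exact_mod_cast Nat.descFactorial_eq_factorial_mul_choose M n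
    have hle : M.descFactorial n ≤ M ^ n := Nat.descFactorial_le_pow M n
    have hrM : ((M ^ n - M.descFactorial n : ℕ) : ℝ) = r M * M.choose n := by
      rw [Nat.cast_sub hle]
      simp only [hr]
      rw [sub_eq_iff_eq_add]
      have hf : (n.factorial : ℝ) ≠ 0 := by positivity
      have : (M ^ n : ℝ) / (M.descFactorial n : ℝ) * (n.factorial * M.choose n) = M ^ n := by
        rw [← e1]; field_simp
      push_cast
      rw [e1]
      rw [e1] at this
      linear_combination (-1 : ℝ) * this
    have hh : ((δ * M.choose n) * (β * M.choose n) : ℝ)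
        ≤ (α * M.choose n + r M * M.choose n) * (γ * M.choose n + r M * M.choose n) := by
      rw [← hrM]
      exact_mod_cast h M hM
    have : (δ * β : ℝ) * (M.choose n * M.choose n)
        ≤ ((α + r M) * (γ + r M)) * (M.choose n * M.choose n) := by nlinarith
    exact le_of_mul_le_mul_right this (by positivity)
  have hl : Tendsto (fun M => ((α : ℝ) + r M) * (γ + r M)) atTop (𝓝 ((α + 0) * (γ + 0))) :=
    (hlim.const_add _).mul (hlim.const_add _)
  have := ge_of_tendsto hl (eventually_atTop.mpr ⟨n, hineq⟩)
  simp only [add_zero] at this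
  exact_mod_cast this

omit [Fintype X] in
/-- Labellings with `f x = 0` correspond to monotone maps into `{0, …, N}`. -/
theorem labellings_ncard (x : X) (N : ℕ) (P : (X → X → Prop) → Prop) :
    {f | f ∈ EN X N ∧ f (some x) = 0 ∧ P (fun a b => f (some a) < f (some b))}.ncard
      = (mon X (N + 1) P).ncard := by
  classical
  set Φ : (X → Fin (N + 1)) → (Option X → ℤ) := fun g i =>
    match i with
    | none => -(g x : ℤ)
    | some a => (g a : ℤ) - (g x : ℤ) with hΦ
  have hinj : Function.Injective Φ := by
    intro g g' h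
    have h0 : (g x : ℤ) = g' x := by
      have := congrFun h none; simp only [hΦ] at this; omega
    funext a
    have := congrFun h (some a)
    simp only [hΦ] at this
    exact Fin.ext (by omega)
  rw [← Set.ncard_image_of_injective _ hinj]
  congr 1
  ext f
  simp only [Set.mem_ofPred_eq, Set.mem_image]
  constructor
  · rintro ⟨hf, hx, hP⟩
    have hb := fun a => hf.2 a
    refine ⟨fun a => ⟨(f (some a) - f none).toNat, by have := hb a; omega⟩, ⟨fun a b hab => ?_, ?_⟩,
      ?_⟩
    · rw [Fin.le_def]; dsimp only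
      have := hf.1 a b hab
      omega
    · convert hP using 3 with a b
      rw [Fin.lt_def]; dsimp only
      have := hb a; have := hb b
      omega
    · funext i
      rcases i with _ | a
      · simp only [hΦ]; have := hb x; omega
      · simp only [hΦ]; have := hb x; have := hb a; omega
  · rintro ⟨g, ⟨hg1, hg2⟩, rfl⟩
    refine ⟨⟨fun a b hab => ?_, fun a => ?_⟩, ?_, ?_⟩
    · simp only [hΦ]
      have := hg1 a b hab
      rw [Fin.le_def] at this; omega
    · simp only [hΦ]
      have := (g a).2; omega
    · simp only [hΦ]; omega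
    · convert hg2 using 3 with a b
      simp only [hΦ]
      rw [Fin.lt_def]; omega

/-- **Exchange inequality** for linear extensions. -/
theorem ext_exchange {x y : X} (PC PB PA PD : (X → X → Prop) → Prop)
    (H : ∀ c b : X → ℤ, c x = 0 → b x = 0 → c y < 0 → 0 < b y →
      PC (fun i j => c i < c j) → PB (fun i j => b i < b j) →
      PA (fun i j => exA (b y - c y) c b i < exA (b y - c y) c b j) ∧
      PD (fun i j => exD (b y - c y) c b i < exD (b y - c y) c b j)) :
    eP X (fun r => r y x ∧ PC r) * eP X (fun r => r x y ∧ PB r)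
      ≤ eP X (fun r => r x y ∧ PA r) * eP X (fun r => r y x ∧ PD r) := by
  classical
  refine limit_ineq (Fintype.card X) _ _ _ _ fun M hM => ?_
  have hM0 : 0 < M := lt_of_lt_of_le (Fintype.card_pos_iff.2 ⟨x⟩) hM
  obtain ⟨N, rfl⟩ : ∃ N, M = N + 1 := ⟨M - 1, by omega⟩
  have key := halves_ineq (X := X) (N := N) (x := x) (y := y)
    (C := {f | PC (fun a b => f (some a) < f (some b))})
    (B := {f | PB (fun a b => f (some a) < f (some b))})
    (A := {f | PA (fun a b => f (some a) < f (some b))})
    (D := {f | PD (fun a b => f (some a) < f (some b))}) ?_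
  · have conv1 : ∀ P : (X → X → Prop) → Prop,
        {f | f ∈ EN X N ∧ f (some x) = 0 ∧ f (some y) < 0 ∧
          f ∈ {f : Option X → ℤ | P (fun a b => f (some a) < f (some b))}}.ncard
          = (mon X (N + 1) (fun r => r y x ∧ P r)).ncard := by
      intro P
      rw [← labellings_ncard x]
      congr 1
      ext f
      simp only [Set.mem_ofPred_eq]
      constructor
      · rintro ⟨h1, h2, h3, h4⟩; exact ⟨h1, h2, by rw [h2]; exact h3, h4⟩
      · rintro ⟨h1, h2, h3, h4⟩; exact ⟨h1, h2, by rw [h2] at h3; exact h3, h4⟩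
    have conv2 : ∀ P : (X → X → Prop) → Prop,
        {f | f ∈ EN X N ∧ f (some x) = 0 ∧ 0 < f (some y) ∧
          f ∈ {f : Option X → ℤ | P (fun a b => f (some a) < f (some b))}}.ncard
          = (mon X (N + 1) (fun r => r x y ∧ P r)).ncard := by
      intro P
      rw [← labellings_ncard x]
      congr 1
      ext f
      simp only [Set.mem_ofPred_eq]
      constructor
      · rintro ⟨h1, h2, h3, h4⟩; exact ⟨h1, h2, by rw [h2]; exact h3, h4⟩
      · rintro ⟨h1, h2, h3, h4⟩; exact ⟨h1, h2, by rw [h2] at h3; exact h3, h4⟩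
    rw [conv1, conv2, conv2, conv1] at key
    calc _ ≤ (mon X (N + 1) (fun r => r y x ∧ PC r)).ncard
        * (mon X (N + 1) (fun r => r x y ∧ PB r)).ncard :=
          Nat.mul_le_mul (mon_lower _ _) (mon_lower _ _)
      _ ≤ _ := key
      _ ≤ _ := Nat.mul_le_mul (mon_upper _ _) (mon_upper _ _)
  · intro c _ b _ h1 h2 h3 h4 h5 h6
    exact H (fun a => c (some a)) (fun a => b (some a)) h1 h2 h3 h4 h5 h6

end Pool.Agent.H45.Corr
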