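import Mathlib

/-!
# Random linear extensions of finite posets: the definitions of MP_f51d55_co

A linear ordering of a set is given by the set of its ordered pairs, i.e. by a strict total order
relation `r` (`r a b` reads: `a` is below `b`).
-/

namespace Pool.Agent.H45.Corr

/-- `Λ(α)`: the linear orderings of `α`; such an ordering is a relation `r` (a set of ordered
pairs) which is a strict total order. -/
def LinOrd (α : Type) : Type := {r : α → α → Prop // IsStrictTotalOrder α r}

/-- The restriction of a linear ordering of `X` to a subset `T` of `X`, the inclusion being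
`ι : T ↪ X`. -/
def LinOrd.restrict {T X : Type} (ι : T ↪ X) (L : LinOrd X) : LinOrd T :=
  ⟨fun s t => L.1 (ι s) (ι t), by
    have := L.2
    exact
      { trichotomous := fun s t h1 h2 => ι.injective (this.trichotomous (ι s) (ι t) h1 h2)
        irrefl := fun s => this.irrefl (ι s)
        trans := fun s t u => this.trans (ι s) (ι t) (ι u) }⟩

/-- `𝓛(P)`: the linear extensions of the poset `X`. -/
def linExts (X : Type) [PartialOrder X] : Set (LinOrd X) := {L | ∀ a b : X, a < b → L.1 a b}

/-- `e(P, U)`: the number of linear extensions of `X` whose restriction to `T` lies in `U`. -/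
noncomputable def numExts (X : Type) [PartialOrder X] {T : Type} (ι : T ↪ X)
    (U : Set (LinOrd T)) : ℕ :=
  {L | L ∈ linExts X ∧ L.restrict ι ∈ U}.ncard

/-- `Pr_P(U)`: the probability that the restriction to `T` of a uniformly random linear extension
of `X` lies in `U`. -/
noncomputable def prExt (X : Type) [PartialOrder X] {T : Type} (ι : T ↪ X)
    (U : Set (LinOrd T)) : ℚ :=
  (numExts X ι U : ℚ) / ((linExts X).ncard : ℚ)

/-- The pair `(U, V)` of sets of linear orderings of `T` is universally non-negatively
correlated: `Pr_P(U ∩ V) ≥ Pr_P(U) Pr_P(V)` for every finite poset `P` whose ground set `X`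
contains `T`. -/
def UnivCorr {T : Type} (U V : Set (LinOrd T)) : Prop :=
  ∀ (X : Type) [Finite X] [PartialOrder X] (ι : T ↪ X),
    prExt X ι (U ∩ V) ≥ prExt X ι U * prExt X ι V

/-- The linear ordering of `T` by the values of an injective height function `p : T → ℤ`. -/
def ordBy {T : Type} (p : T → ℤ) (hp : Function.Injective p) : LinOrd T :=
  ⟨fun s t => p s < p t,
    { trichotomous := fun _ _ h1 h2 => hp (le_antisymm (not_lt.1 h2) (not_lt.1 h1))
      irrefl := fun _ => lt_irrefl _
      trans := fun _ _ _ => lt_trans }⟩

/-- `clip m δ` is the point of the interval `[0, m]` closest to `δ` (for `m ≥ 0`). -/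
def clip (m δ : ℤ) : ℤ := max 0 (min δ m)

/-- The upper exchange `c + clip (b - c)` of the height functions `c` and `b`: it is `b` where
`c ≤ b ≤ c + m`, it is `c` where `b < c`, and `c + m` where `b > c + m`. -/
def exA {I : Type*} (m : ℤ) (c b : I → ℤ) : I → ℤ := fun i => c i + clip m (b i - c i)

/-- The lower exchange `b - clip (b - c)`; together with the upper one it sums to `c + b`. -/
def exD {I : Type*} (m : ℤ) (c b : I → ℤ) : I → ℤ := fun i => b i - clip m (b i - c i)

end Pool.Agent.H45.Corr
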