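import Pool.Agent.H45.Corr.Count

/-!
# The double exchange theorem
-/

namespace Pool.Agent.H45.Corr

/-- Reformulation of universal correlation: `e(U ∩ V) e((U ∪ V)ᶜ) ≥ e(U \ V) e(V \ U)`. -/
theorem pr_of_product {X : Type} [Finite X] [PartialOrder X] {T : Type} (ι : T ↪ X)
    (U V : Set (LinOrd T))
    (h : numExts X ι (U \ V) * numExts X ι (V \ U)
      ≤ numExts X ι (U ∩ V) * numExts X ι (U ∪ V)ᶜ) :
    prExt X ι (U ∩ V) ≥ prExt X ι U * prExt X ι V := by
  set e := (linExts X).ncard with he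
  have fin : ∀ S : Set (LinOrd X), S.Finite := fun S => Set.toFinite S
  have add : ∀ W Z : Set (LinOrd T), numExts X ι (W ∩ Z) + numExts X ι (W \ Z) = numExts X ι W := by
    intro W Z
    unfold numExts
    rw [← Set.ncard_union_eq _ (fin _) (fin _)]
    · congr 1
      ext L
      simp only [Set.mem_union, Set.mem_ofPred_eq, Set.mem_inter_iff, Set.mem_sdiff]
      tauto
    · rw [Set.disjoint_left]
      rintro L ⟨_, h1⟩ ⟨_, h2⟩
      exact h2.2 h1.2
  have hU := add U V
  have hV := add V U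
  rw [Set.inter_comm V U] at hV
  have hW := add (Set.univ) U
  have hW2 := add (Uᶜ) V
  have hall : numExts X ι Set.univ = e := by
    unfold numExts; rw [he]; congr 1; ext L; simp
  have e1 : Set.univ ∩ U = U := Set.univ_inter U
  have e2 : Set.univ \ U = Uᶜ := by ext; simp
  have e3 : Uᶜ ∩ V = V \ U := by ext; simp [and_comm]
  have e4 : Uᶜ \ V = (U ∪ V)ᶜ := by ext; simp
  rw [e1, e2, hall] at hW
  rw [e3, e4] at hW2
  rcases Nat.eq_zero_or_pos e with z | z
  · unfold prExt; rw [← he, z]; simp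
  have zQ : (0 : ℚ) < e := by exact_mod_cast z
  unfold prExt
  rw [← he, ge_iff_le, div_mul_div_comm, div_le_div_iff₀ (by positivity) zQ]
  have : numExts X ι U * numExts X ι V ≤ numExts X ι (U ∩ V) * e := by
    rw [← hU, ← hV, ← hW, ← hU, ← hW2]
    nlinarith
  have h2 : (numExts X ι U : ℚ) * numExts X ι V ≤ numExts X ι (U ∩ V) * e := by exact_mod_cast this
  nlinarith

theorem eq_ordBy {T : Type} {L : LinOrd T} {p : T → ℤ} (h : L.1 = fun s t => p s < p t) :
    ∃ hp : Function.Injective p, L = ordBy p hp := by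
  have hp : Function.Injective p := by
    intro s t hst
    refine L.2.trichotomous s t ?_ ?_ <;> rw [h] <;> simp [hst]
  exact ⟨hp, Subtype.ext h⟩

/-- **Double exchange theorem.** -/
theorem doubleExchange {T : Type} {x y : T} {U V : Set (LinOrd T)}
    (h : ∀ (b c : T → ℤ) (hb : Function.Injective b) (hc : Function.Injective c), b x = c x →
      ordBy b hb ∈ U \ V → ordBy c hc ∈ V \ U →
      b x < b y ∧ c y < c x ∧
      (∀ ha : Function.Injective (exA (b y - c y) c b), ordBy _ ha ∈ U ∩ V) ∧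
      (∀ hd : Function.Injective (exD (b y - c y) c b), ordBy _ hd ∉ U ∪ V)) :
    UnivCorr U V := by
  intro X _ _ ι
  classical
  have := Fintype.ofFinite X
  apply pr_of_product
  set PP : Set (LinOrd T) → (X → X → Prop) → Prop := fun W r =>
    ∃ L ∈ W, L.1 = fun s t => r (ι s) (ι t) with hPP
  set PQ : Set (LinOrd T) → (X → X → Prop) → Prop := fun W r =>
    ∀ L : LinOrd T, (L.1 = fun s t => r (ι s) (ι t)) → L ∈ W with hPQ
  -- we may assume that both differences are nonempty
  rcases (U \ V).eq_empty_or_nonempty with e1 | ⟨b0, hb0⟩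
  · rw [e1]
    have : numExts X ι (∅ : Set (LinOrd T)) = 0 := by unfold numExts; simp
    rw [this]; simp
  rcases (V \ U).eq_empty_or_nonempty with e1 | ⟨c0, hc0⟩
  · rw [e1]
    have : numExts X ι (∅ : Set (LinOrd T)) = 0 := by unfold numExts; simp
    rw [this]; simp
  -- every ordering is given by an injective function with prescribed value at `x`
  have hfin : Finite T := Finite.of_injective ι ι.injective
  have := Fintype.ofFinite T
  have rep : ∀ L : LinOrd T, ∃ (p : T → ℤ) (hp : Function.Injective p), p x = 0 ∧ L = ordBy p hp := by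
    intro L
    obtain ⟨e, he⟩ := exists_rank L
    have h1 : L.1 = fun s t => ((e s : ℕ) : ℤ) - (e x : ℕ) < ((e t : ℕ) : ℤ) - (e x : ℕ) := by
      funext s t
      rw [eq_iff_iff, he, Fin.lt_def]; omega
    obtain ⟨hp, h2⟩ := eq_ordBy (p := fun s => ((e s : ℕ) : ℤ) - (e x : ℕ)) h1
    exact ⟨_, hp, by simp, h2⟩
  have hB : ∀ L ∈ U \ V, L.1 x y := by
    intro L hL
    obtain ⟨p, hp, hpx, rfl⟩ := rep L
    obtain ⟨q, hq, hqx, rfl⟩ := rep c0
    exact (h p q hp hq (by rw [hpx, hqx]) hL hc0).1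
  have hC : ∀ L ∈ V \ U, L.1 y x := by
    intro L hL
    obtain ⟨p, hp, hpx, rfl⟩ := rep L
    obtain ⟨q, hq, hqx, rfl⟩ := rep b0
    exact (h q p hq hp (by rw [hpx, hqx]) hb0 hL).2.1
  have key := ext_exchange (X := X) (x := ι x) (y := ι y) (PP (V \ U)) (PP (U \ V)) (PQ (U ∩ V))
    (PQ (U ∪ V)ᶜ) ?_
  · have l1 : numExts X ι (V \ U) ≤ eP X (fun r => r (ι y) (ι x) ∧ PP (V \ U) r) := by
      refine Set.ncard_le_ncard (fun L hL => ⟨hL.1, ?_, L.restrict ι, hL.2, rfl⟩) (Set.toFinite _)
      exact hC _ hL.2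
    have l2 : numExts X ι (U \ V) ≤ eP X (fun r => r (ι x) (ι y) ∧ PP (U \ V) r) := by
      refine Set.ncard_le_ncard (fun L hL => ⟨hL.1, ?_, L.restrict ι, hL.2, rfl⟩) (Set.toFinite _)
      exact hB _ hL.2
    have l3 : eP X (fun r => r (ι x) (ι y) ∧ PQ (U ∩ V) r) ≤ numExts X ι (U ∩ V) := by
      refine Set.ncard_le_ncard ?_ (Set.toFinite _)
      rintro L ⟨h1, _, h3⟩
      exact ⟨h1, h3 (L.restrict ι) rfl⟩
    have l4 : eP X (fun r => r (ι y) (ι x) ∧ PQ (U ∪ V)ᶜ r) ≤ numExts X ι (U ∪ V)ᶜ := by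
      refine Set.ncard_le_ncard ?_ (Set.toFinite _)
      rintro L ⟨h1, _, h3⟩
      exact ⟨h1, h3 (L.restrict ι) rfl⟩
    calc numExts X ι (U \ V) * numExts X ι (V \ U)
        = numExts X ι (V \ U) * numExts X ι (U \ V) := mul_comm _ _
      _ ≤ _ := Nat.mul_le_mul l1 l2
      _ ≤ _ := key
      _ ≤ _ := Nat.mul_le_mul l3 l4
  · rintro c b hcx hbx _ _ ⟨Lc, hLc, hc⟩ ⟨Lb, hLb, hb⟩
    obtain ⟨hcinj, rfl⟩ := eq_ordBy hc
    obtain ⟨hbinj, rfl⟩ := eq_ordBy hb
    obtain ⟨_, _, hA, hD⟩ := h (fun t => b (ι t)) (fun t => c (ι t)) hbinj hcinj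
      (by rw [hcx, hbx]) hLb hLc
    constructor
    · intro L hL
      obtain ⟨ha, rfl⟩ := eq_ordBy hL
      exact hA ha
    · intro L hL
      obtain ⟨hd, rfl⟩ := eq_ordBy hL
      exact hD hd

/-- The case of a simple relation `U = {x < y}` and an arbitrary `V`: the pair is universally
correlated as soon as for all `b ∈ U \ V` and `c ∈ V \ U` some `z` has `z <_b x <_b y` and
`y <_c x <_c z`, or `x <_b y <_b z` and `z <_c y <_c x`. -/
theorem simpleRelation {T : Type} {x y : T} (hxy : x ≠ y) {V : Set (LinOrd T)}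
    (h : ∀ b : LinOrd T, b.1 x y → b ∉ V → ∀ c : LinOrd T, c.1 y x → c ∈ V →
      ∃ z, (c.1 x z ∧ b.1 z x) ∨ (c.1 z y ∧ b.1 y z)) :
    UnivCorr {L | L.1 x y} V := by
  refine doubleExchange (x := x) (y := y) ?_
  intro b c hb hc hbc hbU hcV
  have b1 : b x < b y := hbU.1
  have c1 : c y < c x := lt_of_le_of_ne (not_lt.1 hcV.2) (fun h => hxy (hc h).symm)
  have ax : exA (b y - c y) c b x = c x := by unfold exA clip; omega
  have ay : exA (b y - c y) c b y = b y := by unfold exA clip; omega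
  have dx : exD (b y - c y) c b x = b x := by unfold exD clip; omega
  have dy : exD (b y - c y) c b y = c y := by unfold exD clip; omega
  refine ⟨b1, c1, fun ha => ?_, fun hd => ?_⟩
  · have hU : (ordBy _ ha).1 x y := by
      change exA (b y - c y) c b x < exA (b y - c y) c b y
      omega
    refine ⟨hU, ?_⟩
    by_contra hV
    obtain ⟨z, ⟨h1, h2⟩ | ⟨h1, h2⟩⟩ := h _ hU hV (ordBy c hc) c1 hcV.1
    · change c x < c z at h1
      change exA (b y - c y) c b z < exA (b y - c y) c b x at h2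
      rw [ax] at h2
      unfold exA clip at h2; omega
    · change c z < c y at h1
      change exA (b y - c y) c b y < exA (b y - c y) c b z at h2
      rw [ay] at h2
      unfold exA clip at h2; omega
  · have hU : (ordBy _ hd).1 y x := by
      change exD (b y - c y) c b y < exD (b y - c y) c b x
      omega
    rintro (h1 | hV)
    · change exD (b y - c y) c b x < exD (b y - c y) c b y at h1
      omega
    · obtain ⟨z, ⟨h1, h2⟩ | ⟨h1, h2⟩⟩ := h (ordBy b hb) b1 hbU.2 _ hU hV
      · change exD (b y - c y) c b x < exD (b y - c y) c b z at h1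
        change b z < b x at h2
        rw [dx] at h1
        unfold exD clip at h1; omega
      · change exD (b y - c y) c b z < exD (b y - c y) c b y at h1
        change b y < b z at h2
        rw [dy] at h1
        unfold exD clip at h1; omega

end Pool.Agent.H45.Corr
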