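import Pool.Agent.H45.Corr.Beta

/-!
# Nested sums and their limit
-/

open Finset Filter Topology

namespace Pool.Agent.H45.Corr

/-- Nested sums: the list is ordered from the last summation variable to the first. -/
def nest (M : ℕ) : List (ℕ × ℕ) → ℕ → ℕ
  | [], _ => 1
  | q :: w, v => ∑ u ∈ range v, (u + 1) ^ q.1 * (M - u) ^ q.2 * nest M w u

/-- The coefficient list of the iterated integral. -/
def coef : List (ℕ × ℕ) → List ℕ
  | [] => [1]
  | q :: w => intL (mulL q.1 q.2 (coef w))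

/-- total degree -/
def dg : List (ℕ × ℕ) → ℕ
  | [] => 0
  | q :: w => dg w + q.1 + q.2 + 1

theorem coef_length (w : List (ℕ × ℕ)) : (coef w).length = dg w + 1 := by
  induction w with
  | nil => rfl
  | cons q w ih => simp [coef, dg, intL, scan_length, mulL_length, ih]; ring

theorem coef_ne (w : List (ℕ × ℕ)) : coef w ≠ [] := by
  intro h
  have := coef_length w
  rw [h] at this; simp at this

/-- A differentiable function with continuous derivative: the error of the left Riemann sum. -/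
theorem riemann (F φ : ℝ → ℝ) (hF : ∀ x, HasDerivAt F (φ x) x) (hφ : ContDiff ℝ 1 φ)
    (h0 : F 0 = 0) : ∃ C : ℝ, 0 ≤ C ∧ ∀ M : ℕ, 0 < M → ∀ v ≤ M,
      |(∑ u ∈ range v, φ (u / M)) / M - F (v / M)| ≤ C / M := by
  -- Lipschitz bound for φ on [0, 1]
  obtain ⟨D, hD⟩ : ∃ D : ℝ, ∀ x ∈ Set.Icc (0 : ℝ) 1, |deriv φ x| ≤ D := by
    have hc : ContinuousOn (deriv φ) (Set.Icc (0 : ℝ) 1) :=
      (hφ.continuous_deriv le_rfl).continuousOn
    obtain ⟨D, hD⟩ := isCompact_Icc.exists_bound_of_continuousOn hc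
    exact ⟨D, fun x hx => by simpa using hD x hx⟩
  have hD0 : 0 ≤ D := (abs_nonneg _).trans (hD 0 (by simp))
  have lip : ∀ x ∈ Set.Icc (0 : ℝ) 1, ∀ y ∈ Set.Icc (0 : ℝ) 1, |φ y - φ x| ≤ D * |y - x| := by
    intro x hx y hy
    have := (convex_Icc (0 : ℝ) 1).norm_image_sub_le_of_norm_deriv_le
      (f := φ) (C := D) (fun z _ => (hφ.differentiable (by simp)).differentiableAt)
      (fun z hz => by simpa using hD z hz) hx hy
    simpa using this
  refine ⟨D, hD0, fun M hM v hv => ?_⟩
  have hMR : (0 : ℝ) < M := by exact_mod_cast hM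
  have tel : F (v / M) = ∑ u ∈ range v, (F (((u + 1 : ℕ) : ℝ) / M) - F ((u : ℝ) / M)) := by
    rw [Finset.sum_range_sub (fun u : ℕ => F ((u : ℝ) / M))]
    simp [h0]
  rw [tel, Finset.sum_div, ← Finset.sum_sub_distrib]
  refine (Finset.abs_sum_le_sum_abs _ _).trans ?_
  have term : ∀ u ∈ range v, |φ ((u : ℝ) / M) / M - (F (((u + 1 : ℕ) : ℝ) / M) - F ((u : ℝ) / M))|
      ≤ D / M ^ 2 := by
    intro u hu
    rw [mem_range] at hu
    have hlt : (u : ℝ) / M < ((u + 1 : ℕ) : ℝ) / M := by
      rw [div_lt_div_iff_of_pos_right hMR]; push_cast; linarith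
    obtain ⟨ξ, hξ, he⟩ := exists_hasDerivAt_eq_slope F φ hlt
      (fun x _ => (hF x).continuousAt.continuousWithinAt) (fun x _ => hF x)
    have hw : ((u + 1 : ℕ) : ℝ) / M - (u : ℝ) / M = 1 / M := by push_cast; field_simp; ring
    rw [hw] at he
    have he' : F (((u + 1 : ℕ) : ℝ) / M) - F ((u : ℝ) / M) = φ ξ / M := by
      rw [he]; field_simp
    rw [he', ← sub_div, abs_div, abs_of_pos hMR, div_le_div_iff₀ hMR (by positivity)]
    have hu1 : (u : ℝ) / M ∈ Set.Icc (0 : ℝ) 1 := by
      refine ⟨by positivity, ?_⟩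
      rw [div_le_one hMR]; exact_mod_cast (by omega : u ≤ M)
    have hu2 : ((u + 1 : ℕ) : ℝ) / M ≤ 1 := by
      rw [div_le_one hMR]; exact_mod_cast (by omega : u + 1 ≤ M)
    have hξ1 : ξ ∈ Set.Icc (0 : ℝ) 1 := ⟨hu1.1.trans hξ.1.le, hξ.2.le.trans hu2⟩
    have h1 := lip ξ hξ1 _ hu1
    have h2 : |(u : ℝ) / M - ξ| ≤ 1 / M := by
      rw [abs_le]; constructor <;> [have := hξ.2; have := hξ.1] <;> linarith
    calc |φ ((u : ℝ) / M) - φ ξ| * (M : ℝ) ^ 2 ≤ (D * (1 / M)) * M ^ 2 := by
          apply mul_le_mul_of_nonneg_right _ (by positivity)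
          exact h1.trans (mul_le_mul_of_nonneg_left h2 hD0)
      _ = D * M := by field_simp
  refine (Finset.sum_le_sum term).trans ?_
  rw [Finset.sum_const, card_range, nsmul_eq_mul]
  have hvR : (v : ℝ) ≤ M := by exact_mod_cast hv
  calc (v : ℝ) * (D / M ^ 2) ≤ M * (D / M ^ 2) :=
        mul_le_mul_of_nonneg_right hvR (by positivity)
    _ = D / M := by field_simp

theorem bE_contDiff (i j : ℕ) : ContDiff ℝ 1 (bE i j) := by
  unfold bE
  fun_prop

theorem evL_contDiff (c : List ℕ) : ContDiff ℝ 1 (evL c) := by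
  unfold evL ev
  apply ContDiff.sum
  intro i _
  exact contDiff_const.mul (bE_contDiff _ _)

theorem pow_diff {x y : ℝ} (hx : 0 ≤ x) (hxy : x ≤ y) (hy : y ≤ 1) (K : ℕ) :
    |y ^ K - x ^ K| ≤ K * (y - x) := by
  have h1 : 0 ≤ y ^ K - x ^ K := sub_nonneg.2 (pow_le_pow_left₀ hx hxy K)
  rw [abs_of_nonneg h1]
  induction K with
  | zero => simp
  | succ K ih =>
    have h2 : 0 ≤ y ^ K - x ^ K := sub_nonneg.2 (pow_le_pow_left₀ hx hxy K)
    have h3 := ih h2
    have h4 : y ^ K ≤ 1 := pow_le_one₀ (hx.trans hxy) hy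
    have h5 : 0 ≤ x ^ K := by positivity
    have h6 : x ^ K ≤ 1 := pow_le_one₀ hx (hxy.trans hy)
    calc y ^ (K + 1) - x ^ (K + 1) = y ^ K * (y - x) + (y ^ K - x ^ K) * x := by ring
      _ ≤ 1 * (y - x) + (K * (y - x)) * 1 := by
        apply add_le_add
        · exact mul_le_mul_of_nonneg_right h4 (by linarith)
        · exact mul_le_mul h3 (hxy.trans hy) hx (by nlinarith)
      _ = ((K + 1 : ℕ) : ℝ) * (y - x) := by push_cast; ring

/-- The nested sums are approximated by the iterated integrals. -/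
theorem nest_approx (w : List (ℕ × ℕ)) : ∃ C : ℝ, 0 ≤ C ∧ ∀ M : ℕ, 0 < M → ∀ v ≤ M,
    |(nest M w v : ℝ) / M ^ dg w - evL (coef w) (v / M)| ≤ C / M := by
  induction w with
  | nil =>
    refine ⟨0, le_rfl, fun M hM v hv => ?_⟩
    simp [nest, dg, coef, evL, ev, bE]
  | cons q w ih =>
    obtain ⟨K, L⟩ := q
    obtain ⟨C1, hC1, h1⟩ := ih
    -- bound for the polynomial on [0, 1]
    obtain ⟨B, hB⟩ : ∃ B : ℝ, ∀ x ∈ Set.Icc (0 : ℝ) 1, |evL (coef w) x| ≤ B := by
      obtain ⟨D, hD⟩ := (isCompact_Icc (a := (0 : ℝ)) (b := 1)).exists_bound_of_continuousOn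
        (evL_contDiff (coef w)).continuous.continuousOn
      exact ⟨D, fun x hx => by simpa using hD x hx⟩
    have hB0 : 0 ≤ B := (abs_nonneg _).trans (hB 0 (by simp))
    set φ : ℝ → ℝ := fun x => x ^ K * (1 - x) ^ L * evL (coef w) x with hφ
    have hφ' : φ = evL (mulL K L (coef w)) := by
      funext x; rw [mulL_ev _ _ _ (coef_ne w)]
    have hmne : mulL K L (coef w) ≠ [] := by
      intro h
      have := mulL_length K L (coef w)
      rw [h, coef_length] at this; simp at this; omega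
    obtain ⟨C2, hC2, h2⟩ := riemann (evL (intL (mulL K L (coef w)))) φ
      (fun x => by rw [hφ']; exact intL_deriv _ hmne x)
      (by rw [hφ']; exact evL_contDiff _) (intL_zero _)
    refine ⟨C1 + B * K + C2, by positivity, fun M hM v hv => ?_⟩
    have hMR : (0 : ℝ) < M := by exact_mod_cast hM
    have e1 : (nest M ((K, L) :: w) v : ℝ) / M ^ dg ((K, L) :: w)
        = (∑ u ∈ range v, (((u + 1 : ℕ) : ℝ) / M) ^ K * (1 - (u : ℝ) / M) ^ L
            * ((nest M w u : ℝ) / M ^ dg w)) / M := by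
      simp only [nest, dg]
      push_cast
      rw [Finset.sum_div, Finset.sum_div]
      refine Finset.sum_congr rfl fun u hu => ?_
      rw [mem_range] at hu
      have hsub : ((M - u : ℕ) : ℝ) = (M : ℝ) - u := by
        rw [Nat.cast_sub (by omega)]
      rw [hsub]
      have : (1 - (u : ℝ) / M) = ((M : ℝ) - u) / M := by field_simp
      rw [this, div_pow, div_pow]
      rw [pow_add, pow_add, pow_one]
      field_simp
      ring
    rw [e1]
    have h3 : |(∑ u ∈ range v, (((u + 1 : ℕ) : ℝ) / M) ^ K * (1 - (u : ℝ) / M) ^ L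
            * ((nest M w u : ℝ) / M ^ dg w)) / M - (∑ u ∈ range v, φ (u / M)) / M|
        ≤ (C1 + B * K) / M := by
      rw [← sub_div, ← Finset.sum_sub_distrib, abs_div, abs_of_pos hMR,
        div_le_div_iff_of_pos_right hMR]
      refine (Finset.abs_sum_le_sum_abs _ _).trans ?_
      have term : ∀ u ∈ range v, |(((u + 1 : ℕ) : ℝ) / M) ^ K * (1 - (u : ℝ) / M) ^ L
            * ((nest M w u : ℝ) / M ^ dg w) - φ (u / M)| ≤ (C1 + B * K) / M := by
        intro u hu
        rw [mem_range] at hu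
        have hu0 : (0 : ℝ) ≤ (u : ℝ) / M := by positivity
        have hu1 : (u : ℝ) / M ≤ 1 := by
          rw [div_le_one hMR]; exact_mod_cast (by omega : u ≤ M)
        have hu2 : ((u + 1 : ℕ) : ℝ) / M ≤ 1 := by
          rw [div_le_one hMR]; exact_mod_cast (by omega : u + 1 ≤ M)
        have hu3 : (u : ℝ) / M ≤ ((u + 1 : ℕ) : ℝ) / M := by
          rw [div_le_div_iff_of_pos_right hMR]; push_cast; linarith
        have hw : ((u + 1 : ℕ) : ℝ) / M - (u : ℝ) / M = 1 / M := by push_cast; field_simp; ring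
        set y := ((u + 1 : ℕ) : ℝ) / M
        set x := (u : ℝ) / M
        set g := (nest M w u : ℝ) / M ^ dg w
        have k1 : |g - evL (coef w) x| ≤ C1 / M := h1 M hM u (by omega)
        have k2 : |evL (coef w) x| ≤ B := hB x ⟨hu0, hu1⟩
        have k3 := pow_diff hu0 hu3 hu2 K
        rw [hw] at k3
        have k4 : 0 ≤ (1 - x) ^ L := pow_nonneg (by linarith) _
        have k5 : (1 - x) ^ L ≤ 1 := pow_le_one₀ (by linarith) (by linarith)
        have k6 : 0 ≤ y ^ K := pow_nonneg (hu0.trans hu3) _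
        have k7 : y ^ K ≤ 1 := pow_le_one₀ (hu0.trans hu3) hu2
        have e : y ^ K * (1 - x) ^ L * g - φ x
            = (y ^ K * (1 - x) ^ L) * (g - evL (coef w) x)
              + ((1 - x) ^ L * evL (coef w) x) * (y ^ K - x ^ K) := by
          simp only [hφ]; ring
        rw [e]
        refine (abs_add_le _ _).trans ?_
        rw [abs_mul, abs_mul, abs_mul, abs_mul, abs_of_nonneg k4, abs_of_nonneg k6]
        have m1 : y ^ K * (1 - x) ^ L ≤ 1 := by nlinarith
        have m2 : (1 - x) ^ L * |evL (coef w) x| ≤ B := by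
          calc (1 - x) ^ L * |evL (coef w) x| ≤ 1 * B :=
                mul_le_mul k5 k2 (abs_nonneg _) zero_le_one
            _ = B := one_mul B
        calc y ^ K * (1 - x) ^ L * |g - evL (coef w) x|
              + (1 - x) ^ L * |evL (coef w) x| * |y ^ K - x ^ K|
            ≤ 1 * (C1 / M) + B * (K * (1 / M)) := by
              apply add_le_add
              · exact mul_le_mul m1 k1 (abs_nonneg _) zero_le_one
              · exact mul_le_mul m2 k3 (abs_nonneg _) hB0
          _ = (C1 + B * K) / M := by field_simp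
      refine (Finset.sum_le_sum term).trans ?_
      rw [Finset.sum_const, card_range, nsmul_eq_mul]
      have hvR : (v : ℝ) ≤ M := by exact_mod_cast hv
      calc (v : ℝ) * ((C1 + B * K) / M) ≤ M * ((C1 + B * K) / M) :=
            mul_le_mul_of_nonneg_right hvR (by positivity)
        _ = C1 + B * K := by field_simp
    have h4 := h2 M hM v hv
    have h5 := abs_sub_le ((∑ u ∈ range v, (((u + 1 : ℕ) : ℝ) / M) ^ K * (1 - (u : ℝ) / M) ^ L
            * ((nest M w u : ℝ) / M ^ dg w)) / M) ((∑ u ∈ range v, φ (u / M)) / M)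
            (evL (intL (mulL K L (coef w))) (v / M))
    refine h5.trans ?_
    calc _ ≤ (C1 + B * K) / M + C2 / M := add_le_add h3 h4
      _ = (C1 + B * K + C2) / M := by ring

/-- the last coefficient -/
def lastC (w : List (ℕ × ℕ)) : ℕ := (coef w).getD (dg w) 0

/-- **The limit of the nested sums.** -/
theorem nest_limit (w : List (ℕ × ℕ)) :
    Tendsto (fun M : ℕ => (nest M w M : ℝ) / M ^ dg w) atTop
      (𝓝 ((lastC w : ℝ) / (dg w).factorial)) := by
  obtain ⟨C, hC, h⟩ := nest_approx w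
  have e : evL (coef w) 1 = (lastC w : ℝ) / (dg w).factorial := by
    unfold evL lastC
    rw [ev_one, coef_length, Nat.add_sub_cancel]
  rw [← e]
  rw [tendsto_iff_dist_tendsto_zero]
  refine squeeze_zero' (Eventually.of_forall fun M => dist_nonneg)
    (g := fun M : ℕ => C / M) ?_ (tendsto_const_div_atTop_nhds_zero_nat C)
  filter_upwards [eventually_gt_atTop 0] with M hM
  have := h M hM M le_rfl
  have hMR : (M : ℝ) ≠ 0 := by positivity
  rw [div_self hMR] at this
  rw [Real.dist_eq]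
  exact this

end Pool.Agent.H45.Corr
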