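import Pool.Agent.H45.Corr.Three
import Pool.Agent.H45.Corr.Limit

/-!
# Posets of height three: `T` with antichains below and above subsets of `T`

The ground set is `T ⊕ (Fin nL ⊕ Fin nU)`.  The lower element `i` is below the elements of
`T` in `sL i`, the upper element `j` is above the elements of `T` in `sU j`.  The number of linear
extensions which induce a given ordering on `T` is the last coefficient of an iterated integral.
-/

open Finset Filter Topology

namespace Pool.Agent.H45.Corr

/-- the data -/
structure Baf (T : Type) where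
  nL : ℕ
  nU : ℕ
  sL : Fin nL → T → Bool
  sU : Fin nU → T → Bool

/-- the ground set -/
def Baf.X {T : Type} (D : Baf T) : Type := T ⊕ (Fin D.nL ⊕ Fin D.nU)

/-- the order relation -/
def Baf.rel {T : Type} (D : Baf T) : T ⊕ (Fin D.nL ⊕ Fin D.nU) → T ⊕ (Fin D.nL ⊕ Fin D.nU) → Prop
  | Sum.inl s, Sum.inl t => s = t
  | Sum.inl _, Sum.inr (Sum.inl _) => False
  | Sum.inl t, Sum.inr (Sum.inr j) => D.sU j t = true
  | Sum.inr (Sum.inl i), Sum.inl t => D.sL i t = true
  | Sum.inr (Sum.inr _), Sum.inl _ => False
  | Sum.inr (Sum.inl i), Sum.inr (Sum.inl i') => i = i'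
  | Sum.inr (Sum.inl i), Sum.inr (Sum.inr j) => ∃ t, D.sL i t = true ∧ D.sU j t = true
  | Sum.inr (Sum.inr _), Sum.inr (Sum.inl _) => False
  | Sum.inr (Sum.inr j), Sum.inr (Sum.inr j') => j = j'

instance {T : Type} (D : Baf T) : PartialOrder D.X where
  le := D.rel
  le_refl x := by rcases x with t | i | j <;> rfl
  le_trans x y z h1 h2 := by
    rcases x with s | i | j <;> rcases y with s' | i' | j' <;> rcases z with s'' | i'' | j'' <;>
      simp only [Baf.rel] at h1 h2 ⊢
    · exact h1.trans h2
    · subst h1; exact h2
    · subst h2; exact h1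
    · subst h2; exact h1
    · exact ⟨s', h1, h2⟩
    · subst h1; exact h2
    · exact h1.trans h2
    · subst h1; exact h2
    · subst h2; exact h1
    · exact h1.trans h2
  le_antisymm x y h1 h2 := by
    rcases x with s | i | j <;> rcases y with s' | i' | j' <;> simp only [Baf.rel] at h1 h2
    · rw [h1]
    · rw [h1]
    · rw [h1]

instance {T : Type} [Fintype T] (D : Baf T) : Fintype D.X := by unfold Baf.X; infer_instance

/-- the inclusion of `T` -/
def Baf.inl {T : Type} (D : Baf T) : T ↪ D.X :=
  ⟨fun t => (Sum.inl t : T ⊕ (Fin D.nL ⊕ Fin D.nU)), fun _ _ h => Sum.inl.inj h⟩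

/-- the first element of the list with property `S` -/
def firstOf {T : Type} (S : T → Bool) : List T → T → T
  | [], d => d
  | t :: l, d => if S t then t else firstOf S l d

theorem firstOf_spec {T : Type} (S : T → Bool) (d : T) (l : List T) (h : ∃ t ∈ l, S t = true)
    (p : T → ℕ) (hp : l.Pairwise (fun s t => p s ≤ p t)) :
    S (firstOf S l d) = true ∧ ∀ t ∈ l, S t = true → p (firstOf S l d) ≤ p t := by
  induction l with
  | nil => simp at h
  | cons t0 l ih =>
    rw [List.pairwise_cons] at hp
    by_cases h0 : S t0 = true
    · rw [firstOf, if_pos h0]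
      refine ⟨h0, fun t ht _ => ?_⟩
      rcases List.mem_cons.1 ht with rfl | ht
      · exact le_rfl
      · exact hp.1 t ht
    · rw [firstOf, if_neg h0]
      have h' : ∃ t ∈ l, S t = true := by
        obtain ⟨t, ht, hS⟩ := h
        rcases List.mem_cons.1 ht with rfl | ht
        · exact (h0 hS).elim
        · exact ⟨t, ht, hS⟩
      obtain ⟨h1, h2⟩ := ih h' hp.2
      refine ⟨h1, fun t ht hS => ?_⟩
      rcases List.mem_cons.1 ht with rfl | ht
      · exact (h0 hS).elim
      · exact h2 t ht hS

/-! ### Sums over functions which are strictly decreasing along a list -/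

/-- nested sums with general weights; the list is ordered from the top -/
def nestW {T : Type} (W : T → ℕ → ℕ) : List T → ℕ → ℕ
  | [], _ => 1
  | t :: l, V => ∑ u ∈ range V, W t u * nestW W l u

theorem nestW_eq {T : Type} (M : ℕ) (K L : T → ℕ) (l : List T) (V : ℕ) :
    nestW (fun t u => (u + 1) ^ K t * (M - u) ^ L t) l V
      = nest M (l.map fun t => (K t, L t)) V := by
  induction l generalizing V with
  | nil => rfl
  | cons t l ih => simp only [nestW, nest, List.map_cons, ih]

section

variable {T : Type} [DecidableEq T] [Finite T]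

/-- functions supported on the list, strictly decreasing along it, with values below `V` -/
def decSet (l : List T) (V : ℕ) : Set (T → ℕ) :=
  {p | (∀ t, t ∉ l → p t = 0) ∧ (∀ t ∈ l, p t < V) ∧ l.Pairwise (fun s t => p t < p s)}

theorem decSet_finite (l : List T) (V : ℕ) : (decSet l V).Finite := by
  have := Fintype.ofFinite T
  refine (Set.finite_Icc (fun _ : T => 0) (fun _ => V)).subset ?_
  rintro p ⟨h1, h2, _⟩
  refine ⟨fun t => Nat.zero_le _, fun t => ?_⟩
  by_cases ht : t ∈ l
  · exact (h2 t ht).le
  · rw [h1 t ht]; exact Nat.zero_le _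

omit [Finite T] in
theorem decSet_cons {t : T} {l : List T} (ht : t ∉ l) (V u : ℕ) (hu : u < V) :
    {p | p ∈ decSet (t :: l) V ∧ p t = u} = (fun p => Function.update p t u) '' decSet l u := by
  ext p
  simp only [decSet, Set.mem_ofPred_eq, Set.mem_image]
  constructor
  · rintro ⟨⟨h1, h2, h3⟩, h4⟩
    rw [List.pairwise_cons] at h3
    refine ⟨Function.update p t 0, ⟨fun s hs => ?_, fun s hs => ?_, ?_⟩, ?_⟩
    · rcases eq_or_ne s t with rfl | hst
      · simp
      · rw [Function.update_of_ne hst]
        exact h1 s (by simp [hst, hs])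
    · have hst : s ≠ t := fun he => ht (he ▸ hs)
      rw [Function.update_of_ne hst]
      have := h3.1 s hs
      omega
    · refine (List.Pairwise.imp_of_mem ?_ h3.2)
      intro s u hs hu hsu
      have hst : s ≠ t := fun he => ht (he ▸ hs)
      have hut : u ≠ t := fun he => ht (he ▸ hu)
      rwa [Function.update_of_ne hst, Function.update_of_ne hut]
    · rw [Function.update_idem, ← h4, Function.update_eq_self]
  · rintro ⟨q, ⟨h1, h2, h3⟩, rfl⟩
    refine ⟨⟨fun s hs => ?_, fun s hs => ?_, ?_⟩, ?_⟩
    · rw [List.mem_cons, not_or] at hs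
      rw [Function.update_of_ne hs.1]; exact h1 s hs.2
    · rcases List.mem_cons.1 hs with rfl | hs
      · rw [Function.update_self]; omega
      · have hst : s ≠ t := fun he => ht (he ▸ hs)
        rw [Function.update_of_ne hst]
        have := h2 s hs; omega
    · rw [List.pairwise_cons]
      refine ⟨fun s hs => ?_, ?_⟩
      · have hst : s ≠ t := fun he => ht (he ▸ hs)
        rw [Function.update_self, Function.update_of_ne hst]
        exact h2 s hs
      · refine (List.Pairwise.imp_of_mem ?_ h3)
        intro s u hs hu hsu
        have hst : s ≠ t := fun he => ht (he ▸ hs)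
        have hut : u ≠ t := fun he => ht (he ▸ hu)
        rwa [Function.update_of_ne hst, Function.update_of_ne hut]
    · simp

theorem decSet_sum (W : T → ℕ → ℕ) (l : List T) (hl : l.Nodup) (V : ℕ) :
    ∑ p ∈ (decSet_finite l V).toFinset, (l.map fun t => W t (p t)).prod = nestW W l V := by
  classical
  induction l generalizing V with
  | nil =>
    have : (decSet_finite ([] : List T) V).toFinset = {fun _ => 0} := by
      ext p
      simp only [Set.Finite.mem_toFinset, decSet, Set.mem_ofPred_eq, Finset.mem_singleton]
      constructor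
      · rintro ⟨h1, _, _⟩
        exact funext fun t => h1 t (by simp)
      · rintro rfl
        exact ⟨fun _ _ => rfl, fun t ht => absurd ht (by simp), List.Pairwise.nil⟩
    rw [this]; simp [nestW]
  | cons t l ih =>
    rw [List.nodup_cons] at hl
    unfold nestW
    rw [← Finset.sum_fiberwise_of_maps_to (g := fun p => p t) (t := range V)]
    · refine Finset.sum_congr rfl fun u hu => ?_
      rw [mem_range] at hu
      rw [← ih hl.2 u, Finset.mul_sum]
      have hinj : Set.InjOn (fun p : T → ℕ => Function.update p t u)
          ((decSet_finite l u).toFinset : Set (T → ℕ)) := by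
        intro p hp q hq hpq
        rw [Set.Finite.coe_toFinset] at hp hq
        funext s
        rcases eq_or_ne s t with rfl | hst
        · rw [hp.1 _ hl.1, hq.1 _ hl.1]
        · have := congrFun hpq s
          simpa [Function.update_of_ne hst] using this
      have e : ((decSet_finite (t :: l) V).toFinset.filter fun p => p t = u)
          = (decSet_finite l u).toFinset.image (fun p => Function.update p t u) := by
        ext p
        have := Set.ext_iff.1 (decSet_cons hl.1 V u hu) p
        simp only [Finset.mem_filter, Set.Finite.mem_toFinset, Finset.mem_image]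
        simpa using this
      rw [e, Finset.sum_image hinj]
      refine Finset.sum_congr rfl fun p _ => ?_
      rw [List.map_cons, List.prod_cons, Function.update_self]
      congr 2
      apply List.map_congr_left
      intro s hs
      have hst : s ≠ t := fun he => hl.1 (he ▸ hs)
      rw [Function.update_of_ne hst]
    · intro p hp
      rw [Set.Finite.mem_toFinset] at hp
      exact Finset.mem_range.2 (hp.2.1 t (by simp))

end

/-! ### Counting labellings -/

section Count

variable {T : Type} [DecidableEq T] [Fintype T] (D : Baf T)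

/-- exponent of `v t + 1` -/
def Baf.K (l : List T) (t : T) : ℕ :=
  (Finset.univ.filter fun i => firstOf (D.sL i) l t = t ∧ D.sL i t = true).card

/-- exponent of `M - v t` -/
def Baf.L (l : List T) (t : T) : ℕ :=
  (Finset.univ.filter fun j => firstOf (D.sU j) l.reverse t = t ∧ D.sU j t = true).card

/-- the weights, from the top -/
def Baf.wts (l : List T) : List (ℕ × ℕ) := l.reverse.map fun t => (D.K l t, D.L l t)

/-- the property of a relation on `X` to induce the ordering `l` on `T` -/
def Baf.P (l : List T) (r : D.X → D.X → Prop) : Prop :=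
  ∀ s t, r (D.inl s) (D.inl t) ↔ listRel l s t

omit [DecidableEq T] [Fintype T] in
theorem firstOf_indep (S : T → Bool) (l : List T) (h : ∃ t ∈ l, S t = true) (d d' : T) :
    firstOf S l d = firstOf S l d' := by
  induction l with
  | nil => simp at h
  | cons t0 l ih =>
    by_cases h0 : S t0 = true
    · simp [firstOf, h0]
    · rw [firstOf, firstOf, if_neg h0, if_neg h0]
      apply ih
      obtain ⟨t, ht, hS⟩ := h
      rcases List.mem_cons.1 ht with rfl | ht
      · exact (h0 hS).elim
      · exact ⟨t, ht, hS⟩

omit [DecidableEq T] [Fintype T] in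
theorem firstOf_mem (S : T → Bool) (l : List T) (h : ∃ t ∈ l, S t = true) (d : T) :
    S (firstOf S l d) = true := by
  induction l with
  | nil => simp at h
  | cons t0 l ih =>
    by_cases h0 : S t0 = true
    · simp [firstOf, h0]
    · rw [firstOf, if_neg h0]
      apply ih
      obtain ⟨t, ht, hS⟩ := h
      rcases List.mem_cons.1 ht with rfl | ht
      · exact (h0 hS).elim
      · exact ⟨t, ht, hS⟩

theorem prod_group {n : ℕ} (s : Fin n → T → Bool) (l : List T) (hf : ∀ t, t ∈ l)
    (hs : ∀ i, ∃ t, s i t = true) (d : T) (f : T → ℕ) :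
    ∏ i, f (firstOf (s i) l d)
      = ∏ t, f t ^ (Finset.univ.filter fun i => firstOf (s i) l t = t ∧ s i t = true).card := by
  rw [← Finset.prod_fiberwise (s := Finset.univ) (g := fun i => firstOf (s i) l d)]
  refine Finset.prod_congr rfl fun t _ => ?_
  have e : (Finset.univ.filter fun i => firstOf (s i) l d = t)
      = Finset.univ.filter fun i => firstOf (s i) l t = t ∧ s i t = true := by
    ext i
    simp only [Finset.mem_filter, Finset.mem_univ, true_and]
    have hex : ∃ t ∈ l, s i t = true := by
      obtain ⟨t, ht⟩ := hs i; exact ⟨t, hf t, ht⟩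
    constructor
    · intro h
      refine ⟨by rw [firstOf_indep _ _ hex t d]; exact h, ?_⟩
      rw [← h]; exact firstOf_mem _ _ hex d
    · rintro ⟨h, _⟩
      rw [firstOf_indep _ _ hex d t]; exact h
  rw [e]
  rw [← Finset.prod_const]
  refine Finset.prod_congr rfl fun i hi => ?_
  rw [← e, Finset.mem_filter] at hi
  rw [hi.2]

variable {D}

theorem baf_mon (hL : ∀ i, ∃ t, D.sL i t = true) (hU : ∀ j, ∃ t, D.sU j t = true)
    (l : List T) (hl : l.Nodup) (hf : ∀ t, t ∈ l) (M : ℕ) (t0 : T) :
    (mon D.X M (D.P l)).ncard = nest M (D.wts l) M := by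
  classical
  -- the admissible functions on `T`
  set VF : Finset (T → Fin M) := Finset.univ.filter fun v => ∀ s t, v s < v t ↔ listRel l s t
    with hVF
  have hpair : ∀ v ∈ VF, l.Pairwise (fun s t => (v s : ℕ) ≤ v t) := by
    intro v hv
    rw [hVF, Finset.mem_filter] at hv
    rw [pairwise_listRel hl hf]
    intro s t hst
    exact ((hv.2 s t).2 hst).le
  have hpair' : ∀ v ∈ VF, l.reverse.Pairwise (fun s t => M - (v s : ℕ) ≤ M - v t) := by
    intro v hv
    rw [List.pairwise_reverse]
    refine (hpair v hv).imp ?_
    intro s t hst; omega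
  have hsplit : (mon D.X M (D.P l)).ncard
      = ∑ v ∈ VF, (∏ i, ((v (firstOf (D.sL i) l t0) : ℕ) + 1))
        * ∏ j, (M - (v (firstOf (D.sU j) l.reverse t0) : ℕ)) := by
    rw [Set.ncard_eq_toFinset_card _ (Set.toFinite _),
      Finset.card_eq_sum_card_fiberwise (f := fun g t => g (D.inl t)) (t := VF)]
    · refine Finset.sum_congr rfl fun v hv => ?_
      have hvp := hpair v hv
      have hvp' := hpair' v hv
      have sL : ∀ i, ∀ k : Fin M, (∀ t, D.sL i t = true → k ≤ v t) ↔
          k ≤ v (firstOf (D.sL i) l t0) := by
        intro i k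
        have hex : ∃ t ∈ l, D.sL i t = true := by
          obtain ⟨t, ht⟩ := hL i; exact ⟨t, hf t, ht⟩
        obtain ⟨h1, h2⟩ := firstOf_spec (D.sL i) t0 l hex (fun t => (v t : ℕ)) hvp
        constructor
        · intro h; exact h _ h1
        · intro h t ht
          exact h.trans (Fin.le_def.2 (h2 t (hf t) ht))
      have sU : ∀ j, ∀ k : Fin M, (∀ t, D.sU j t = true → v t ≤ k) ↔
          v (firstOf (D.sU j) l.reverse t0) ≤ k := by
        intro j k
        have hex : ∃ t ∈ l.reverse, D.sU j t = true := by
          obtain ⟨t, ht⟩ := hU j; exact ⟨t, List.mem_reverse.2 (hf t), ht⟩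
        obtain ⟨h1, h2⟩ := firstOf_spec (D.sU j) t0 l.reverse hex (fun t => M - (v t : ℕ)) hvp'
        constructor
        · intro h; exact h _ h1
        · intro h t ht
          have h3 := h2 t (List.mem_reverse.2 (hf t)) ht
          have h4 := Fin.le_def.1 h
          have h5 := (v t).2
          have h6 := (v (firstOf (D.sU j) l.reverse t0)).2
          rw [Fin.le_def]
          omega
      have cL : ∀ k : Fin M, (Finset.univ.filter fun a : Fin M => a ≤ k).card = (k : ℕ) + 1 := by
        intro k
        have : (Finset.univ.filter fun a : Fin M => a ≤ k) = Finset.Iic k := by ext; simp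
        rw [this, Fin.card_Iic]
      have cU : ∀ k : Fin M, (Finset.univ.filter fun a : Fin M => k ≤ a).card = M - (k : ℕ) := by
        intro k
        have : (Finset.univ.filter fun a : Fin M => k ≤ a) = Finset.Ici k := by ext; simp
        rw [this, Fin.card_Ici]
      have e1 : (∏ i, ((v (firstOf (D.sL i) l t0) : ℕ) + 1))
          = (Fintype.piFinset fun i : Fin D.nL =>
            Finset.univ.filter fun a : Fin M => a ≤ v (firstOf (D.sL i) l t0)).card := by
        rw [Fintype.card_piFinset]
        exact Finset.prod_congr rfl fun i _ => (cL _).symm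
      have e2 : (∏ j, (M - (v (firstOf (D.sU j) l.reverse t0) : ℕ)))
          = (Fintype.piFinset fun j : Fin D.nU =>
            Finset.univ.filter fun a : Fin M => v (firstOf (D.sU j) l.reverse t0) ≤ a).card := by
        rw [Fintype.card_piFinset]
        exact Finset.prod_congr rfl fun j _ => (cU _).symm
      rw [e1, e2, ← Finset.card_product]
      refine Finset.card_bij' (fun g _ => (fun i => g (Sum.inr (Sum.inl i)),
        fun j => g (Sum.inr (Sum.inr j))))
        (fun q _ x => match x with
          | Sum.inl t => v t
          | Sum.inr (Sum.inl i) => q.1 i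
          | Sum.inr (Sum.inr j) => q.2 j) ?_ ?_ ?_ ?_
      · intro g hg
        rw [Finset.mem_filter, Set.Finite.mem_toFinset] at hg
        obtain ⟨⟨h1, h2⟩, h3⟩ := hg
        have h3' : ∀ t, g (D.inl t) = v t := fun t => congrFun h3 t
        rw [Finset.mem_product]
        constructor
        · rw [Fintype.mem_piFinset]
          intro i
          simp only [Finset.mem_filter, Finset.mem_univ, true_and]
          rw [← sL]
          intro t ht
          rw [← h3' t]
          exact h1 _ _ ht
        · rw [Fintype.mem_piFinset]
          intro j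
          simp only [Finset.mem_filter, Finset.mem_univ, true_and]
          rw [← sU]
          intro t ht
          rw [← h3' t]
          exact h1 _ _ ht
      · rintro ⟨gl, gu⟩ hq
        rw [Finset.mem_product, Fintype.mem_piFinset, Fintype.mem_piFinset] at hq
        simp only [Finset.mem_filter, Finset.mem_univ, true_and] at hq
        obtain ⟨q1, q2⟩ := hq
        rw [Finset.mem_filter, Set.Finite.mem_toFinset]
        refine ⟨⟨?_, ?_⟩, rfl⟩
        · have hle1 : ∀ i t, D.sL i t = true → gl i ≤ v t := fun i t ht => (sL i _).2 (q1 i) t ht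
          have hle2 : ∀ j t, D.sU j t = true → v t ≤ gu j := fun j t ht => (sU j _).2 (q2 j) t ht
          intro x y hxy
          rcases x with s | i | j <;> rcases y with s' | i' | j'
          · have : s = s' := hxy
            subst this; exact le_rfl
          · exact (show False from hxy).elim
          · exact hle2 _ _ hxy
          · exact hle1 _ _ hxy
          · have : i = i' := hxy
            subst this; exact le_rfl
          · obtain ⟨t, h1, h2⟩ : ∃ t, D.sL i t = true ∧ D.sU j' t = true := hxy
            exact (hle1 _ _ h1).trans (hle2 _ _ h2)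
          · exact (show False from hxy).elim
          · exact (show False from hxy).elim
          · have : j = j' := hxy
            subst this; exact le_rfl
        · intro s t
          rw [hVF, Finset.mem_filter] at hv
          exact hv.2 s t
      · intro g hg
        rw [Finset.mem_filter, Set.Finite.mem_toFinset] at hg
        funext x
        rcases x with t | i | j
        · exact (congrFun hg.2 t).symm
        · rfl
        · rfl
      · rintro ⟨gl, gu⟩ _
        rfl
    · intro g hg
      rw [Finset.mem_coe, Set.Finite.mem_toFinset] at hg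
      rw [Finset.mem_coe, hVF, Finset.mem_filter]
      exact ⟨Finset.mem_univ _, fun s t => hg.2 s t⟩
  rw [hsplit]
  -- pass to functions with values in `ℕ`
  unfold Baf.wts
  rw [← nestW_eq, ← decSet_sum _ _ (List.nodup_reverse.2 hl)]
  rcases Nat.eq_zero_or_pos M with hM0 | hM
  · subst hM0
    have z1 : VF = ∅ := Finset.eq_empty_of_forall_notMem fun v _ => (v t0).elim0
    have z2 : (decSet_finite l.reverse 0).toFinset = ∅ :=
      Finset.eq_empty_of_forall_notMem fun p hp => by
        rw [Set.Finite.mem_toFinset] at hp
        exact absurd (hp.2.1 t0 (List.mem_reverse.2 (hf t0))) (Nat.not_lt_zero _)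
    rw [z1, z2]; rfl
  refine Finset.sum_bij' (fun v _ t => (v t : ℕ))
    (fun p _ t => ⟨p t % M, Nat.mod_lt _ hM⟩) ?_ ?_ ?_ ?_ ?_
  · intro v hv
    rw [Set.Finite.mem_toFinset]
    refine ⟨fun t ht => (ht (List.mem_reverse.2 (hf t))).elim, fun t _ => (v t).2, ?_⟩
    rw [List.pairwise_reverse]
    rw [hVF, Finset.mem_filter] at hv
    rw [List.pairwise_iff_getElem]
    intro i j hi hj hij
    have := (hv.2 l[i] l[j]).2 (by
      unfold listRel; rw [hl.idxOf_getElem, hl.idxOf_getElem]; exact hij)
    exact Fin.lt_def.1 this
  · intro p hp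
    rw [Set.Finite.mem_toFinset] at hp
    obtain ⟨_, h2, h3⟩ := hp
    rw [hVF, Finset.mem_filter]
    refine ⟨Finset.mem_univ _, fun s t => ?_⟩
    have hs := h2 s (List.mem_reverse.2 (hf s))
    have ht := h2 t (List.mem_reverse.2 (hf t))
    rw [Fin.lt_def]
    dsimp only
    rw [Nat.mod_eq_of_lt hs, Nat.mod_eq_of_lt ht]
    have key : ∀ s t, listRel l s t → p s < p t := by
      rw [List.pairwise_reverse, List.pairwise_iff_getElem] at h3
      intro s t hst
      have hs := List.idxOf_lt_length_of_mem (hf s)
      have ht := List.idxOf_lt_length_of_mem (hf t)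
      have := h3 _ _ hs ht hst
      rwa [List.getElem_idxOf, List.getElem_idxOf] at this
    constructor
    · intro hlt
      by_contra hcon
      unfold listRel at hcon
      rcases (not_lt.1 hcon).lt_or_eq with h5 | h5
      · have := key t s h5; omega
      · have := (List.idxOf_inj (hf t)).1 h5
        subst this; omega
    · exact key s t
  · intro v hv
    funext t
    exact Fin.ext (Nat.mod_eq_of_lt (v t).2)
  · intro p hp
    rw [Set.Finite.mem_toFinset] at hp
    funext t
    exact Nat.mod_eq_of_lt (hp.2.1 t (List.mem_reverse.2 (hf t)))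
  · intro v hv
    rw [prod_group D.sL l hf hL t0 (fun t => (v t : ℕ) + 1),
      prod_group D.sU l.reverse (fun t => List.mem_reverse.2 (hf t)) hU t0
        (fun t => M - (v t : ℕ)),
      ← Finset.prod_mul_distrib]
    have hu : (l.reverse).toFinset = Finset.univ :=
      Finset.eq_univ_of_forall fun t => by simp [hf t]
    rw [← List.prod_toFinset _ (List.nodup_reverse.2 hl), hu]
    rfl

end Count

end Pool.Agent.H45.Corr
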