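import Pool.Agent.H45.Corr.Baf

/-!
# The number of linear extensions of the posets of height three
-/

open Finset Filter Topology

namespace Pool.Agent.H45.Corr

/-- The number of linear extensions is the limit of the normalised number of labellings. -/
theorem mon_limit {X : Type} [PartialOrder X] [Fintype X] (P : (X → X → Prop) → Prop) :
    Tendsto (fun M : ℕ => ((mon X M P).ncard : ℝ) / M ^ Fintype.card X) atTop
      (𝓝 ((eP X P : ℝ) / (Fintype.card X).factorial)) := by
  set n := Fintype.card X with hn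
  have h1 : Tendsto (fun M : ℕ => (M.choose n : ℝ) / M ^ n) atTop (𝓝 (1 / n.factorial)) := by
    have := isEquivalent_choose n
    have hz : ∀ᶠ (M : ℕ) in atTop, (M ^ n / n.factorial : ℝ) ≠ 0 :=
      eventually_atTop.mpr ⟨1, fun M hM => by positivity⟩
    rw [Asymptotics.isEquivalent_iff_tendsto_one hz] at this
    have h2 := this.mul_const (1 / (n.factorial : ℝ))
    rw [one_mul] at h2
    refine h2.congr' ?_
    filter_upwards [eventually_gt_atTop 0] with M hM
    simp only [Pi.div_apply]
    have : (M : ℝ) ≠ 0 := by positivity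
    field_simp
  have h2 : Tendsto (fun M : ℕ => ((M ^ n - M.descFactorial n : ℕ) : ℝ) / M ^ n) atTop (𝓝 0) := by
    have := isEquivalent_descFactorial n
    have hz : ∀ᶠ (M : ℕ) in atTop, (M ^ n : ℝ) ≠ 0 :=
      eventually_atTop.mpr ⟨1, fun M hM => by positivity⟩
    rw [Asymptotics.isEquivalent_iff_tendsto_one hz] at this
    have h3 := this.const_sub 1
    rw [sub_self] at h3
    refine h3.congr' ?_
    filter_upwards [eventually_gt_atTop 0] with M hM
    simp only [Pi.div_apply]
    rw [Nat.cast_sub (Nat.descFactorial_le_pow M n)]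
    have : (M : ℝ) ^ n ≠ 0 := by positivity
    push_cast
    field_simp
  have lo : Tendsto (fun M : ℕ => (eP X P : ℝ) * ((M.choose n : ℝ) / M ^ n)) atTop
      (𝓝 ((eP X P : ℝ) / n.factorial)) := by
    have := h1.const_mul (eP X P : ℝ)
    rwa [mul_one_div] at this
  have hi : Tendsto (fun M : ℕ => (eP X P : ℝ) * ((M.choose n : ℝ) / M ^ n)
      + ((M ^ n - M.descFactorial n : ℕ) : ℝ) / M ^ n) atTop
      (𝓝 ((eP X P : ℝ) / n.factorial)) := by
    have := lo.add h2
    rwa [add_zero] at this
  refine tendsto_of_tendsto_of_tendsto_of_le_of_le lo hi (fun M => ?_) (fun M => ?_)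
  · have := mon_lower (X := X) M P
    dsimp only
    rw [← mul_div_assoc]
    apply div_le_div_of_nonneg_right _ (by positivity)
    exact_mod_cast this
  · have := mon_upper (X := X) M P
    dsimp only
    rw [← mul_div_assoc, ← add_div]
    apply div_le_div_of_nonneg_right _ (by positivity)
    exact_mod_cast this

variable {T : Type} [DecidableEq T] [Fintype T] {D : Baf T}

theorem baf_eP (hL : ∀ i, ∃ t, D.sL i t = true) (hU : ∀ j, ∃ t, D.sU j t = true)
    (l : List T) (hl : l.Nodup) (hf : ∀ t, t ∈ l) (t0 : T)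
    (hdg : dg (D.wts l) = Fintype.card D.X) :
    eP D.X (D.P l) = lastC (D.wts l) := by
  have h1 := mon_limit (X := D.X) (D.P l)
  have h2 := nest_limit (D.wts l)
  have e : (fun M : ℕ => ((mon D.X M (D.P l)).ncard : ℝ) / M ^ Fintype.card D.X)
      = fun M : ℕ => (nest M (D.wts l) M : ℝ) / M ^ dg (D.wts l) := by
    funext M
    rw [baf_mon hL hU l hl hf M t0, hdg]
  rw [e] at h1
  have h3 := tendsto_nhds_unique h1 h2
  rw [hdg] at h3
  have hne : ((Fintype.card D.X).factorial : ℝ) ≠ 0 := by positivity
  have h4 := (div_left_inj' hne).1 h3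
  exact_mod_cast h4

/-- **Counting formula.** -/
theorem baf_numExts {N : ℕ} (E : Enm T N) (hL : ∀ i, ∃ t, D.sL i t = true)
    (hU : ∀ j, ∃ t, D.sU j t = true) (t0 : T)
    (hdg : ∀ i, dg (D.wts (E.perm i)) = Fintype.card D.X) (W : Set (LinOrd T)) :
    numExts D.X D.inl W = wsum E (fun i => lastC (D.wts (E.perm i))) W := by
  classical
  unfold numExts wsum
  have := Fintype.ofFinite (LinOrd T)
  rw [Set.ncard_eq_toFinset_card _ (Set.toFinite _),
    Finset.card_eq_sum_card_fiberwise (f := fun L => L.restrict D.inl) (t := Finset.univ)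
      (fun _ _ => Finset.mem_coe.2 (Finset.mem_univ _))]
  rw [← Function.Bijective.sum_comp E.bij]
  refine Finset.sum_congr rfl fun i _ => ?_
  split_ifs with hi
  · change _ = lastC (D.wts (E.perm i))
    rw [← baf_eP hL hU (E.perm i) (E.nodup i) (E.full i) t0 (hdg i)]
    unfold eP
    rw [Set.ncard_eq_toFinset_card _ (Set.toFinite _)]
    congr 1
    ext L
    simp only [Finset.mem_filter, Set.Finite.mem_toFinset, Set.mem_ofPred_eq]
    constructor
    · rintro ⟨⟨h1, h2⟩, h3⟩
      refine ⟨h1, fun s t => ?_⟩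
      have := congrFun (congrFun (congrArg Subtype.val h3) s) t
      exact Iff.of_eq this
    · rintro ⟨h1, h2⟩
      have h3 : L.restrict D.inl = ordL (E.perm i) (E.full i) := by
        apply Subtype.ext
        funext s t
        exact propext (h2 s t)
      exact ⟨⟨h1, by rw [h3]; exact hi⟩, h3⟩
  · rw [Finset.card_eq_zero, Finset.filter_eq_empty_iff]
    intro L hL' he
    rw [Set.Finite.mem_toFinset] at hL'
    apply hi
    rw [← show L.restrict D.inl = E.ord i from he]
    exact hL'.2

/-- The inequality which a universally correlated pair satisfies for such a poset. -/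
theorem baf_ineq {N : ℕ} (E : Enm T N) (hL : ∀ i, ∃ t, D.sL i t = true)
    (hU : ∀ j, ∃ t, D.sU j t = true) (t0 : T)
    (hdg : ∀ i, dg (D.wts (E.perm i)) = Fintype.card D.X) {U V : Set (LinOrd T)}
    (hUV : UnivCorr U V) :
    wsum E (fun i => lastC (D.wts (E.perm i))) (U \ V)
      * wsum E (fun i => lastC (D.wts (E.perm i))) (V \ U)
      ≤ wsum E (fun i => lastC (D.wts (E.perm i))) (U ∩ V)
      * wsum E (fun i => lastC (D.wts (E.perm i))) (U ∪ V)ᶜ := by
  have key := product_of_pr _ U V (hUV D.X D.inl)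
  rwa [baf_numExts E hL hU t0 hdg, baf_numExts E hL hU t0 hdg, baf_numExts E hL hU t0 hdg,
    baf_numExts E hL hU t0 hdg] at key

end Pool.Agent.H45.Corr
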