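import Mathlib

/-!
# Iterated integrals of `x ^ K (1 - x) ^ L` in a positive basis

`E i j x = x ^ i (1 - x) ^ j / (i! j!)`.  A list `c` of length `n + 1` represents the polynomial
`∑ c i * E i (n - i)`.
-/

open Finset

namespace Pool.Agent.H45.Corr

/-- the basis -/
noncomputable def bE (i j : ℕ) (x : ℝ) : ℝ := x ^ i * (1 - x) ^ j / (i.factorial * j.factorial)

/-- its derivative -/
noncomputable def bD (i j : ℕ) (x : ℝ) : ℝ :=
  (if i = 0 then 0 else bE (i - 1) j x) - (if j = 0 then 0 else bE i (j - 1) x)

theorem bE_deriv (i j : ℕ) (x : ℝ) : HasDerivAt (bE i j) (bD i j x) x := by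
  have h1 : HasDerivAt (fun x : ℝ => x ^ i) (i * x ^ (i - 1)) x := hasDerivAt_pow i x
  have h2 : HasDerivAt (fun x : ℝ => (1 - x) ^ j) (j * (1 - x) ^ (j - 1) * (-1)) x := by
    have := ((hasDerivAt_id x).const_sub 1).fun_pow j
    simpa using this
  have h3 := (h1.mul h2).div_const ((i.factorial : ℝ) * j.factorial)
  have h4 : bD i j x = (i * x ^ (i - 1) * (1 - x) ^ j + x ^ i * (j * (1 - x) ^ (j - 1) * (-1)))
      / ((i.factorial : ℝ) * j.factorial) := by
    unfold bD bE
    rcases i with _ | i <;> rcases j with _ | j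
    · simp
    · simp [Nat.factorial_succ]; field_simp
    · simp [Nat.factorial_succ]; field_simp
    · simp [Nat.factorial_succ]; field_simp
      ring
  rw [h4]
  exact h3

/-- the polynomial with coefficients `c` in degree `n` -/
noncomputable def ev (n : ℕ) (c : ℕ → ℝ) (x : ℝ) : ℝ :=
  ∑ i ∈ range (n + 1), c i * bE i (n - i) x

theorem ev_deriv (n : ℕ) (c C : ℕ → ℝ) (h0 : C 0 = 0) (h1 : ∀ i ≤ n, C (i + 1) = C i + c i)
    (x : ℝ) : HasDerivAt (ev (n + 1) C) (ev n c x) x := by
  have h : HasDerivAt (ev (n + 1) C) (∑ i ∈ range (n + 2), C i * bD i (n + 1 - i) x) x := by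
    unfold ev
    apply HasDerivAt.fun_sum
    intro i _
    exact (bE_deriv i (n + 1 - i) x).const_mul (C i)
  have e : ev n c x = ∑ i ∈ range (n + 2), C i * bD i (n + 1 - i) x := by
    unfold bD
    simp only [mul_sub, Finset.sum_sub_distrib]
    rw [Finset.sum_range_succ' (fun i => C i * if i = 0 then 0 else bE (i - 1) (n + 1 - i) x)
      (n + 1)]
    rw [Finset.sum_range_succ (fun i => C i * if n + 1 - i = 0 then 0 else bE i (n + 1 - i - 1) x)
      (n + 1)]
    simp only [h0, add_zero, Nat.sub_self, if_true, mul_zero]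
    rw [← Finset.sum_sub_distrib]
    unfold ev
    refine Finset.sum_congr rfl fun i hi => ?_
    rw [mem_range] at hi
    have hne : n + 1 - i ≠ 0 := by omega
    have e1 : n + 1 - (i + 1) = n - i := by omega
    have e2 : n + 1 - i - 1 = n - i := by omega
    rw [if_neg (Nat.succ_ne_zero i), if_neg hne, h1 i (by omega), e1, e2, Nat.add_sub_cancel]
    ring
  rw [e]; exact h

theorem ev_zero (n : ℕ) (C : ℕ → ℝ) (h0 : C 0 = 0) : ev n C 0 = 0 := by
  unfold ev
  apply Finset.sum_eq_zero
  intro i _
  rcases i with _ | i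
  · rw [h0]; simp
  · unfold bE; simp

theorem ev_one (n : ℕ) (C : ℕ → ℝ) : ev n C 1 = C n / n.factorial := by
  unfold ev
  rw [Finset.sum_range_succ]
  have : ∑ i ∈ range n, C i * bE i (n - i) 1 = 0 := by
    apply Finset.sum_eq_zero
    intro i hi
    rw [mem_range] at hi
    unfold bE
    have : n - i ≠ 0 := by omega
    simp [this]
  rw [this]
  unfold bE
  simp [div_eq_mul_inv]

/-- multiplication by `x ^ K (1 - x) ^ L` -/
theorem ev_mul (n K L : ℕ) (c C : ℕ → ℝ) (h0 : ∀ i < K, C i = 0)
    (h1 : ∀ i ≤ n, C (i + K) = c i * ((i + 1).ascFactorial K * (n - i + 1).ascFactorial L))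
    (h2 : ∀ i, n + K < i → i ≤ n + K + L → C i = 0) (x : ℝ) :
    ev (n + K + L) C x = x ^ K * (1 - x) ^ L * ev n c x := by
  unfold ev
  have s1 : ∑ i ∈ range (n + K + L + 1), C i * bE i (n + K + L - i) x
      = ∑ i ∈ range (K + (n + 1)), C i * bE i (n + K + L - i) x := by
    have : n + K + L + 1 = (K + (n + 1)) + L := by ring
    rw [this, Finset.sum_range_add, add_eq_left]
    apply Finset.sum_eq_zero
    intro i hi
    rw [mem_range] at hi
    rw [h2 _ (by omega) (by omega)]; ring
  rw [s1, Finset.sum_range_add]
  have s2 : ∑ i ∈ range K, C i * bE i (n + K + L - i) x = 0 := by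
    apply Finset.sum_eq_zero
    intro i hi
    rw [mem_range] at hi
    rw [h0 i hi]; ring
  rw [s2, zero_add, Finset.mul_sum]
  refine Finset.sum_congr rfl fun i hi => ?_
  rw [mem_range] at hi
  have e1 : n + K + L - (K + i) = n - i + L := by omega
  rw [e1, add_comm K i, h1 i (by omega)]
  unfold bE
  have f1 : ((i + K).factorial : ℝ) = i.factorial * (i + 1).ascFactorial K := by
    rw [← Nat.cast_mul, Nat.factorial_mul_ascFactorial]
  have f2 : ((n - i + L).factorial : ℝ) = (n - i).factorial * (n - i + 1).ascFactorial L := by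
    rw [← Nat.cast_mul, Nat.factorial_mul_ascFactorial]
  rw [f1, f2, pow_add, pow_add]
  have g1 : ((i + 1).ascFactorial K : ℝ) ≠ 0 := by
    have := Nat.ascFactorial_pos i K; positivity
  have g2 : ((n - i + 1).ascFactorial L : ℝ) ≠ 0 := by
    have := Nat.ascFactorial_pos (n - i) L; positivity
  field_simp

/-! ### List representation -/

/-- the polynomial represented by a list of coefficients -/
noncomputable def evL (c : List ℕ) (x : ℝ) : ℝ := ev (c.length - 1) (fun i => (c.getD i 0 : ℕ)) x

/-- prefix sums starting from `s` -/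
def scan : ℕ → List ℕ → List ℕ
  | s, [] => [s]
  | s, a :: l => s :: scan (s + a) l

theorem scan_length (s : ℕ) (l : List ℕ) : (scan s l).length = l.length + 1 := by
  induction l generalizing s with
  | nil => rfl
  | cons a l ih => simp [scan, ih]

theorem scan_zero (s : ℕ) (l : List ℕ) : (scan s l).getD 0 0 = s := by
  cases l <;> simp [scan]

theorem scan_succ (s : ℕ) (l : List ℕ) (i : ℕ) (hi : i < l.length) :
    (scan s l).getD (i + 1) 0 = (scan s l).getD i 0 + l.getD i 0 := by
  induction l generalizing s i with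
  | nil => simp at hi
  | cons a l ih =>
    rcases i with _ | i
    · simp only [scan, List.getD_cons_succ, List.getD_cons_zero, scan_zero]
    · simp only [scan, List.getD_cons_succ]
      exact ih _ _ (by simpa using hi)

/-- integration -/
def intL (c : List ℕ) : List ℕ := scan 0 c

theorem intL_deriv (c : List ℕ) (hc : c ≠ []) (x : ℝ) :
    HasDerivAt (evL (intL c)) (evL c x) x := by
  have hl : 0 < c.length := List.length_pos_iff.2 hc
  have e : (intL c).length - 1 = (c.length - 1) + 1 := by
    unfold intL; rw [scan_length]; omega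
  unfold evL
  rw [e]
  apply ev_deriv
  · unfold intL; rw [scan_zero]; simp
  · intro i hi
    unfold intL
    rw [scan_succ 0 c i (by omega)]
    push_cast; rfl

theorem intL_zero (c : List ℕ) : evL (intL c) 0 = 0 := by
  unfold evL
  apply ev_zero
  unfold intL; rw [scan_zero]; simp

/-- multiplication by `x ^ K (1 - x) ^ L` (without the padding); `j` is the complementary
index -/
def mulAux (K L : ℕ) : ℕ → List ℕ → List ℕ
  | _, [] => []
  | i, a :: l => a * ((i + 1).ascFactorial K * (l.length + 1).ascFactorial L)
      :: mulAux K L (i + 1) l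

theorem mulAux_length (K L i : ℕ) (l : List ℕ) : (mulAux K L i l).length = l.length := by
  induction l generalizing i with
  | nil => rfl
  | cons a l ih => simp [mulAux, ih]

theorem mulAux_getD (K L i : ℕ) (l : List ℕ) (k : ℕ) (hk : k < l.length) :
    (mulAux K L i l).getD k 0 =
      l.getD k 0 * ((i + k + 1).ascFactorial K * (l.length - 1 - k + 1).ascFactorial L) := by
  induction l generalizing i k with
  | nil => simp at hk
  | cons a l ih =>
    rcases k with _ | k
    · simp [mulAux]
    · simp only [mulAux, List.getD_cons_succ]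
      rw [ih (i + 1) k (by simpa using hk)]
      have h1 : i + 1 + k + 1 = i + (k + 1) + 1 := by ring
      have h2 : (a :: l).length - 1 - (k + 1) = l.length - 1 - k := by simp; omega
      rw [h1, h2]

/-- multiplication by `x ^ K (1 - x) ^ L` -/
def mulL (K L : ℕ) (c : List ℕ) : List ℕ :=
  List.replicate K 0 ++ (mulAux K L 0 c ++ List.replicate L 0)

theorem mulL_length (K L : ℕ) (c : List ℕ) : (mulL K L c).length = c.length + K + L := by
  unfold mulL; simp [mulAux_length]; ring

theorem mulL_ev (K L : ℕ) (c : List ℕ) (hc : c ≠ []) (x : ℝ) :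
    evL (mulL K L c) x = x ^ K * (1 - x) ^ L * evL c x := by
  have hl : 0 < c.length := List.length_pos_iff.2 hc
  have e : (mulL K L c).length - 1 = (c.length - 1) + K + L := by
    rw [mulL_length]; omega
  unfold evL
  rw [e]
  apply ev_mul
  · intro i hi
    unfold mulL
    rw [List.getD_append _ _ _ _ (by simpa using hi)]
    rw [List.getD_replicate]
    simp
    exact hi
  · intro i hi
    unfold mulL
    rw [List.getD_append_right _ _ _ _ (by simp), List.length_replicate, Nat.add_sub_cancel,
      List.getD_append _ _ _ _ (by rw [mulAux_length]; omega), mulAux_getD _ _ _ _ _ (by omega)]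
    push_cast
    rw [zero_add]
  · intro i hi1 hi2
    unfold mulL
    rw [List.getD_append_right _ _ _ _ (by simp; omega), List.length_replicate,
      List.getD_append_right _ _ _ _ (by rw [mulAux_length]; omega), mulAux_length]
    rw [List.getD_replicate]
    simp
    omega

end Pool.Agent.H45.Corr
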