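import Pool.Agent.H45.Corr.Double

/-!
# Posets consisting of a chain and a few elements with prescribed intervals

`T` is a finite set of elements, `Fin n` a chain.  The element `t` is above the first `a t`
elements of the chain and below all elements of the chain from `b t` on; moreover a relation `ρ`
is imposed on `T`.  A linear extension is given by a linear ordering `L ⊇ ρ` of `T` and a map
`p : T → ℕ` (the number of elements of the chain below `t`) which is monotone along `L` and
satisfies `a ≤ p ≤ b`.
-/

open Finset

namespace Pool.Agent.H45.Corr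

/-- The data of such a poset. -/
structure Chn (T : Type) where
  n : ℕ
  a : T → ℕ
  b : T → ℕ
  ρ : T → T → Prop

structure Chn.Ok {T : Type} (D : Chn T) : Prop where
  ab : ∀ t, D.a t ≤ D.b t
  bn : ∀ t, D.b t ≤ D.n
  irr : ∀ t, ¬ D.ρ t t
  tr : ∀ s t u, D.ρ s t → D.ρ t u → D.ρ s u
  am : ∀ s t, D.ρ s t → D.a s ≤ D.a t
  bm : ∀ s t, D.ρ s t → D.b s ≤ D.b t

/-- The ground set of the poset. -/
def CP {T : Type} (D : Chn T) (_ : D.Ok) : Type := Fin D.n ⊕ T

/-- the order relation -/
def CP.rel {T : Type} (D : Chn T) : Fin D.n ⊕ T → Fin D.n ⊕ T → Prop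
  | Sum.inl i, Sum.inl j => i ≤ j
  | Sum.inl i, Sum.inr t => (i : ℕ) < D.a t
  | Sum.inr t, Sum.inl i => D.b t ≤ (i : ℕ)
  | Sum.inr s, Sum.inr t => s = t ∨ D.ρ s t ∨ D.b s < D.a t

instance {T : Type} (D : Chn T) (h : D.Ok) : PartialOrder (CP D h) where
  le := CP.rel D
  le_refl x := by
    rcases x with i | t
    · exact le_refl i
    · exact Or.inl rfl
  le_trans x y z h1 h2 := by
    have ab := h.ab; have bn := h.bn
    rcases x with i | s <;> rcases y with j | t <;> rcases z with k | u <;>
      simp only [CP.rel] at *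
    · exact le_trans h1 h2
    · exact lt_of_le_of_lt h1 h2
    · have := ab t; exact Fin.le_def.2 (by omega)
    · rcases h2 with rfl | h2 | h2
      · exact h1
      · have := h.am _ _ h2; omega
      · have := ab t; omega
    · have := Fin.le_def.1 h2; omega
    · right; right; omega
    · rcases h1 with rfl | h1 | h1
      · exact h2
      · have := h.bm _ _ h1; omega
      · have := ab t; omega
    · rcases h1 with rfl | h1 | h1
      · exact h2
      · rcases h2 with rfl | h2 | h2
        · exact Or.inr (Or.inl h1)
        · exact Or.inr (Or.inl (h.tr _ _ _ h1 h2))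
        · have := h.bm _ _ h1; right; right; omega
      · rcases h2 with rfl | h2 | h2
        · exact Or.inr (Or.inr h1)
        · have := h.am _ _ h2; right; right; omega
        · have := ab t; right; right; omega
  le_antisymm x y h1 h2 := by
    have ab := h.ab; have bn := h.bn
    rcases x with i | s <;> rcases y with j | t <;> simp only [CP.rel] at *
    · exact congrArg Sum.inl (le_antisymm h1 h2)
    · have := ab t; omega
    · have := ab s; omega
    · congr 1
      rcases h1 with h1 | h1 | h1
      · exact h1
      · rcases h2 with h2 | h2 | h2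
        · exact h2.symm
        · exact (h.irr _ (h.tr _ _ _ h1 h2)).elim
        · have := h.am _ _ h1; have := h.bm _ _ h1; have := ab s; have := ab t; omega
      · rcases h2 with h2 | h2 | h2
        · exact h2.symm
        · have := h.am _ _ h2; have := h.bm _ _ h2; have := ab s; have := ab t; omega
        · have := ab s; have := ab t; omega

instance {T : Type} [Finite T] (D : Chn T) (h : D.Ok) : Finite (CP D h) := by
  unfold CP; infer_instance

/-- the inclusion of `T` -/
def CP.inr {T : Type} (D : Chn T) (h : D.Ok) : T ↪ CP D h :=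
  ⟨fun t => (Sum.inr t : Fin D.n ⊕ T), fun _ _ h => Sum.inr.inj h⟩

/-- the inclusion of the chain -/
def CP.inl {T : Type} (D : Chn T) (h : D.Ok) (i : Fin D.n) : CP D h := (Sum.inl i : Fin D.n ⊕ T)

theorem CP.le_def {T : Type} {D : Chn T} {h : D.Ok} {x y : CP D h} :
    x ≤ y ↔ CP.rel D x y := Iff.rfl

/-- an initial segment of `Fin n` is determined by its cardinality -/
theorem initial_card {n : ℕ} (S : Finset (Fin n)) (hS : ∀ i j, i ≤ j → j ∈ S → i ∈ S) (i : Fin n) :
    i ∈ S ↔ (i : ℕ) < S.card := by
  constructor
  · intro hi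
    have h1 : Finset.Iic i ⊆ S := fun j hj => hS j i (Finset.mem_Iic.1 hj) hi
    have h2 := Finset.card_le_card h1
    rw [Fin.card_Iic] at h2
    omega
  · intro hi
    by_contra hcon
    have h1 : S ⊆ Finset.Iio i := fun j hj => by
      rw [Finset.mem_Iio]
      by_contra hji
      exact hcon (hS i j (not_lt.1 hji) hj)
    have h2 := Finset.card_le_card h1
    rw [Fin.card_Iio] at h2
    omega

section Main

variable {T : Type} (D : Chn T) (h : D.Ok)

/-- the number of elements of the chain below `t` -/
noncomputable def posn (L : LinOrd (CP D h)) (t : T) : ℕ := by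
  classical exact (Finset.univ.filter (fun i : Fin D.n => L.1 (CP.inl D h i) (CP.inr D h t))).card

variable {D h}

theorem lin_asymm {α : Type} (L : LinOrd α) {s t : α} (h1 : L.1 s t) (h2 : L.1 t s) : False :=
  L.2.irrefl s (L.2.trans s t s h1 h2)

theorem lin_tri {α : Type} (L : LinOrd α) {s t : α} (hne : s ≠ t) (h1 : ¬ L.1 s t) : L.1 t s := by
  by_contra h2
  exact hne (L.2.trichotomous s t h1 h2)

theorem inl_lt {L : LinOrd (CP D h)} (hL : L ∈ linExts (CP D h)) {i j : Fin D.n} (hij : i < j) :
    L.1 (CP.inl D h i) (CP.inl D h j) := by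
  refine hL _ _ (lt_of_le_of_ne ?_ ?_)
  · exact CP.le_def.2 hij.le
  · intro he; exact hij.ne (Sum.inl.inj he)

theorem posn_iff {L : LinOrd (CP D h)} (hL : L ∈ linExts (CP D h)) (i : Fin D.n) (t : T) :
    L.1 (CP.inl D h i) (CP.inr D h t) ↔ (i : ℕ) < posn D h L t := by
  classical
  have := initial_card (Finset.univ.filter
    (fun i : Fin D.n => L.1 (CP.inl D h i) (CP.inr D h t))) ?_ i
  · rw [Finset.mem_filter] at this
    simp only [Finset.mem_univ, true_and] at this
    rw [this]
    unfold posn
    exact Iff.rfl
  · intro i j hij hj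
    simp only [Finset.mem_filter, Finset.mem_univ, true_and] at hj ⊢
    rcases hij.lt_or_eq with h1 | h1
    · exact L.2.trans _ _ _ (inl_lt hL h1) hj
    · rw [h1]; exact hj

theorem posn_le (L : LinOrd (CP D h)) (t : T) : posn D h L t ≤ D.n := by
  classical
  unfold posn
  exact (Finset.card_le_univ _).trans (by simp)

/-- The pairs (linear ordering of `T`, position function) which describe linear extensions. -/
def Pairs (D : Chn T) (W : Set (LinOrd T)) : Set (LinOrd T × (T → ℕ)) :=
  {q | q.1 ∈ W ∧ (∀ s t, D.ρ s t → q.1.1 s t) ∧ (∀ t, D.a t ≤ q.2 t ∧ q.2 t ≤ D.b t) ∧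
    ∀ s t, q.1.1 s t → q.2 s ≤ q.2 t}

/-- the linear extension given by a pair -/
def glueRel (D : Chn T) (L : LinOrd T) (p : T → ℕ) : Fin D.n ⊕ T → Fin D.n ⊕ T → Prop
  | Sum.inl i, Sum.inl j => i < j
  | Sum.inl i, Sum.inr t => (i : ℕ) < p t
  | Sum.inr t, Sum.inl i => p t ≤ (i : ℕ)
  | Sum.inr s, Sum.inr t => L.1 s t

theorem glue_sto {L : LinOrd T} {p : T → ℕ} (hp : ∀ s t, L.1 s t → p s ≤ p t) :
    IsStrictTotalOrder (Fin D.n ⊕ T) (glueRel D L p) where
  trichotomous x y h1 h2 := by
    rcases x with i | s <;> rcases y with j | t <;> simp only [glueRel] at *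
    · congr 1; omega
    · omega
    · omega
    · congr 1; exact L.2.trichotomous _ _ h1 h2
  irrefl x := by
    rcases x with i | s <;> simp only [glueRel]
    · exact lt_irrefl _
    · exact L.2.irrefl _
  trans x y z h1 h2 := by
    rcases x with i | s <;> rcases y with j | t <;> rcases z with k | u <;>
      simp only [glueRel] at *
    · omega
    · omega
    · omega
    · have := hp _ _ h2; omega
    · omega
    · by_contra hcon
      rcases eq_or_ne s u with rfl | hne
      · omega
      · have := hp _ _ (lin_tri L hne hcon); omega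
    · have := hp _ _ h1; omega
    · exact L.2.trans _ _ _ h1 h2

theorem numExts_pairs [Finite T] (W : Set (LinOrd T)) :
    numExts (CP D h) (CP.inr D h) W = (Pairs D W).ncard := by
  classical
  unfold numExts
  refine Set.ncard_congr (fun L _ => (L.restrict (CP.inr D h), posn D h L)) ?_ ?_ ?_
  · rintro L ⟨hL, hW⟩
    refine ⟨hW, fun s t hst => ?_, fun t => ⟨?_, ?_⟩, fun s t hst => ?_⟩
    · refine hL _ _ (lt_of_le_of_ne ?_ ?_)
      · exact CP.le_def.2 (Or.inr (Or.inl hst))
      · intro he
        have : s = t := Sum.inr.inj he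
        subst this; exact h.irr _ hst
    · by_contra hcon
      push Not at hcon
      dsimp only at hcon
      have hn : posn D h L t < D.n := lt_of_lt_of_le hcon ((h.ab t).trans (h.bn t))
      have h1 := (posn_iff hL ⟨posn D h L t, hn⟩ t).1 ?_
      · simp at h1
      · refine hL _ _ (lt_of_le_of_ne ?_ ?_)
        · exact CP.le_def.2 hcon
        · intro he; exact absurd he (by simp [CP.inl, CP.inr])
    · by_contra hcon
      push Not at hcon
      dsimp only at hcon
      have hn : D.b t < D.n := lt_of_lt_of_le hcon (posn_le L t)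
      have h1 := (posn_iff hL ⟨D.b t, hn⟩ t).2 hcon
      refine lin_asymm L h1 (hL _ _ (lt_of_le_of_ne ?_ ?_))
      · exact CP.le_def.2 (le_refl (D.b t))
      · intro he; exact absurd he (by simp [CP.inl, CP.inr])
    · by_contra hcon
      push Not at hcon
      dsimp only at hcon
      have hn : posn D h L t < D.n := lt_of_lt_of_le hcon (posn_le L s)
      have h1 := (posn_iff hL ⟨posn D h L t, hn⟩ s).2 hcon
      have h2 := L.2.trans _ _ _ h1 hst
      have h3 := (posn_iff hL ⟨posn D h L t, hn⟩ t).1 h2
      simp at h3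
  · rintro L L' ⟨hL, _⟩ ⟨hL', _⟩ he
    rw [Prod.mk.injEq] at he
    obtain ⟨e1, e2⟩ := he
    have key : ∀ (i : Fin D.n) (t : T), L.1 (CP.inl D h i) (CP.inr D h t) ↔
        L'.1 (CP.inl D h i) (CP.inr D h t) := fun i t => by
      rw [posn_iff hL, posn_iff hL', e2]
    apply Subtype.ext
    funext x y
    rw [eq_iff_iff]
    rcases x with i | s <;> rcases y with j | t
    · change L.1 (CP.inl D h i) (CP.inl D h j) ↔ L'.1 (CP.inl D h i) (CP.inl D h j)
      rcases lt_trichotomy i j with h1 | h1 | h1
      · exact ⟨fun _ => inl_lt hL' h1, fun _ => inl_lt hL h1⟩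
      · subst h1; exact ⟨fun h2 => (L.2.irrefl _ h2).elim, fun h2 => (L'.2.irrefl _ h2).elim⟩
      · exact ⟨fun h2 => (lin_asymm L h2 (inl_lt hL h1)).elim,
          fun h2 => (lin_asymm L' h2 (inl_lt hL' h1)).elim⟩
    · exact key i t
    · change L.1 (CP.inr D h s) (CP.inl D h j) ↔ L'.1 (CP.inr D h s) (CP.inl D h j)
      have hne : CP.inl D h j ≠ CP.inr D h s := by simp [CP.inl, CP.inr]
      constructor
      · intro h1
        exact lin_tri L' hne (fun h2 => lin_asymm L h1 ((key j s).2 h2))
      · intro h1
        exact lin_tri L hne (fun h2 => lin_asymm L' h1 ((key j s).1 h2))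
    · have := congrFun (congrFun (congrArg Subtype.val e1) s) t
      exact this ▸ Iff.rfl
  · rintro ⟨L, p⟩ ⟨h1, h2, h3, h4⟩
    dsimp only at h1 h2 h3 h4
    refine ⟨⟨glueRel D L p, glue_sto h4⟩, ⟨?_, ?_⟩, ?_⟩
    · intro x y hxy
      have hle := CP.le_def.1 hxy.le
      have hne := hxy.ne
      rcases x with i | s <;> rcases y with j | t
      · exact lt_of_le_of_ne hle (fun he => hne (congrArg Sum.inl he))
      · have := h3 t; simp only [CP.rel] at hle; simp only [glueRel]; omega
      · have := h3 s; simp only [CP.rel] at hle; simp only [glueRel]; omega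
      · have hne' : s ≠ t := fun he => hne (congrArg Sum.inr he)
        simp only [CP.rel] at hle
        simp only [glueRel]
        rcases hle with h5 | h5 | h5
        · exact (hne' h5).elim
        · exact h2 _ _ h5
        · by_contra hcon
          have := h4 _ _ (lin_tri L hne' hcon)
          have := h3 s; have := h3 t; omega
    · exact h1
    · have : ∀ t, posn D h ⟨glueRel D L p, glue_sto h4⟩ t = p t := by
        intro t
        have hpn : p t ≤ D.n := (h3 t).2.trans (h.bn t)
        unfold posn
        have : (Finset.univ.filter (fun i : Fin D.n =>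
            (⟨glueRel D L p, glue_sto h4⟩ : LinOrd (CP D h)).1 (CP.inl D h i) (CP.inr D h t)))
            = Finset.univ.filter (fun i : Fin D.n => (i : ℕ) < p t) := by
          apply Finset.filter_congr
          intro i _
          exact Iff.rfl
        rw [this, Fin.card_filter_val_lt]
        exact min_eq_right hpn
      rw [Prod.mk.injEq]
      exact ⟨rfl, funext this⟩

end Main

end Pool.Agent.H45.Corr
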