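import Pool.Agent.H45.Corr.Chain

/-!
# Counting the linear extensions of chain posets
-/

open Finset

namespace Pool.Agent.H45.Corr

/-- `f s + f (s + 1) + ... + f (s + m - 1)` -/
def sumR (f : ℕ → ℕ) : ℕ → ℕ → ℕ
  | _, 0 => 0
  | s, (m + 1) => f s + sumR f (s + 1) m

theorem sumR_eq (f : ℕ → ℕ) (s m : ℕ) : sumR f s m = ∑ v ∈ Ico s (s + m), f v := by
  induction m generalizing s with
  | zero => simp [sumR]
  | succ m ih =>
    rw [sumR, ih, Finset.sum_eq_sum_Ico_succ_bot (by omega : s < s + (m + 1))]
    congr 2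
    congr 1
    omega

/-- Number of nondecreasing sequences `v` with `lo ≤ v` and `a t ≤ v t ≤ b t` for `t` in the
list. -/
def cntL {T : Type} (a b : T → ℕ) : List T → ℕ → ℕ
  | [], _ => 1
  | t :: l, lo => sumR (cntL a b l) (max lo (a t)) (b t + 1 - max lo (a t))

section

variable {T : Type} [DecidableEq T] (a b : T → ℕ)

/-- position functions on a list -/
def posSet (l : List T) (lo : ℕ) : Set (T → ℕ) :=
  {p | (∀ t, t ∉ l → p t = 0) ∧ (∀ t ∈ l, a t ≤ p t ∧ p t ≤ b t ∧ lo ≤ p t) ∧
    l.Pairwise (fun s t => p s ≤ p t)}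

theorem posSet_cons {t : T} {l : List T} (ht : t ∉ l) (lo v : ℕ)
    (hv : max lo (a t) ≤ v ∧ v < b t + 1) :
    {p | p ∈ posSet a b (t :: l) lo ∧ p t = v}
      = (fun p => Function.update p t v) '' posSet a b l v := by
  ext p
  simp only [posSet, Set.mem_ofPred_eq, Set.mem_image]
  constructor
  · rintro ⟨⟨h1, h2, h3⟩, h4⟩
    rw [List.pairwise_cons] at h3
    refine ⟨Function.update p t 0, ⟨fun s hs => ?_, fun s hs => ?_, ?_⟩, ?_⟩
    · rcases eq_or_ne s t with rfl | hst
      · simp
      · rw [Function.update_of_ne hst]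
        exact h1 s (by simp [hst, hs])
    · have hst : s ≠ t := fun he => ht (he ▸ hs)
      rw [Function.update_of_ne hst]
      have := h2 s (List.mem_cons_of_mem _ hs)
      have := h3.1 s hs
      omega
    · refine (List.Pairwise.imp_of_mem ?_ h3.2)
      intro s u hs hu hsu
      have hst : s ≠ t := fun he => ht (he ▸ hs)
      have hut : u ≠ t := fun he => ht (he ▸ hu)
      rwa [Function.update_of_ne hst, Function.update_of_ne hut]
    · rw [Function.update_idem, ← h4, Function.update_eq_self]
  · rintro ⟨q, ⟨h1, h2, h3⟩, rfl⟩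
    refine ⟨⟨fun s hs => ?_, fun s hs => ?_, ?_⟩, ?_⟩
    · rw [List.mem_cons, not_or] at hs
      rw [Function.update_of_ne hs.1]; exact h1 s hs.2
    · rcases List.mem_cons.1 hs with rfl | hs
      · rw [Function.update_self]; omega
      · have hst : s ≠ t := fun he => ht (he ▸ hs)
        rw [Function.update_of_ne hst]
        have := h2 s hs; omega
    · rw [List.pairwise_cons]
      refine ⟨fun s hs => ?_, ?_⟩
      · have hst : s ≠ t := fun he => ht (he ▸ hs)
        rw [Function.update_self, Function.update_of_ne hst]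
        exact (h2 s hs).2.2
      · refine (List.Pairwise.imp_of_mem ?_ h3)
        intro s u hs hu hsu
        have hst : s ≠ t := fun he => ht (he ▸ hs)
        have hut : u ≠ t := fun he => ht (he ▸ hu)
        rwa [Function.update_of_ne hst, Function.update_of_ne hut]
    · simp

theorem posSet_finite [Finite T] (l : List T) (lo : ℕ) : (posSet a b l lo).Finite := by
  classical
  have := Fintype.ofFinite T
  refine (Set.finite_Icc (fun _ : T => 0) (fun t => b t)).subset ?_
  rintro p ⟨h1, h2, _⟩
  refine ⟨fun t => Nat.zero_le _, fun t => ?_⟩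
  by_cases ht : t ∈ l
  · exact (h2 t ht).2.1
  · rw [h1 t ht]; exact Nat.zero_le _

theorem posSet_ncard [Finite T] (l : List T) (hl : l.Nodup) (lo : ℕ) :
    (posSet a b l lo).ncard = cntL a b l lo := by
  classical
  induction l generalizing lo with
  | nil =>
    have : posSet a b [] lo = {fun _ => 0} := by
      ext p
      simp only [posSet, Set.mem_ofPred_eq, Set.mem_singleton_iff]
      constructor
      · rintro ⟨h1, _, _⟩
        exact funext fun t => h1 t (by simp)
      · rintro rfl
        exact ⟨fun _ _ => rfl, fun t ht => absurd ht (by simp), List.Pairwise.nil⟩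
    rw [this, Set.ncard_singleton]; rfl
  | cons t l ih =>
    rw [List.nodup_cons] at hl
    have ih' := ih hl.2
    unfold cntL
    rw [sumR_eq]
    have hfin := posSet_finite a b (t :: l) lo
    rw [Set.ncard_eq_toFinset_card _ hfin]
    set m := max lo (a t) with hm
    rw [Finset.card_eq_sum_card_fiberwise (f := fun p => p t)
      (t := Ico m (m + (b t + 1 - m)))]
    · refine Finset.sum_congr rfl fun v hv => ?_
      rw [Finset.mem_Ico] at hv
      have e := posSet_cons a b hl.1 lo v ⟨hv.1, by omega⟩
      have hinj : Set.InjOn (fun p : T → ℕ => Function.update p t v) (posSet a b l v) := by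
        intro p hp q hq hpq
        funext s
        rcases eq_or_ne s t with rfl | hst
        · rw [hp.1 _ hl.1, hq.1 _ hl.1]
        · have := congrFun hpq s
          simpa [Function.update_of_ne hst] using this
      rw [← ih' v, ← hinj.ncard_image, ← e,
        Set.ncard_eq_toFinset_card _ (hfin.subset fun p hp => hp.1)]
      congr 1
      ext p
      simp only [Set.Finite.mem_toFinset, Finset.mem_filter, Set.mem_ofPred_eq]
    · intro p hp
      rw [Finset.mem_coe, Set.Finite.mem_toFinset] at hp
      have := hp.2.1 t (by simp)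
      rw [Finset.coe_Ico, Set.mem_Ico]
      dsimp only
      omega

end

/-- The ordering given by a list. -/
def listRel {T : Type} [DecidableEq T] (l : List T) (s t : T) : Prop := l.idxOf s < l.idxOf t

instance {T : Type} [DecidableEq T] (l : List T) (s t : T) : Decidable (listRel l s t) := by
  unfold listRel; infer_instance

def ordL {T : Type} [DecidableEq T] (l : List T) (hl : ∀ t, t ∈ l) : LinOrd T :=
  ⟨listRel l,
    { trichotomous := fun s t h1 h2 => by
        unfold listRel at h1 h2
        exact (List.idxOf_inj (hl s)).1 (by omega)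
      irrefl := fun s => by unfold listRel; omega
      trans := fun s t u h1 h2 => by unfold listRel at *; omega }⟩

/-- An enumeration of the linear orderings of `T`. -/
structure Enm (T : Type) [DecidableEq T] (N : ℕ) where
  perm : Fin N → List T
  nodup : ∀ i, (perm i).Nodup
  full : ∀ i t, t ∈ perm i
  bij : Function.Bijective (fun i => ordL (perm i) (full i))

variable {T : Type} [DecidableEq T] [Finite T] {N : ℕ}

/-- the `i`-th linear ordering -/
def Enm.ord (E : Enm T N) (i : Fin N) : LinOrd T := ordL (E.perm i) (E.full i)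

omit [Finite T] in
theorem pairwise_listRel {l : List T} (hl : l.Nodup) (hf : ∀ t, t ∈ l) (p : T → ℕ) :
    l.Pairwise (fun s t => p s ≤ p t) ↔ ∀ s t, listRel l s t → p s ≤ p t := by
  rw [List.pairwise_iff_getElem]
  constructor
  · intro h s t hst
    have hs := List.idxOf_lt_length_of_mem (hf s)
    have ht := List.idxOf_lt_length_of_mem (hf t)
    have := h _ _ hs ht hst
    rwa [List.getElem_idxOf, List.getElem_idxOf] at this
  · intro h i j hi hj hij
    apply h
    unfold listRel
    rw [hl.idxOf_getElem, hl.idxOf_getElem]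
    exact hij

open Classical in
/-- **Counting formula.** -/
theorem numExts_sum (E : Enm T N) (D : Chn T) (h : D.Ok) (W : Set (LinOrd T)) :
    numExts (CP D h) (CP.inr D h) W
      = ∑ i : Fin N, if E.ord i ∈ W ∧ ∀ s t, D.ρ s t → listRel (E.perm i) s t then
          cntL D.a D.b (E.perm i) 0 else 0 := by
  rw [numExts_pairs]
  have hfinP : (Pairs D W).Finite := by
    have := Fintype.ofFinite T
    refine ((Set.finite_univ (α := LinOrd T)).prod
      (Set.finite_Icc (fun _ : T => 0) (fun t => D.b t))).subset ?_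
    rintro ⟨L, p⟩ ⟨_, _, h3, _⟩
    exact ⟨Set.mem_univ _, fun t => Nat.zero_le _, fun t => (h3 t).2⟩
  have := Fintype.ofFinite (LinOrd T)
  rw [Set.ncard_eq_toFinset_card _ hfinP,
    Finset.card_eq_sum_card_fiberwise (f := fun q => q.1) (t := Finset.univ)
      (fun _ _ => Finset.mem_coe.2 (Finset.mem_univ _))]
  rw [← Function.Bijective.sum_comp E.bij]
  refine Finset.sum_congr rfl fun i _ => ?_
  split_ifs with hi
  · rw [← posSet_ncard D.a D.b (E.perm i) (E.nodup i) 0]
    rw [← Set.ncard_coe_finset]
    refine Set.ncard_congr (fun q _ => q.2) ?_ ?_ ?_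
    · rintro ⟨L, p⟩ hq
      simp only [Finset.coe_filter, Set.Finite.mem_toFinset, Set.mem_ofPred_eq] at hq
      obtain ⟨⟨h1, h2, h3, h4⟩, h5⟩ := hq
      dsimp only at h1 h2 h3 h4 h5
      refine ⟨fun t ht => (ht (E.full i t)).elim, fun t _ => ⟨(h3 t).1, (h3 t).2,
        Nat.zero_le _⟩, ?_⟩
      rw [pairwise_listRel (E.nodup i) (E.full i)]
      intro s t hst
      apply h4
      rw [h5]; exact hst
    · rintro ⟨L, p⟩ ⟨L', p'⟩ hq hq' he
      simp only [Finset.coe_filter, Set.Finite.mem_toFinset, Set.mem_ofPred_eq] at hq hq'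
      rw [Prod.mk.injEq]
      exact ⟨hq.2.trans hq'.2.symm, he⟩
    · rintro p ⟨_, h2, h3⟩
      refine ⟨(E.ord i, p), ?_, rfl⟩
      simp only [Finset.coe_filter, Set.Finite.mem_toFinset, Set.mem_ofPred_eq]
      rw [pairwise_listRel (E.nodup i) (E.full i)] at h3
      exact ⟨⟨hi.1, hi.2, fun t => ⟨(h2 t (E.full i t)).1, (h2 t (E.full i t)).2.1⟩, h3⟩, rfl⟩
  · rw [Finset.card_eq_zero, Finset.filter_eq_empty_iff]
    rintro ⟨L, p⟩ hq he
    rw [Set.Finite.mem_toFinset] at hq
    obtain ⟨h1, h2, _, _⟩ := hq
    dsimp only at h1 h2 he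
    subst he
    exact hi ⟨h1, h2⟩

/-- Universal correlation in product form for a given poset. -/
theorem product_of_pr {X : Type} [Finite X] [PartialOrder X] {T : Type} (ι : T ↪ X)
    (U V : Set (LinOrd T)) (h : prExt X ι (U ∩ V) ≥ prExt X ι U * prExt X ι V) :
    numExts X ι (U \ V) * numExts X ι (V \ U)
      ≤ numExts X ι (U ∩ V) * numExts X ι (U ∪ V)ᶜ := by
  set e := (linExts X).ncard with he
  have fin : ∀ S : Set (LinOrd X), S.Finite := fun S => Set.toFinite S
  have add : ∀ W Z : Set (LinOrd T), numExts X ι (W ∩ Z) + numExts X ι (W \ Z) = numExts X ι W := by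
    intro W Z
    unfold numExts
    rw [← Set.ncard_union_eq _ (fin _) (fin _)]
    · congr 1
      ext L
      simp only [Set.mem_union, Set.mem_ofPred_eq, Set.mem_inter_iff, Set.mem_sdiff]
      tauto
    · rw [Set.disjoint_left]
      rintro L ⟨_, h1⟩ ⟨_, h2⟩
      exact h2.2 h1.2
  have hU := add U V
  have hV := add V U
  rw [Set.inter_comm V U] at hV
  have hW := add (Set.univ) U
  have hW2 := add (Uᶜ) V
  have hall : numExts X ι Set.univ = e := by
    unfold numExts; rw [he]; congr 1; ext L; simp
  have e1 : Set.univ ∩ U = U := Set.univ_inter U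
  have e2 : Set.univ \ U = Uᶜ := by ext; simp
  have e3 : Uᶜ ∩ V = V \ U := by ext; simp [and_comm]
  have e4 : Uᶜ \ V = (U ∪ V)ᶜ := by ext; simp
  rw [e1, e2, hall] at hW
  rw [e3, e4] at hW2
  rcases Nat.eq_zero_or_pos e with z | z
  · have : numExts X ι (U \ V) = 0 := by omega
    rw [this]; simp
  have zQ : (0 : ℚ) < e := by exact_mod_cast z
  unfold prExt at h
  rw [← he, ge_iff_le, div_mul_div_comm, div_le_div_iff₀ (by positivity) zQ] at h
  have h2 : (numExts X ι U : ℚ) * numExts X ι V ≤ numExts X ι (U ∩ V) * e := by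
    have : ((numExts X ι U : ℚ) * numExts X ι V) * e ≤ (numExts X ι (U ∩ V) * e) * e := by
      nlinarith
    exact le_of_mul_le_mul_right this zQ
  have h3 : numExts X ι U * numExts X ι V ≤ numExts X ι (U ∩ V) * e := by exact_mod_cast h2
  rw [← hU, ← hV, ← hW, ← hU, ← hW2] at h3
  nlinarith

end Pool.Agent.H45.Corr
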