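import Pool.Agent.H45.Corr.Defs

/-!
# A four functions theorem for the exchange `a = c + clip (b - c)`, `d = b - clip (b - c)`

For an integer `m ≥ 0` let `clip m δ = max 0 (min δ m)`.  If `C, B, A, D` are finite sets of
functions `I → ℤ` such that `c + clip m (b - c) ∈ A` and `b - clip m (b - c) ∈ D` for all
`c ∈ C`, `b ∈ B`, then `|C| |B| ≤ |A| |D|`.
-/

open Finset

namespace Pool.Agent.H45.Corr

theorem two_term {u v w z : ℝ} (hw : 0 ≤ w) (hz : 0 ≤ z) (_hv : 0 ≤ v) (h1 : u ≤ w) (h2 : v ≤ w)
    (h3 : u * v ≤ w * z) : u + v ≤ w + z := by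
  rcases hw.lt_or_eq with h | h
  · have : 0 ≤ (w - u) * (w - v) := mul_nonneg (by linarith) (by linarith)
    have h4 : w * (u + v) ≤ w * (w + z) := by nlinarith
    exact le_of_mul_le_mul_left h4 h
  · subst h; linarith

/-- The one-dimensional theorem. -/
theorem four_one {m : ℤ} (hm : 0 ≤ m) (f g h k : ℤ → ℝ) (hf : ∀ i, 0 ≤ f i) (hg : ∀ i, 0 ≤ g i)
    (hh : ∀ i, 0 ≤ h i) (hk : ∀ i, 0 ≤ k i) (Wf Wg Wh Wk : Finset ℤ)
    (sh : ∀ i, i ∉ Wh → h i = 0) (sk : ∀ i, i ∉ Wk → k i = 0)
    (H : ∀ c b, f c * g b ≤ h (c + clip m (b - c)) * k (b - clip m (b - c))) :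
    (∑ c ∈ Wf, f c) * (∑ b ∈ Wg, g b) ≤ (∑ a ∈ Wh, h a) * (∑ d ∈ Wk, k d) := by
  classical
  have H1 : ∀ c b, b ≤ c → f c * g b ≤ h c * k b := fun c b hbc => by
    have := H c b
    have e : clip m (b - c) = 0 := by unfold clip; omega
    rw [e] at this; simpa using this
  have H2 : ∀ c b, c ≤ b → b ≤ c + m → f c * g b ≤ h b * k c := fun c b h1 h2 => by
    have := H c b
    have e : clip m (b - c) = b - c := by unfold clip; omega
    rw [e] at this
    have e1 : c + (b - c) = b := by ring
    have e2 : b - (b - c) = c := by ring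
    rwa [e1, e2] at this
  have H3 : ∀ c b, c + m ≤ b → f c * g b ≤ h (c + m) * k (b - m) := fun c b h1 => by
    have := H c b
    have e : clip m (b - c) = m := by unfold clip; omega
    rwa [e] at this
  set u : ℤ × ℤ → ℝ := fun p => f p.1 * g p.2 with hu
  set w : ℤ × ℤ → ℝ := fun p => h p.2 * k p.1 with hw
  set π : ℤ × ℤ → ℤ × ℤ := fun p => if p.2 < p.1 then (p.2, p.1) else (p.2 - m, p.1 + m) with hπ
  have u0 : ∀ p, 0 ≤ u p := fun p => mul_nonneg (hf _) (hg _)
  have w0 : ∀ p, 0 ≤ w p := fun p => mul_nonneg (hh _) (hk _)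
  -- facts on bad points
  have bad_cases : ∀ p, w p < u p → p.2 < p.1 ∨ p.1 + m < p.2 := by
    rintro ⟨c, b⟩ hp
    by_contra hcon
    push Not at hcon
    have := H2 c b hcon.1 hcon.2
    simp only [hu, hw] at hp
    linarith
  have P1 : ∀ p, w p < u p → u p ≤ w (π p) := by
    rintro ⟨c, b⟩ hp
    rcases bad_cases _ hp with h1 | h1
    · simp only [hπ, hu, hw] at *
      rw [if_pos h1]
      exact H1 c b h1.le
    · simp only [hπ, hu, hw] at *
      rw [if_neg (by omega)]
      exact H3 c b h1.le
  have P2 : ∀ p, w p < u p → u p * u (π p) ≤ w p * w (π p) := by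
    rintro ⟨c, b⟩ hp
    rcases bad_cases _ hp with h1 | h1
    · simp only [hπ, hu, hw] at *
      rw [if_pos h1]
      have a1 := H1 c c le_rfl
      have a2 := H1 b b le_rfl
      calc f c * g b * (f b * g c) = (f c * g c) * (f b * g b) := by ring
        _ ≤ (h c * k c) * (h b * k b) :=
            mul_le_mul a1 a2 (mul_nonneg (hf _) (hg _)) (mul_nonneg (hh _) (hk _))
        _ = _ := by ring
    · simp only [hπ, hu, hw] at *
      rw [if_neg (by omega)]
      have a1 := H2 c (c + m) (by omega) le_rfl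
      have a2 := H2 (b - m) b (by omega) (by omega)
      calc f c * g b * (f (b - m) * g (c + m)) = (f c * g (c + m)) * (f (b - m) * g b) := by ring
        _ ≤ (h (c + m) * k c) * (h b * k (b - m)) :=
            mul_le_mul a1 a2 (mul_nonneg (hf _) (hg _)) (mul_nonneg (hh _) (hk _))
        _ = _ := by ring
  have P2' : ∀ p, w p < u p → u (π p) < w (π p) := by
    intro p hp
    have h1 := P1 p hp
    have h2 := P2 p hp
    have h3 : 0 < w (π p) := lt_of_le_of_lt (w0 p) (lt_of_lt_of_le hp h1)
    have h4 : 0 < u p := lt_of_le_of_lt (w0 p) hp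
    by_contra hcon
    push Not at hcon
    have : w p * w (π p) < u p * u (π p) := by
      calc w p * w (π p) < u p * w (π p) := mul_lt_mul_of_pos_right hp h3
        _ ≤ u p * u (π p) := mul_le_mul_of_nonneg_left hcon h4.le
    linarith
  have P3 : ∀ p q, w p < u p → w q < u q → π p = π q → p = q := by
    rintro ⟨c, b⟩ ⟨c', b'⟩ hp hq hpq
    -- the mixed case is impossible
    have mixed : ∀ c b c' b' : ℤ, w (c, b) < u (c, b) → w (c', b') < u (c', b') →
        b < c → c' + m < b' → π (c, b) = π (c', b') → False := by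
      intro c b c' b' hp hq h1 h2 hpq
      simp only [hπ] at hpq
      rw [if_pos h1, if_neg (by omega), Prod.mk.injEq] at hpq
      obtain ⟨e1, e2⟩ := hpq
      have eb : b' = b + m := by omega
      have ec : c' = c - m := by omega
      subst eb; subst ec
      have a1 := H2 c (b + m) (by omega) (by omega)
      have a2 := H2 (c - m) b (by omega) (by omega)
      have a3 : (f c * g (b + m)) * (f (c - m) * g b) ≤ (h (b + m) * k c) * (h b * k (c - m)) :=
        mul_le_mul a1 a2 (mul_nonneg (hf _) (hg _)) (mul_nonneg (hh _) (hk _))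
      simp only [hu, hw] at hp hq
      have a4 : (h b * k c) * (h (b + m) * k (c - m)) < (f c * g b) * (f (c - m) * g (b + m)) :=
        mul_lt_mul'' hp hq (mul_nonneg (hh _) (hk _)) (mul_nonneg (hh _) (hk _))
      nlinarith
    rcases bad_cases _ hp with h1 | h1 <;> rcases bad_cases _ hq with h2 | h2
    · simp only [hπ] at hpq h1 h2
      rw [if_pos h1, if_pos h2, Prod.mk.injEq] at hpq
      rw [Prod.mk.injEq]; exact ⟨hpq.2, hpq.1⟩
    · exact (mixed c b c' b' hp hq h1 h2 hpq).elim
    · exact (mixed c' b' c b hq hp h2 h1 hpq.symm).elim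
    · simp only [hπ] at hpq h1 h2
      rw [if_neg (by omega), if_neg (by omega), Prod.mk.injEq] at hpq
      rw [Prod.mk.injEq]; omega
  -- summation
  set F : Finset (ℤ × ℤ) := Wf ×ˢ Wg with hF
  set Bad : Finset (ℤ × ℤ) := F.filter (fun p => w p < u p) with hBad
  have hdisj : Disjoint Bad (Bad.image π) := by
    rw [Finset.disjoint_left]
    rintro q hq hq'
    obtain ⟨p, hp, rfl⟩ := Finset.mem_image.1 hq'
    rw [hBad, Finset.mem_filter] at hp hq
    exact absurd (P2' p hp.2) (not_lt.2 hq.2.le)
  set R : Finset (ℤ × ℤ) := (F \ Bad) \ Bad.image π with hR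
  have hdisj2 : Disjoint (Bad ∪ Bad.image π) R := by
    rw [Finset.disjoint_left]
    rintro q hq hq'
    rw [hR, Finset.mem_sdiff, Finset.mem_sdiff] at hq'
    rcases Finset.mem_union.1 hq with h1 | h1
    · exact hq'.1.2 h1
    · exact hq'.2 h1
  have step1 : ∑ p ∈ F, u p ≤ ∑ p ∈ (Bad ∪ Bad.image π) ∪ R, u p := by
    refine Finset.sum_le_sum_of_subset_of_nonneg ?_ (fun p _ _ => u0 p)
    intro p hp
    by_cases h1 : p ∈ Bad
    · exact Finset.mem_union_left _ (Finset.mem_union_left _ h1)
    · by_cases h2 : p ∈ Bad.image π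
      · exact Finset.mem_union_left _ (Finset.mem_union_right _ h2)
      · exact Finset.mem_union_right _ (Finset.mem_sdiff.2 ⟨Finset.mem_sdiff.2 ⟨hp, h1⟩, h2⟩)
  have hinj : Set.InjOn π Bad := by
    intro p hp q hq hpq
    rw [Finset.mem_coe, hBad, Finset.mem_filter] at hp hq
    exact P3 p q hp.2 hq.2 hpq
  have step2 : ∑ p ∈ (Bad ∪ Bad.image π) ∪ R, u p ≤ ∑ p ∈ (Bad ∪ Bad.image π) ∪ R, w p := by
    rw [Finset.sum_union hdisj2, Finset.sum_union hdisj2, Finset.sum_union hdisj,
      Finset.sum_union hdisj, Finset.sum_image hinj, Finset.sum_image hinj,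
      ← Finset.sum_add_distrib, ← Finset.sum_add_distrib]
    refine add_le_add (Finset.sum_le_sum fun p hp => ?_) (Finset.sum_le_sum fun p hp => ?_)
    · rw [hBad, Finset.mem_filter] at hp
      have h1 := P1 p hp.2
      have h2 := P2 p hp.2
      have h3 := P2' p hp.2
      have := two_term (u := u p) (v := u (π p)) (w := w (π p)) (z := w p) (w0 _) (w0 _) (u0 _)
        h1 h3.le (by linarith)
      linarith
    · rw [hR, Finset.mem_sdiff, Finset.mem_sdiff, hBad, Finset.mem_filter] at hp
      by_contra hcon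
      push Not at hcon
      exact hp.1.2 ⟨hp.1.1, hcon⟩
  have step3 : ∑ p ∈ (Bad ∪ Bad.image π) ∪ R, w p ≤ ∑ p ∈ Wk ×ˢ Wh, w p := by
    rw [← Finset.sum_filter_add_sum_filter_not ((Bad ∪ Bad.image π) ∪ R) (fun p => p ∈ Wk ×ˢ Wh)]
    have z : ∑ p ∈ ((Bad ∪ Bad.image π) ∪ R).filter (fun p => ¬ p ∈ Wk ×ˢ Wh), w p = 0 := by
      refine Finset.sum_eq_zero fun p hp => ?_
      rw [Finset.mem_filter, Finset.mem_product] at hp
      simp only [hw]
      by_cases h1 : p.1 ∈ Wk
      · have h2 : p.2 ∉ Wh := fun h2 => hp.2 ⟨h1, h2⟩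
        rw [sh _ h2]; simp
      · rw [sk _ h1]; simp
    rw [z, add_zero]
    refine Finset.sum_le_sum_of_subset_of_nonneg ?_ (fun p _ _ => w0 p)
    intro p hp
    exact (Finset.mem_filter.1 hp).2
  have e1 : (∑ c ∈ Wf, f c) * (∑ b ∈ Wg, g b) = ∑ p ∈ F, u p := by
    rw [hF, Finset.sum_product, Finset.sum_mul_sum]
  have e2 : (∑ a ∈ Wh, h a) * (∑ d ∈ Wk, k d) = ∑ p ∈ Wk ×ˢ Wh, w p := by
    rw [Finset.sum_product, mul_comm, Finset.sum_mul_sum]
    refine Finset.sum_congr rfl fun i _ => Finset.sum_congr rfl fun j _ => ?_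
    simp only [hw]; ring
  rw [e1, e2]
  linarith

variable {I : Type*}

theorem exchange_aux [Fintype I] [DecidableEq I] {m : ℤ} (hm : 0 ≤ m)
    (C B A D : Finset (I → ℤ))
    (H : ∀ c ∈ C, ∀ b ∈ B, exA m c b ∈ A ∧ exD m c b ∈ D) :
    ∀ (n : ℕ) (J : Finset I), (Finset.univ \ J).card = n → ∀ γ β : I → ℤ,
      (C.filter (fun f => ∀ j ∈ J, f j = γ j)).card * (B.filter (fun f => ∀ j ∈ J, f j = β j)).card
      ≤ (A.filter (fun f => ∀ j ∈ J, f j = exA m γ β j)).card
        * (D.filter (fun f => ∀ j ∈ J, f j = exD m γ β j)).card := by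
  intro n
  induction n with
  | zero =>
    intro J hJ γ β
    have hJ' : J = Finset.univ := by
      rw [Finset.card_eq_zero, Finset.sdiff_eq_empty_iff_subset] at hJ
      exact Finset.eq_univ_of_forall fun i => hJ (Finset.mem_univ i)
    subst hJ'
    rcases (C.filter (fun f => ∀ j ∈ (Finset.univ : Finset I), f j = γ j)).eq_empty_or_nonempty
      with he | ⟨c, hc⟩
    · rw [he]; simp
    rcases (B.filter (fun f => ∀ j ∈ (Finset.univ : Finset I), f j = β j)).eq_empty_or_nonempty
      with he | ⟨b, hb⟩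
    · rw [he]; simp
    have key : ∀ (S : Finset (I → ℤ)) (φ : I → ℤ),
        (S.filter (fun f => ∀ j ∈ (Finset.univ : Finset I), f j = φ j)).card ≤ 1 := by
      intro S φ
      rw [Finset.card_le_one]
      intro f hf f' hf'
      rw [Finset.mem_filter] at hf hf'
      funext i
      rw [hf.2 i (Finset.mem_univ i), hf'.2 i (Finset.mem_univ i)]
    rw [Finset.mem_filter] at hc hb
    have ec : c = γ := funext fun i => hc.2 i (Finset.mem_univ i)
    have eb : b = β := funext fun i => hb.2 i (Finset.mem_univ i)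
    subst ec; subst eb
    obtain ⟨h1, h2⟩ := H c hc.1 b hb.1
    have k1 : 0 < (A.filter (fun f => ∀ j ∈ (Finset.univ : Finset I), f j = exA m c b j)).card :=
      Finset.card_pos.2 ⟨_, Finset.mem_filter.2 ⟨h1, fun j _ => rfl⟩⟩
    have k2 : 0 < (D.filter (fun f => ∀ j ∈ (Finset.univ : Finset I), f j = exD m c b j)).card :=
      Finset.card_pos.2 ⟨_, Finset.mem_filter.2 ⟨h2, fun j _ => rfl⟩⟩
    calc _ ≤ 1 * 1 := Nat.mul_le_mul (key _ _) (key _ _)
      _ ≤ _ := Nat.mul_le_mul k1 k2
  | succ n ih =>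
    intro J hJ γ β
    obtain ⟨i, hi⟩ : (Finset.univ \ J).Nonempty := by
      rw [← Finset.card_pos]; omega
    have hiJ : i ∉ J := (Finset.mem_sdiff.1 hi).2
    have hcard : (Finset.univ \ insert i J).card = n := by
      have : Finset.univ \ insert i J = (Finset.univ \ J).erase i := by
        ext j; simp only [mem_sdiff, mem_univ, true_and, mem_insert, mem_erase]; tauto
      rw [this, Finset.card_erase_of_mem hi, hJ]; rfl
    -- slices
    set sl : Finset (I → ℤ) → (I → ℤ) → ℤ → ℝ := fun S φ t =>
      ((S.filter (fun f => ∀ j ∈ insert i J, f j = Function.update φ i t j)).card : ℝ) with hsl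
    have upd : ∀ (φ : I → ℤ) (t : ℤ) (f : I → ℤ),
        (∀ j ∈ insert i J, f j = Function.update φ i t j) ↔ (∀ j ∈ J, f j = φ j) ∧ f i = t := by
      intro φ t f
      constructor
      · intro h
        refine ⟨fun j hj => ?_, ?_⟩
        · have := h j (Finset.mem_insert_of_mem hj)
          rwa [Function.update_of_ne (by rintro rfl; exact hiJ hj)] at this
        · have := h i (Finset.mem_insert_self _ _)
          rwa [Function.update_self] at this
      · rintro ⟨h1, h2⟩ j hj
        rcases Finset.mem_insert.1 hj with rfl | hj'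
        · rw [Function.update_self]; exact h2
        · rw [Function.update_of_ne (by rintro rfl; exact hiJ hj')]; exact h1 j hj'
    have tot : ∀ (S : Finset (I → ℤ)) (φ : I → ℤ),
        ((S.filter (fun f => ∀ j ∈ J, f j = φ j)).card : ℝ)
          = ∑ t ∈ S.image (fun f => f i), sl S φ t := by
      intro S φ
      rw [Finset.card_eq_sum_card_fiberwise (f := fun f => f i) (t := S.image (fun f => f i))]
      · push_cast
        refine Finset.sum_congr rfl fun t _ => ?_
        simp only [hsl]
        congr 2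
        ext f
        simp only [Finset.mem_filter, upd]
        tauto
      · intro f hf
        rw [Finset.mem_coe, Finset.mem_filter] at hf
        exact Finset.mem_coe.2 (Finset.mem_image_of_mem _ hf.1)
    have zero : ∀ (S : Finset (I → ℤ)) (φ : I → ℤ) (t : ℤ), t ∉ S.image (fun f => f i) →
        sl S φ t = 0 := by
      intro S φ t ht
      simp only [hsl]
      rw [Nat.cast_eq_zero, Finset.card_eq_zero, Finset.filter_eq_empty_iff]
      intro f hf hcon
      rw [upd] at hcon
      exact ht (Finset.mem_image.2 ⟨f, hf, hcon.2⟩)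
    have res := four_one hm (sl C γ) (sl B β) (sl A (exA m γ β)) (sl D (exD m γ β))
      (fun _ => Nat.cast_nonneg _) (fun _ => Nat.cast_nonneg _) (fun _ => Nat.cast_nonneg _)
      (fun _ => Nat.cast_nonneg _) (C.image (fun f => f i)) (B.image (fun f => f i))
      (A.image (fun f => f i)) (D.image (fun f => f i)) (zero _ _) (zero _ _) ?_
    · rw [← tot, ← tot, ← tot, ← tot] at res
      exact_mod_cast res
    · intro c b
      have := ih (insert i J) hcard (Function.update γ i c) (Function.update β i b)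
      have ea : exA m (Function.update γ i c) (Function.update β i b)
          = Function.update (exA m γ β) i (c + clip m (b - c)) := by
        funext j
        rcases eq_or_ne j i with rfl | hji
        · simp [exA]
        · simp [exA, Function.update_of_ne hji]
      have ed : exD m (Function.update γ i c) (Function.update β i b)
          = Function.update (exD m γ β) i (b - clip m (b - c)) := by
        funext j
        rcases eq_or_ne j i with rfl | hji
        · simp [exD]
        · simp [exD, Function.update_of_ne hji]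
      rw [ea, ed] at this
      simp only [hsl]
      exact_mod_cast this

/-- **Exchange inequality** for finite sets of integer vectors. -/
theorem exchange_ncard [Finite I] {m : ℤ} (hm : 0 ≤ m)
    {C B A D : Set (I → ℤ)} (hC : C.Finite) (hB : B.Finite) (hA : A.Finite) (hD : D.Finite)
    (H : ∀ c ∈ C, ∀ b ∈ B, exA m c b ∈ A ∧ exD m c b ∈ D) :
    C.ncard * B.ncard ≤ A.ncard * D.ncard := by
  classical
  have := Fintype.ofFinite I
  have key := exchange_aux hm hC.toFinset hB.toFinset hA.toFinset hD.toFinset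
    (fun c hc b hb => by
      simp only [Set.Finite.mem_toFinset] at hc hb ⊢
      exact H c hc b hb) _ ∅ rfl 0 0
  rw [Set.ncard_eq_toFinset_card _ hA, Set.ncard_eq_toFinset_card _ hB,
    Set.ncard_eq_toFinset_card _ hC, Set.ncard_eq_toFinset_card _ hD]
  simpa using key

end Pool.Agent.H45.Corr
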