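import Pool.Agent.H45.Corr.ThreeMain
import Pool.Agent.H45.Corr.BafCount

/-!
# Four elements: certificates
-/

open Finset

namespace Pool.Agent.H45.Corr

/-- the 24 orderings of four elements -/
def perm4 : Fin 24 → List (Fin 4) :=
  ![[0, 1, 2, 3], [0, 1, 3, 2], [0, 2, 1, 3], [0, 2, 3, 1],
    [0, 3, 1, 2], [0, 3, 2, 1], [1, 0, 2, 3], [1, 0, 3, 2],
    [1, 2, 0, 3], [1, 2, 3, 0], [1, 3, 0, 2], [1, 3, 2, 0],
    [2, 0, 1, 3], [2, 0, 3, 1], [2, 1, 0, 3], [2, 1, 3, 0],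
    [2, 3, 0, 1], [2, 3, 1, 0], [3, 0, 1, 2], [3, 0, 2, 1],
    [3, 1, 0, 2], [3, 1, 2, 0], [3, 2, 0, 1], [3, 2, 1, 0]]

theorem perm4_inj : ∀ i j : Fin 24, (∀ s t, listRel (perm4 i) s t ↔ listRel (perm4 j) s t) → i = j := by
  decide +kernel

theorem perm4_surj : ∀ f : Fin 4 → Fin 4, Function.Injective f →
    ∃ i : Fin 24, ∀ s t, listRel (perm4 i) s t ↔ f s < f t := by
  decide +kernel

/-- the enumeration of the orderings of four elements -/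
def E4 : Enm (Fin 4) 24 where
  perm := perm4
  nodup := by decide +kernel
  full := by decide +kernel
  bij := by
    constructor
    · intro i j hij
      apply perm4_inj
      intro s t
      have := congrFun (congrFun (congrArg Subtype.val hij) s) t
      exact Iff.of_eq this
    · intro L
      obtain ⟨e, he⟩ := exists_rank L
      have hc : Fintype.card (Fin 4) = 4 := Fintype.card_fin 4
      obtain ⟨i, hi⟩ := perm4_surj (fun s => Fin.cast hc (e s))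
        (fun s t hst => e.injective (Fin.cast_injective _ hst))
      refine ⟨i, Subtype.ext ?_⟩
      funext s t
      rw [eq_iff_iff, he]
      exact (hi s t).trans Iff.rfl

/-- sum of the masses of the orderings with property `p` -/
def sumB (p : Fin 24 → Bool) (m : Fin 24 → ℕ) : ℕ := ∑ i : Fin 24, if p i then m i else 0

/-- `0` is below `1` in the `i`-th ordering -/
def lt01 (i : Fin 24) : Bool := decide (listRel (perm4 i) 0 1)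

/-- the masses `m` show that the orderings number `ib` and `ic` are a violation -/
def viol (m : Fin 24 → ℕ) (ib ic : Fin 24) : Prop :=
  sumB (fun i => lt01 i && decide (i ≠ ib)) m * sumB (fun i => !lt01 i && decide (i ≠ ic)) m
    < m ib * m ic

instance (m : Fin 24 → ℕ) (ib ic : Fin 24) : Decidable (viol m ib ic) := by
  unfold viol; infer_instance

theorem viol_false {m : Fin 24 → ℕ} {ib ic : Fin 24} (h : viol m ib ic)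
    {U V : Set (LinOrd (Fin 4))} (hlt : ∀ i, lt01 i = true ↔ E4.ord i ∈ U)
    (hbV : E4.ord ib ∉ V) (hb : lt01 ib = true) (hcV : E4.ord ic ∈ V) (hc : lt01 ic = false)
    (hle : wsum E4 m (U \ V) * wsum E4 m (V \ U)
      ≤ wsum E4 m (U ∩ V) * wsum E4 m (U ∪ V)ᶜ) : False := by
  classical
  have hlt' : ∀ i, lt01 i = false ↔ E4.ord i ∉ U := by
    intro i
    rw [← hlt]; simp
  have h1 : m ib ≤ wsum E4 m (U \ V) := by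
    unfold wsum
    refine le_trans (le_of_eq ?_) (Finset.single_le_sum (fun i _ => Nat.zero_le _)
      (Finset.mem_univ ib))
    exact (if_pos (show E4.ord ib ∈ U \ V from ⟨(hlt ib).1 hb, hbV⟩)).symm
  have h2 : m ic ≤ wsum E4 m (V \ U) := by
    unfold wsum
    refine le_trans (le_of_eq ?_) (Finset.single_le_sum (fun i _ => Nat.zero_le _)
      (Finset.mem_univ ic))
    exact (if_pos (show E4.ord ic ∈ V \ U from ⟨hcV, (hlt' ic).1 hc⟩)).symm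
  have h3 : wsum E4 m (U ∩ V) ≤ sumB (fun i => lt01 i && decide (i ≠ ib)) m := by
    unfold wsum sumB
    refine Finset.sum_le_sum fun i _ => ?_
    by_cases hi : E4.ord i ∈ (U ∩ V)
    · have hne : i ≠ ib := by rintro rfl; exact hbV hi.2
      have hl := (hlt i).2 hi.1
      rw [if_pos hi, if_pos]
      simp [hl, hne]
    · rw [if_neg hi]; exact Nat.zero_le _
  have h4 : wsum E4 m (U ∪ V)ᶜ ≤ sumB (fun i => !lt01 i && decide (i ≠ ic)) m := by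
    unfold wsum sumB
    refine Finset.sum_le_sum fun i _ => ?_
    by_cases hi : E4.ord i ∈ (U ∪ V)ᶜ
    · have hne : i ≠ ic := by rintro rfl; exact hi (Or.inr hcV)
      have hl := (hlt' i).2 (fun h => hi (Or.inl h))
      rw [if_pos hi, if_pos]
      simp [hl, hne]
    · rw [if_neg hi]; exact Nat.zero_le _
  have := Nat.mul_le_mul h1 h2
  have := Nat.mul_le_mul h3 h4
  unfold viol at h
  omega

theorem lt01_iff (i : Fin 24) : lt01 i = true ↔ E4.ord i ∈ {L : LinOrd (Fin 4) | L.1 0 1} := by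
  unfold lt01
  rw [decide_eq_true_iff]
  exact Iff.rfl

/-- The pair of orderings number `ib` and `ic` is not a pair with a reversed triple. -/
def bad (ib ic : Fin 24) : Prop :=
  lt01 ib = true ∧ lt01 ic = false ∧ ¬ ∃ z : Fin 4,
    (listRel (perm4 ic) 0 z ∧ listRel (perm4 ib) z 0) ∨
      (listRel (perm4 ic) z 1 ∧ listRel (perm4 ib) 1 z)

instance (ib ic : Fin 24) : Decidable (bad ib ic) := by unfold bad; infer_instance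

/-- the certificates given by chain posets -/
def certs4 : List (Fin 24 × Fin 24 × ℕ × (Fin 4 → ℕ) × (Fin 4 → ℕ) × List (Fin 4 × Fin 4)) :=
  [
    (0, 6, 0, ![0, 0, 0, 0], ![0, 0, 0, 0], [(0, 2), (0, 3), (1, 2), (1, 3), (2, 3)]),
    (0, 7, 1, ![0, 0, 1, 0], ![0, 1, 1, 1], [(0, 2), (0, 3), (1, 2), (1, 3)]),
    (0, 8, 0, ![0, 0, 0, 0], ![0, 0, 0, 0], [(0, 3), (1, 2), (1, 3), (2, 3)]),
    (0, 9, 0, ![0, 0, 0, 0], ![0, 0, 0, 0], [(1, 2), (1, 3), (2, 3)]),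
    (0, 10, 3, ![2, 0, 2, 0], ![2, 2, 2, 3], [(0, 2), (1, 2), (1, 3)]),
    (0, 11, 5, ![3, 0, 3, 0], ![5, 3, 3, 5], [(1, 2), (1, 3)]),
    (1, 6, 1, ![0, 0, 0, 1], ![0, 1, 1, 1], [(0, 2), (0, 3), (1, 2), (1, 3)]),
    (1, 7, 0, ![0, 0, 0, 0], ![0, 0, 0, 0], [(0, 2), (0, 3), (1, 2), (1, 3), (3, 2)]),
    (1, 8, 3, ![2, 0, 0, 2], ![2, 2, 3, 2], [(0, 3), (1, 2), (1, 3)]),
    (1, 9, 5, ![2, 0, 0, 2], ![5, 2, 5, 2], [(1, 2), (1, 3)]),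
    (1, 10, 0, ![0, 0, 0, 0], ![0, 0, 0, 0], [(0, 2), (1, 2), (1, 3), (3, 2)]),
    (1, 11, 0, ![0, 0, 0, 0], ![0, 0, 0, 0], [(1, 2), (1, 3), (3, 2)]),
    (2, 6, 0, ![0, 0, 0, 0], ![0, 0, 0, 0], [(0, 2), (0, 3), (1, 3), (2, 3)]),
    (2, 7, 3, ![0, 2, 0, 2], ![2, 2, 3, 2], [(0, 2), (0, 3), (1, 3)]),
    (2, 8, 7, ![3, 0, 3, 7], ![7, 3, 3, 7], [(0, 3), (1, 3), (2, 3)]),
    (2, 9, 11, ![5, 0, 5, 5], ![11, 5, 5, 5], [(1, 3), (2, 3)]),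
    (2, 10, 6, ![0, 4, 0, 4], ![6, 4, 6, 4], [(0, 2), (1, 3)]),
    (2, 11, 20, ![12, 0, 12, 0], ![20, 12, 12, 12], [(1, 3)]),
    (2, 14, 0, ![0, 0, 0, 0], ![0, 0, 0, 0], [(0, 3), (1, 3), (2, 1), (2, 3)]),
    (2, 15, 1, ![0, 1, 1, 1], ![1, 1, 1, 1], [(1, 3), (2, 1), (2, 3)]),
    (3, 6, 0, ![0, 0, 0, 0], ![0, 0, 0, 0], [(0, 2), (0, 3), (2, 3)]),
    (3, 7, 5, ![0, 3, 0, 3], ![3, 5, 5, 3], [(0, 2), (0, 3)]),
    (3, 8, 11, ![0, 4, 4, 4], ![4, 11, 4, 4], [(0, 3), (2, 3)]),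
    (3, 9, 32, ![15, 0, 17, 17], ![32, 19, 17, 17], [(2, 3)]),
    (3, 10, 20, ![0, 12, 0, 12], ![12, 20, 12, 12], [(0, 2)]),
    (3, 14, 0, ![0, 0, 0, 0], ![0, 0, 0, 0], [(0, 3), (2, 1), (2, 3)]),
    (3, 15, 11, ![0, 6, 6, 6], ![6, 11, 6, 6], [(2, 1), (2, 3)]),
    (3, 17, 0, ![0, 0, 0, 0], ![0, 0, 0, 0], [(2, 1), (2, 3), (3, 1)]),
    (3, 20, 0, ![0, 0, 0, 0], ![0, 0, 0, 0], [(0, 2), (3, 1)]),
    (3, 21, 19, ![0, 8, 8, 8], ![8, 19, 8, 19], [(3, 1)]),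
    (3, 23, 5, ![0, 1, 1, 0], ![1, 5, 2, 5], [(2, 1), (3, 1)]),
    (4, 6, 3, ![0, 1, 1, 0], ![1, 1, 1, 3], [(0, 2), (0, 3), (1, 2)]),
    (4, 7, 0, ![0, 0, 0, 0], ![0, 0, 0, 0], [(0, 2), (0, 3), (1, 2), (3, 2)]),
    (4, 8, 6, ![5, 0, 0, 5], ![6, 5, 5, 6], [(0, 3), (1, 2)]),
    (4, 9, 20, ![13, 0, 0, 13], ![20, 13, 13, 13], [(1, 2)]),
    (4, 10, 7, ![0, 3, 6, 3], ![3, 7, 7, 3], [(0, 2), (1, 2), (3, 2)]),
    (4, 11, 11, ![5, 0, 5, 5], ![11, 5, 5, 5], [(1, 2), (3, 2)]),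
    (4, 20, 0, ![0, 0, 0, 0], ![0, 0, 0, 0], [(0, 2), (1, 2), (3, 1), (3, 2)]),
    (4, 21, 1, ![0, 1, 1, 1], ![1, 1, 1, 1], [(1, 2), (3, 1), (3, 2)]),
    (5, 6, 5, ![0, 3, 3, 0], ![3, 5, 3, 5], [(0, 2), (0, 3)]),
    (5, 7, 0, ![0, 0, 0, 0], ![0, 0, 0, 0], [(0, 2), (0, 3), (3, 2)]),
    (5, 8, 20, ![0, 9, 9, 0], ![9, 20, 9, 9], [(0, 3)]),
    (5, 10, 11, ![0, 4, 4, 4], ![4, 11, 4, 4], [(0, 2), (3, 2)]),
    (5, 11, 32, ![15, 0, 17, 17], ![32, 19, 17, 17], [(3, 2)]),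
    (5, 14, 0, ![0, 0, 0, 0], ![0, 0, 0, 0], [(0, 3), (2, 1)]),
    (5, 15, 20, ![0, 11, 11, 11], ![11, 20, 20, 11], [(2, 1)]),
    (5, 17, 5, ![0, 3, 0, 3], ![3, 5, 5, 3], [(2, 1), (3, 1)]),
    (5, 20, 0, ![0, 0, 0, 0], ![0, 0, 0, 0], [(0, 2), (3, 1), (3, 2)]),
    (5, 21, 11, ![0, 7, 7, 7], ![7, 11, 7, 7], [(3, 1), (3, 2)]),
    (5, 23, 0, ![0, 0, 0, 0], ![0, 0, 0, 0], [(2, 1), (3, 1), (3, 2)]),
    (12, 8, 0, ![0, 0, 0, 0], ![0, 0, 0, 0], [(0, 3), (1, 3), (2, 0), (2, 3)]),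
    (12, 9, 0, ![0, 0, 0, 0], ![0, 0, 0, 0], [(1, 3), (2, 0), (2, 3)]),
    (12, 11, 0, ![0, 0, 0, 0], ![0, 0, 0, 0], [(1, 3), (2, 0)]),
    (12, 14, 0, ![0, 0, 0, 0], ![0, 0, 0, 0], [(0, 3), (1, 3), (2, 0), (2, 1), (2, 3)]),
    (12, 15, 0, ![0, 0, 0, 0], ![0, 0, 0, 0], [(1, 3), (2, 0), (2, 1), (2, 3)]),
    (13, 8, 1, ![1, 0, 1, 1], ![1, 1, 1, 1], [(0, 3), (2, 0), (2, 3)]),
    (13, 9, 11, ![7, 0, 7, 7], ![11, 7, 7, 7], [(2, 0), (2, 3)]),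
    (13, 11, 20, ![7, 0, 7, 7], ![20, 7, 20, 7], [(2, 0)]),
    (13, 14, 0, ![0, 0, 0, 0], ![0, 0, 0, 0], [(0, 3), (2, 0), (2, 1), (2, 3)]),
    (13, 15, 7, ![4, 0, 0, 4], ![7, 4, 0, 4], [(2, 0), (2, 1), (2, 3)]),
    (13, 17, 0, ![0, 0, 0, 0], ![0, 0, 0, 0], [(2, 0), (2, 1), (2, 3), (3, 1)]),
    (13, 21, 6, ![0, 2, 0, 2], ![6, 2, 6, 2], [(2, 0), (3, 1)]),
    (13, 23, 3, ![0, 0, 0, 0], ![0, 3, 0, 3], [(2, 0), (2, 1), (3, 1)]),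
    (16, 9, 0, ![0, 0, 0, 0], ![0, 0, 0, 0], [(2, 0), (2, 3), (3, 0)]),
    (16, 11, 5, ![3, 0, 0, 3], ![5, 3, 5, 3], [(2, 0), (3, 0)]),
    (16, 15, 0, ![0, 0, 0, 0], ![0, 0, 0, 0], [(2, 0), (2, 1), (2, 3), (3, 0)]),
    (16, 17, 0, ![0, 0, 0, 0], ![0, 0, 0, 0], [(2, 0), (2, 1), (2, 3), (3, 0), (3, 1)]),
    (16, 21, 3, ![1, 1, 0, 1], ![3, 1, 3, 1], [(2, 0), (3, 0), (3, 1)]),
    (16, 23, 1, ![1, 0, 0, 0], ![1, 1, 0, 1], [(2, 0), (2, 1), (3, 0), (3, 1)]),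
    (18, 9, 0, ![0, 0, 0, 0], ![0, 0, 0, 0], [(1, 2), (3, 0)]),
    (18, 10, 0, ![0, 0, 0, 0], ![0, 0, 0, 0], [(0, 2), (1, 2), (3, 0), (3, 2)]),
    (18, 11, 0, ![0, 0, 0, 0], ![0, 0, 0, 0], [(1, 2), (3, 0), (3, 2)]),
    (18, 20, 0, ![0, 0, 0, 0], ![0, 0, 0, 0], [(0, 2), (1, 2), (3, 0), (3, 1), (3, 2)]),
    (18, 21, 0, ![0, 0, 0, 0], ![0, 0, 0, 0], [(1, 2), (3, 0), (3, 1), (3, 2)]),
    (19, 9, 20, ![7, 0, 7, 7], ![20, 7, 7, 20], [(3, 0)]),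
    (19, 10, 1, ![1, 0, 1, 1], ![1, 1, 1, 1], [(0, 2), (3, 0), (3, 2)]),
    (19, 11, 11, ![7, 0, 7, 7], ![11, 7, 7, 7], [(3, 0), (3, 2)]),
    (19, 15, 6, ![0, 2, 2, 0], ![6, 2, 2, 6], [(2, 1), (3, 0)]),
    (19, 17, 3, ![1, 1, 0, 1], ![1, 3, 3, 1], [(2, 1), (3, 0), (3, 1)]),
    (19, 20, 0, ![0, 0, 0, 0], ![0, 0, 0, 0], [(0, 2), (3, 0), (3, 1), (3, 2)]),
    (19, 21, 7, ![0, 3, 3, 0], ![3, 7, 3, 0], [(3, 0), (3, 1), (3, 2)]),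
    (19, 23, 0, ![0, 0, 0, 0], ![0, 0, 0, 0], [(2, 1), (3, 0), (3, 1), (3, 2)]),
    (22, 9, 5, ![2, 0, 2, 0], ![5, 2, 2, 5], [(2, 0), (3, 0)]),
    (22, 11, 0, ![0, 0, 0, 0], ![0, 0, 0, 0], [(2, 0), (3, 0), (3, 2)]),
    (22, 15, 3, ![0, 0, 0, 0], ![3, 0, 0, 3], [(2, 0), (2, 1), (3, 0)]),
    (22, 17, 1, ![1, 0, 0, 0], ![1, 1, 1, 0], [(2, 0), (2, 1), (3, 0), (3, 1)]),
    (22, 21, 0, ![0, 0, 0, 0], ![0, 0, 0, 0], [(2, 0), (3, 0), (3, 1), (3, 2)]),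
    (22, 23, 0, ![0, 0, 0, 0], ![0, 0, 0, 0], [(2, 0), (2, 1), (3, 0), (3, 1), (3, 2)])
  ]

theorem certs4_ok : ∀ q ∈ certs4, okD q.2.2.1 q.2.2.2.1 q.2.2.2.2.1 q.2.2.2.2.2 = true ∧
    viol (fun i => massD q.2.2.2.1 q.2.2.2.2.1 q.2.2.2.2.2 (perm4 i)) q.1 q.2.1 := by
  decide +kernel

theorem bad_cases : ∀ ib ic : Fin 24, bad ib ic →
    (ib = 3 ∧ ic = 11) ∨ (ib = 5 ∧ ic = 9) ∨ ∃ q ∈ certs4, q.1 = ib ∧ q.2.1 = ic := by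
  decide +kernel

end Pool.Agent.H45.Corr
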