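import Pool.Agent.H45.Corr.Four

/-!
# Classification for four elements and `U = {x < y}`
-/

open Finset

namespace Pool.Agent.H45.Corr

/-- the poset of height three on 68 elements for the first exceptional pair -/
def D4 : Baf (Fin 4) where
  nL := 32
  nU := 32
  sL i t := if (i : ℕ) < 10 then decide (t = 0) else if (i : ℕ) < 24 then decide (t = 0 ∨ t = 2)
    else decide (t = 2 ∨ t = 3)
  sU j t := if (j : ℕ) < 10 then decide (t = 1) else if (j : ℕ) < 24 then decide (t = 1 ∨ t = 3)
    else decide (t = 2 ∨ t = 3)

/-- the poset of height three on 68 elements for the second exceptional pair -/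
def D4' : Baf (Fin 4) where
  nL := 32
  nU := 32
  sL i t := if (i : ℕ) < 10 then decide (t = 0) else if (i : ℕ) < 24 then decide (t = 0 ∨ t = 3)
    else decide (t = 2 ∨ t = 3)
  sU j t := if (j : ℕ) < 10 then decide (t = 1) else if (j : ℕ) < 24 then decide (t = 1 ∨ t = 2)
    else decide (t = 2 ∨ t = 3)

theorem card_baf {T : Type} [Fintype T] (D : Baf T) :
    Fintype.card D.X = Fintype.card T + (D.nL + D.nU) := by
  rw [← Nat.card_eq_fintype_card]
  change Nat.card (T ⊕ (Fin D.nL ⊕ Fin D.nU)) = _
  rw [Nat.card_eq_fintype_card]
  simp

/-- number of linear extensions for the 24 orderings -/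
def m4 : Fin 24 → ℕ := ![
    274369806434726844053217353551091035422843252001746218857267200000000000,
    701167283110968601469333236852788201636154977337795892635238400000000000,
    131130443250728574861492157652125194086462975416900761157632000000000000,
    120640007790670288872572785039955178559545937383548700265021440000000000,
    335111132751861913534924402888764384887627603843190834069504000000000000,
    120640007790670288872572785039955178559545937383548700265021440000000000,
    2171190669148466530349991882317578199722525273492507756817547264000000000000,
    5548598376712747799783312588144922065957564587814186489644843008000000000000,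
    2359950263839356421787699826676245613364634321327272118756311040000000000000,
    4691235857247331488483209397551081783239816066895633983923006996480000000000000,
    2546444506656003180962961130481395864191110031226904117201627774976000000000000,
    352867989535360837712618354655560883364008039217576523486152731131904000000000000,
    142533090489922363979882780056657819659198886322718218649600000000000000,
    131130443250728574861492157652125194086462975416900761157632000000000000,
    337821981188422988436151227155789633135370786325167152824320000000000000,
    2359950263839356421787699826676245613364634321327272118756311040000000000000,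
    274369806434726844053217353551091035422843252001746218857267200000000000,
    2171190669148466530349991882317578199722525273492507756817547264000000000000,
    930864257644060870930345563579901069132298899564418983526400000000000000,
    335111132751861913534924402888764384887627603843190834069504000000000000,
    17804656004983889242469270218539013912966527927795860262150261964800000000000,
    2546444506656003180962961130481395864191110031226904117201627774976000000000000,
    701167283110968601469333236852788201636154977337795892635238400000000000,
    5548598376712747799783312588144922065957564587814186489644843008000000000000]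

/-- number of linear extensions for the 24 orderings -/
def m4' : Fin 24 → ℕ := ![
    701167283110968601469333236852788201636154977337795892635238400000000000,
    274369806434726844053217353551091035422843252001746218857267200000000000,
    335111132751861913534924402888764384887627603843190834069504000000000000,
    120640007790670288872572785039955178559545937383548700265021440000000000,
    131130443250728574861492157652125194086462975416900761157632000000000000,
    120640007790670288872572785039955178559545937383548700265021440000000000,
    5548598376712747799783312588144922065957564587814186489644843008000000000000,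
    2171190669148466530349991882317578199722525273492507756817547264000000000000,
    2546444506656003180962961130481395864191110031226904117201627774976000000000000,
    352867989535360837712618354655560883364008039217576523486152731131904000000000000,
    2359950263839356421787699826676245613364634321327272118756311040000000000000,
    4691235857247331488483209397551081783239816066895633983923006996480000000000000,
    930864257644060870930345563579901069132298899564418983526400000000000000,
    335111132751861913534924402888764384887627603843190834069504000000000000,
    17804656004983889242469270218539013912966527927795860262150261964800000000000,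
    2546444506656003180962961130481395864191110031226904117201627774976000000000000,
    701167283110968601469333236852788201636154977337795892635238400000000000,
    5548598376712747799783312588144922065957564587814186489644843008000000000000,
    142533090489922363979882780056657819659198886322718218649600000000000000,
    131130443250728574861492157652125194086462975416900761157632000000000000,
    337821981188422988436151227155789633135370786325167152824320000000000000,
    2359950263839356421787699826676245613364634321327272118756311040000000000000,
    274369806434726844053217353551091035422843252001746218857267200000000000,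
    2171190669148466530349991882317578199722525273492507756817547264000000000000]

theorem m4_eq : ∀ i, lastC (D4.wts (perm4 i)) = m4 i := by decide +kernel

theorem m4'_eq : ∀ i, lastC (D4'.wts (perm4 i)) = m4' i := by decide +kernel

theorem dg4 : ∀ i, dg (D4.wts (perm4 i)) = 68 := by decide +kernel

theorem dg4' : ∀ i, dg (D4'.wts (perm4 i)) = 68 := by decide +kernel

theorem viol4 : viol m4 3 11 := by decide +kernel

theorem viol4' : viol m4' 5 9 := by decide +kernel

theorem ineq4 {U V : Set (LinOrd (Fin 4))} (hUV : UnivCorr U V) :
    wsum E4 m4 (U \ V) * wsum E4 m4 (V \ U) ≤ wsum E4 m4 (U ∩ V) * wsum E4 m4 (U ∪ V)ᶜ := by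
  have e : (fun i => lastC (D4.wts (E4.perm i))) = m4 := funext m4_eq
  rw [← e]
  refine baf_ineq (D := D4) E4 (by decide +kernel) (by decide +kernel) 0 ?_ hUV
  intro i
  rw [card_baf]
  exact dg4 i

theorem ineq4' {U V : Set (LinOrd (Fin 4))} (hUV : UnivCorr U V) :
    wsum E4 m4' (U \ V) * wsum E4 m4' (V \ U)
      ≤ wsum E4 m4' (U ∩ V) * wsum E4 m4' (U ∪ V)ᶜ := by
  have e : (fun i => lastC (D4'.wts (E4.perm i))) = m4' := funext m4'_eq
  rw [← e]
  refine baf_ineq (D := D4') E4 (by decide +kernel) (by decide +kernel) 0 ?_ hUV
  intro i
  rw [card_baf]
  exact dg4' i

theorem four_fin {V : Set (LinOrd (Fin 4))} (hUV : UnivCorr {L : LinOrd (Fin 4) | L.1 0 1} V)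
    (b : LinOrd (Fin 4)) (hb : b.1 0 1) (hbV : b ∉ V) (c : LinOrd (Fin 4)) (hc : c.1 1 0)
    (hcV : c ∈ V) : ∃ z, (c.1 0 z ∧ b.1 z 0) ∨ (c.1 z 1 ∧ b.1 1 z) := by
  classical
  by_contra hcon
  obtain ⟨ib, rfl⟩ := E4.bij.2 b
  obtain ⟨ic, rfl⟩ := E4.bij.2 c
  have h1 : lt01 ib = true := (lt01_iff ib).2 hb
  have h2 : lt01 ic = false := by
    rw [← Bool.not_eq_true, lt01_iff ic]
    intro h3
    exact lin_asymm _ hc h3
  have h3 : bad ib ic := ⟨h1, h2, hcon⟩
  rcases bad_cases ib ic h3 with ⟨rfl, rfl⟩ | ⟨rfl, rfl⟩ | ⟨q, hq, rfl, rfl⟩
  · exact viol_false viol4 lt01_iff hbV h1 hcV h2 (ineq4 hUV)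
  · exact viol_false viol4' lt01_iff hbV h1 hcV h2 (ineq4' hUV)
  · obtain ⟨h4, h5⟩ := certs4_ok q hq
    exact viol_false h5 lt01_iff hbV h1 hcV h2 (cert_ineq E4 hUV h4)

/-- an enumeration of `T` in which `x` and `y` are the first two elements -/
theorem exists_equiv4 {T : Type} (hT : Nat.card T = 4) {x y : T} (hxy : x ≠ y) :
    ∃ e : T ≃ Fin 4, e x = 0 ∧ e y = 1 := by
  have hfin : Finite T := Nat.finite_of_card_ne_zero (by omega)
  obtain ⟨e0⟩ : Nonempty (T ≃ Fin 4) := ⟨(Finite.equivFin T).trans (finCongr hT)⟩
  set e1 := e0.trans (Equiv.swap (e0 x) 0) with he1
  have h1 : e1 x = 0 := by simp [he1]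
  have h2 : e1 y ≠ 0 := fun h => hxy (e1.injective (h1.trans h.symm))
  refine ⟨e1.trans (Equiv.swap (e1 y) 1), ?_, ?_⟩
  · rw [Equiv.trans_apply, h1, Equiv.swap_apply_of_ne_of_ne h2.symm (by decide)]
  · simp

/-- **Classification for four elements and a simple relation.** -/
theorem four {T : Type} (hT : Nat.card T = 4) {x y : T} (hxy : x ≠ y) (V : Set (LinOrd T)) :
    UnivCorr {L | L.1 x y} V ↔
      ∀ b : LinOrd T, b.1 x y → b ∉ V → ∀ c : LinOrd T, c.1 y x → c ∈ V →
        ∃ z, (c.1 x z ∧ b.1 z x) ∨ (c.1 z y ∧ b.1 y z) := by
  constructor
  · intro h b hb hbV c hc hcV
    obtain ⟨e, hx, hy⟩ := exists_equiv4 hT hxy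
    have h1 := h.transport e
    have hU : {L : LinOrd (Fin 4) | L.restrict e.toEmbedding ∈ {L : LinOrd T | L.1 x y}}
        = {L : LinOrd (Fin 4) | L.1 0 1} := by
      ext L
      change L.1 (e x) (e y) ↔ L.1 0 1
      rw [hx, hy]
    rw [hU] at h1
    have hx' : e.symm 0 = x := by rw [← hx]; simp
    have hy' : e.symm 1 = y := by rw [← hy]; simp
    have s1 : (b.restrict e.symm.toEmbedding).1 0 1 := by
      change b.1 (e.symm 0) (e.symm 1)
      rw [hx', hy']; exact hb
    have s2 : b.restrict e.symm.toEmbedding ∉ {L : LinOrd (Fin 4) | L.restrict e.toEmbedding ∈ V} := by
      rw [Set.mem_ofPred_eq, restrict_symm]; exact hbV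
    have s3 : (c.restrict e.symm.toEmbedding).1 1 0 := by
      change c.1 (e.symm 1) (e.symm 0)
      rw [hx', hy']; exact hc
    have s4 : c.restrict e.symm.toEmbedding ∈ {L : LinOrd (Fin 4) | L.restrict e.toEmbedding ∈ V} := by
      rw [Set.mem_ofPred_eq, restrict_symm]; exact hcV
    obtain ⟨z, hz⟩ := four_fin h1 _ s1 s2 _ s3 s4
    refine ⟨e.symm z, ?_⟩
    rcases hz with ⟨h2, h3⟩ | ⟨h2, h3⟩
    · left
      change c.1 (e.symm 0) (e.symm z) at h2
      change b.1 (e.symm z) (e.symm 0) at h3
      rw [hx'] at h2 h3
      exact ⟨h2, h3⟩
    · right
      change c.1 (e.symm z) (e.symm 1) at h2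
      change b.1 (e.symm 1) (e.symm z) at h3
      rw [hy'] at h2 h3
      exact ⟨h2, h3⟩
  · exact simpleRelation hxy

end Pool.Agent.H45.Corr
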