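import Pool.Agent.H45.Corr.Enum

/-!
# Three elements
-/

open Finset

namespace Pool.Agent.H45.Corr

/-! ### Certificates -/

/-- The chain poset with data `(n, a, b, R)`; the relation on `T` is the list `R`. -/
def mkD {T : Type} [DecidableEq T] (n : ℕ) (a b : T → ℕ) (R : List (T × T)) : Chn T :=
  ⟨n, a, b, fun s t => (s, t) ∈ R⟩

/-- The mass of the ordering given by the list `l`. -/
def massD {T : Type} [DecidableEq T] (a b : T → ℕ) (R : List (T × T)) (l : List T) : ℕ :=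
  if R.all (fun q => decide (listRel l q.1 q.2)) then cntL a b l 0 else 0

/-- decidable form of validity -/
def okD {k : ℕ} (n : ℕ) (a b : Fin k → ℕ) (R : List (Fin k × Fin k)) : Bool :=
  decide (∀ t, a t ≤ b t) && decide (∀ t, b t ≤ n) && decide (∀ t, (t, t) ∉ R) &&
    decide (∀ s t u, (s, t) ∈ R → (t, u) ∈ R → (s, u) ∈ R) &&
    decide (∀ s t, (s, t) ∈ R → a s ≤ a t) && decide (∀ s t, (s, t) ∈ R → b s ≤ b t)

theorem okD_ok {k n : ℕ} {a b : Fin k → ℕ} {R : List (Fin k × Fin k)} (h : okD n a b R = true) :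
    (mkD n a b R).Ok := by
  unfold okD at h
  simp only [Bool.and_eq_true, decide_eq_true_eq] at h
  obtain ⟨⟨⟨⟨⟨h1, h2⟩, h3⟩, h4⟩, h5⟩, h6⟩ := h
  exact ⟨h1, h2, h3, h4, h5, h6⟩

open Classical in
/-- the sum of the masses of the orderings in `W` -/
noncomputable def wsum {T : Type} [DecidableEq T] {N : ℕ} (E : Enm T N) (m : Fin N → ℕ)
    (W : Set (LinOrd T)) : ℕ :=
  ∑ i : Fin N, if E.ord i ∈ W then m i else 0

/-- The inequality which a universally correlated pair satisfies for a chain poset. -/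
theorem cert_ineq {k N : ℕ} (E : Enm (Fin k) N) {U V : Set (LinOrd (Fin k))} (hUV : UnivCorr U V)
    {n : ℕ} {a b : Fin k → ℕ} {R : List (Fin k × Fin k)} (h : okD n a b R = true) :
    wsum E (fun i => massD a b R (E.perm i)) (U \ V)
      * wsum E (fun i => massD a b R (E.perm i)) (V \ U)
      ≤ wsum E (fun i => massD a b R (E.perm i)) (U ∩ V)
      * wsum E (fun i => massD a b R (E.perm i)) (U ∪ V)ᶜ := by
  classical
  have key := product_of_pr _ U V (hUV (CP (mkD n a b R) (okD_ok h)) (CP.inr (mkD n a b R) (okD_ok h)))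
  have conv : ∀ W : Set (LinOrd (Fin k)),
      numExts (CP (mkD n a b R) (okD_ok h)) (CP.inr (mkD n a b R) (okD_ok h)) W
        = wsum E (fun i => massD a b R (E.perm i)) W := by
    intro W
    rw [numExts_sum E]
    unfold wsum
    refine Finset.sum_congr rfl fun i _ => ?_
    by_cases h1 : E.ord i ∈ W
    · by_cases h2 : ∀ s t, (s, t) ∈ R → listRel (E.perm i) s t
      · have h3 : (R.all (fun q => decide (listRel (E.perm i) q.1 q.2))) = true := by
          rw [List.all_eq_true]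
          rintro ⟨s, t⟩ hq
          simpa using h2 s t hq
        rw [if_pos ⟨h1, h2⟩, if_pos h1]
        unfold massD
        dsimp only
        rw [if_pos h3]
        rfl
      · have h3 : ¬ (R.all (fun q => decide (listRel (E.perm i) q.1 q.2))) = true := by
          intro h4
          rw [List.all_eq_true] at h4
          exact h2 fun s t hq => by simpa using h4 (s, t) hq
        rw [if_neg (fun h5 => h2 h5.2), if_pos h1]
        unfold massD
        dsimp only
        rw [if_neg h3]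
    · rw [if_neg (fun h5 => h1 h5.1), if_neg h1]
  rwa [conv, conv, conv, conv] at key

/-- The colour of the `i`-th ordering: `0, 1, 2, 3` for `U ∩ V`, `U \ V`, `V \ U`, neither. -/
def code (u v : Prop) [Decidable u] [Decidable v] : Fin 4 :=
  if u then (if v then 0 else 1) else (if v then 2 else 3)

theorem code_eq {u v : Prop} [Decidable u] [Decidable v] :
    (code u v = 0 ↔ u ∧ v) ∧ (code u v = 1 ↔ u ∧ ¬ v) ∧ (code u v = 2 ↔ v ∧ ¬ u) ∧
      (code u v = 3 ↔ ¬ u ∧ ¬ v) := by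
  unfold code
  by_cases hu : u <;> by_cases hv : v <;> simp [hu, hv]

/-- sum of the masses of the orderings of colour `k` -/
def colS {N : ℕ} (m : Fin N → ℕ) (c : Fin N → Fin 4) (k : Fin 4) : ℕ :=
  ∑ i : Fin N, if c i = k then m i else 0

open Classical in
theorem cert_col {k N : ℕ} (E : Enm (Fin k) N) {U V : Set (LinOrd (Fin k))} (hUV : UnivCorr U V)
    {n : ℕ} {a b : Fin k → ℕ} {R : List (Fin k × Fin k)} (h : okD n a b R = true)
    (c : Fin N → Fin 4) (hc : c = fun i => code (E.ord i ∈ U) (E.ord i ∈ V)) :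
    colS (fun i => massD a b R (E.perm i)) c 1 * colS (fun i => massD a b R (E.perm i)) c 2
      ≤ colS (fun i => massD a b R (E.perm i)) c 0
        * colS (fun i => massD a b R (E.perm i)) c 3 := by
  have := cert_ineq E hUV h
  have e : ∀ (q : Fin 4) (W : Set (LinOrd (Fin k))), (∀ i, c i = q ↔ E.ord i ∈ W) →
      colS (fun i => massD a b R (E.perm i)) c q
        = wsum E (fun i => massD a b R (E.perm i)) W := by
    intro q W hW
    unfold colS wsum
    refine Finset.sum_congr rfl fun i _ => ?_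
    by_cases h1 : c i = q
    · rw [if_pos h1, if_pos ((hW i).1 h1)]
    · rw [if_neg h1, if_neg (fun h2 => h1 ((hW i).2 h2))]
  rw [e 1 (U \ V), e 2 (V \ U), e 0 (U ∩ V), e 3 (U ∪ V)ᶜ]
  · exact this
  all_goals
    intro i
    rw [hc]
    dsimp only
  · rw [code_eq.2.2.2]; simp
  · rw [code_eq.1]; simp
  · rw [code_eq.2.2.1]; simp
  · rw [code_eq.2.1]; simp

/-! ### The orderings of three elements -/

/-- the six orderings of three elements -/
def perm3 : Fin 6 → List (Fin 3) :=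
  ![[0, 1, 2], [0, 2, 1], [1, 0, 2], [1, 2, 0], [2, 0, 1], [2, 1, 0]]

theorem perm3_inj : ∀ i j : Fin 6, (∀ s t, listRel (perm3 i) s t ↔ listRel (perm3 j) s t) → i = j := by
  decide +kernel

theorem perm3_surj : ∀ f : Fin 3 → Fin 3, Function.Injective f →
    ∃ i : Fin 6, ∀ s t, listRel (perm3 i) s t ↔ f s < f t := by
  decide +kernel

/-- the enumeration of the orderings of three elements -/
def E3 : Enm (Fin 3) 6 where
  perm := perm3
  nodup := by decide
  full := by decide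
  bij := by
    constructor
    · intro i j hij
      apply perm3_inj
      intro s t
      have := congrFun (congrFun (congrArg Subtype.val hij) s) t
      exact Iff.of_eq this
    · intro L
      obtain ⟨e, he⟩ := exists_rank L
      have hc : Fintype.card (Fin 3) = 3 := Fintype.card_fin 3
      obtain ⟨i, hi⟩ := perm3_surj (fun s => Fin.cast hc (e s))
        (fun s t hst => e.injective (Fin.cast_injective _ hst))
      refine ⟨i, Subtype.ext ?_⟩
      funext s t
      rw [eq_iff_iff, he]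
      exact (hi s t).trans Iff.rfl

/-- the certificates -/
def certs3 : List (ℕ × (Fin 3 → ℕ) × (Fin 3 → ℕ) × List (Fin 3 × Fin 3)) :=
  [
    (0, ![0, 0, 0], ![0, 0, 0], []),
    (0, ![0, 0, 0], ![0, 0, 0], [(0, 1), (0, 2)]),
    (0, ![0, 0, 0], ![0, 0, 0], [(0, 2), (1, 2)]),
    (0, ![0, 0, 0], ![0, 0, 0], [(1, 2)]),
    (0, ![0, 0, 0], ![0, 0, 0], [(0, 1)]),
    (0, ![0, 0, 0], ![0, 0, 0], [(0, 2)]),
    (0, ![0, 0, 0], ![0, 0, 0], [(0, 1), (2, 1)]),
    (0, ![0, 0, 0], ![0, 0, 0], [(2, 1)]),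
    (0, ![0, 0, 0], ![0, 0, 0], [(1, 0), (1, 2)]),
    (0, ![0, 0, 0], ![0, 0, 0], [(1, 0)]),
    (0, ![0, 0, 0], ![0, 0, 0], [(2, 0)]),
    (0, ![0, 0, 0], ![0, 0, 0], [(1, 0), (2, 0)]),
    (0, ![0, 0, 0], ![0, 0, 0], [(2, 0), (2, 1)]),
    (8, ![0, 4, 4], ![8, 4, 4], []),
    (8, ![4, 0, 4], ![4, 8, 4], []),
    (8, ![4, 4, 0], ![4, 4, 8], []),
    (8, ![4, 0, 4], ![4, 4, 8], []),
    (8, ![4, 4, 0], ![4, 8, 4], []),
    (8, ![0, 4, 4], ![4, 4, 8], []),
    (8, ![4, 4, 0], ![8, 4, 4], []),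
    (8, ![0, 4, 4], ![4, 8, 4], []),
    (8, ![4, 0, 4], ![8, 4, 4], [])
  ]


theorem certs3_ok : ∀ q ∈ certs3, okD q.1 q.2.1 q.2.2.1 q.2.2.2 = true := by
  decide +kernel

/-- the masses of the certificates -/
def masses3 : List (Fin 6 → ℕ) :=
  [![1, 1, 1, 1, 1, 1],
    ![1, 1, 0, 0, 0, 0],
    ![1, 0, 1, 0, 0, 0],
    ![1, 0, 1, 1, 0, 0],
    ![1, 1, 0, 0, 1, 0],
    ![1, 1, 1, 0, 0, 0],
    ![0, 1, 0, 0, 1, 0],
    ![0, 1, 0, 0, 1, 1],
    ![0, 0, 1, 1, 0, 0],
    ![0, 0, 1, 1, 0, 1],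
    ![0, 0, 0, 1, 1, 1],
    ![0, 0, 0, 1, 0, 1],
    ![0, 0, 0, 0, 1, 1],
    ![5, 5, 1, 5, 1, 5],
    ![1, 5, 5, 5, 5, 1],
    ![5, 1, 5, 1, 5, 5],
    ![5, 1, 25, 5, 1, 1],
    ![1, 5, 1, 1, 25, 5],
    ![25, 5, 5, 1, 1, 1],
    ![1, 1, 1, 5, 5, 25],
    ![5, 25, 1, 1, 5, 1],
    ![1, 1, 5, 25, 1, 5]]

theorem masses3_eq : certs3.map (fun q i => massD q.2.1 q.2.2.1 q.2.2.2 (perm3 i)) = masses3 := by
  decide +kernel

/-- The colouring of the six orderings in a pair `({x < y}, {x < z})` or `({y < x}, {z < x})`. -/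
def Shepp (c : Fin 6 → Fin 4) : Prop :=
  ∃ x y z : Fin 3, x ≠ y ∧ x ≠ z ∧ y ≠ z ∧
    ((∀ i, c i = code (listRel (perm3 i) x y) (listRel (perm3 i) x z)) ∨
      (∀ i, c i = code (listRel (perm3 i) y x) (listRel (perm3 i) z x)))

instance (c : Fin 6 → Fin 4) : Decidable (Shepp c) := by unfold Shepp; infer_instance

theorem main3 : ∀ c0 c1 c2 c3 c4 c5 : Fin 4, (∃ i, ![c0, c1, c2, c3, c4, c5] i = 1) →
    (∃ i, ![c0, c1, c2, c3, c4, c5] i = 2) →
    (∀ m ∈ masses3, colS m ![c0, c1, c2, c3, c4, c5] 1 * colS m ![c0, c1, c2, c3, c4, c5] 2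
      ≤ colS m ![c0, c1, c2, c3, c4, c5] 0 * colS m ![c0, c1, c2, c3, c4, c5] 3) →
    Shepp ![c0, c1, c2, c3, c4, c5] := by
  decide +kernel

end Pool.Agent.H45.Corr
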