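import Pool.Agent.H45.Corr.Three

/-!
# Classification of the universally correlated pairs for three elements
-/

namespace Pool.Agent.H45.Corr

theorem code_inj {u v u' v' : Prop} [Decidable u] [Decidable v] [Decidable u'] [Decidable v']
    (h : code u v = code u' v') : (u ↔ u') ∧ (v ↔ v') := by
  unfold code at h
  by_cases hu : u <;> by_cases hv : v <;> by_cases hu' : u' <;> by_cases hv' : v' <;>
    simp_all

theorem three_fin {U V : Set (LinOrd (Fin 3))} (h : UnivCorr U V) :
    U ⊆ V ∨ V ⊆ U ∨ ∃ x y z : Fin 3, x ≠ y ∧ x ≠ z ∧ y ≠ z ∧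
      ((U = {L | L.1 x y} ∧ V = {L | L.1 x z}) ∨ (U = {L | L.1 y x} ∧ V = {L | L.1 z x})) := by
  classical
  set c : Fin 6 → Fin 4 := fun i => code (E3.ord i ∈ U) (E3.ord i ∈ V) with hc
  have surj : ∀ L : LinOrd (Fin 3), ∃ i, E3.ord i = L := fun L => E3.bij.2 L
  by_cases h1 : ∃ i, c i = 1
  · by_cases h2 : ∃ i, c i = 2
    · right; right
      have hcv : c = ![c 0, c 1, c 2, c 3, c 4, c 5] := by
        funext i; fin_cases i <;> rfl
      have key := main3 (c 0) (c 1) (c 2) (c 3) (c 4) (c 5) (by rw [← hcv]; exact h1)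
        (by rw [← hcv]; exact h2) ?_
      · rw [← hcv] at key
        obtain ⟨x, y, z, hxy, hxz, hyz, hcase⟩ := key
        refine ⟨x, y, z, hxy, hxz, hyz, ?_⟩
        rcases hcase with h3 | h3
        · left
          constructor
          · ext L
            obtain ⟨i, rfl⟩ := surj L
            exact (code_inj (h3 i)).1
          · ext L
            obtain ⟨i, rfl⟩ := surj L
            exact (code_inj (h3 i)).2
        · right
          constructor
          · ext L
            obtain ⟨i, rfl⟩ := surj L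
            exact (code_inj (h3 i)).1
          · ext L
            obtain ⟨i, rfl⟩ := surj L
            exact (code_inj (h3 i)).2
      · rw [← hcv]
        intro m hm
        rw [← masses3_eq, List.mem_map] at hm
        obtain ⟨q, hq, rfl⟩ := hm
        exact cert_col E3 h (certs3_ok q hq) c rfl
    · right; left
      intro L hL
      obtain ⟨i, rfl⟩ := surj L
      by_contra hcon
      exact h2 ⟨i, by rw [hc]; exact code_eq.2.2.1.2 ⟨hL, hcon⟩⟩
  · left
    intro L hL
    obtain ⟨i, rfl⟩ := surj L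
    by_contra hcon
    exact h1 ⟨i, by rw [hc]; exact code_eq.2.1.2 ⟨hL, hcon⟩⟩

/-! ### Transport -/

theorem UnivCorr.transport {T T' : Type} (e : T ≃ T') {U V : Set (LinOrd T)} (h : UnivCorr U V) :
    UnivCorr {L : LinOrd T' | L.restrict e.toEmbedding ∈ U}
      {L : LinOrd T' | L.restrict e.toEmbedding ∈ V} := by
  intro X _ _ ι
  exact h X (e.toEmbedding.trans ι)

theorem restrict_symm {T T' : Type} (e : T ≃ T') (L : LinOrd T) :
    (L.restrict e.symm.toEmbedding).restrict e.toEmbedding = L := by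
  apply Subtype.ext
  funext s t
  change L.1 (e.symm (e s)) (e.symm (e t)) = L.1 s t
  rw [Equiv.symm_apply_apply, Equiv.symm_apply_apply]

/-! ### Sufficiency -/

theorem numExts_mono {X : Type} [Finite X] [PartialOrder X] {T : Type} (ι : T ↪ X)
    {U V : Set (LinOrd T)} (h : U ⊆ V) : numExts X ι U ≤ numExts X ι V :=
  Set.ncard_le_ncard (fun _ hL => ⟨hL.1, h hL.2⟩) (Set.toFinite _)

theorem univCorr_of_subset {T : Type} {U V : Set (LinOrd T)} (h : U ⊆ V) : UnivCorr U V := by
  intro X _ _ ι
  rw [Set.inter_eq_left.2 h]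
  have h0 : 0 ≤ prExt X ι U := by unfold prExt; positivity
  have h1 : prExt X ι V ≤ 1 := by
    unfold prExt
    apply div_le_one_of_le₀ _ (by positivity)
    have : numExts X ι V ≤ (linExts X).ncard :=
      Set.ncard_le_ncard (fun _ hL => hL.1) (Set.toFinite _)
    exact_mod_cast this
  nlinarith

theorem UnivCorr.symm {T : Type} {U V : Set (LinOrd T)} (h : UnivCorr U V) : UnivCorr V U := by
  intro X _ _ ι
  have := h X ι
  rw [Set.inter_comm, mul_comm]
  exact this

/-- The XYZ inequality. -/
theorem xyz {T : Type} {x y z : T} (hxy : x ≠ y) (hxz : x ≠ z) :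
    UnivCorr {L : LinOrd T | L.1 x y} {L | L.1 x z} := by
  refine simpleRelation hxy ?_
  intro b _ hb c _ hc
  exact ⟨z, Or.inl ⟨hc, lin_tri b hxz hb⟩⟩

theorem xyz' {T : Type} {x y z : T} (hxy : x ≠ y) (hxz : x ≠ z) :
    UnivCorr {L : LinOrd T | L.1 y x} {L | L.1 z x} := by
  refine simpleRelation hxy.symm ?_
  intro b _ hb c _ hc
  exact ⟨z, Or.inr ⟨hc, lin_tri b hxz.symm hb⟩⟩

/-- **Classification for three elements.** -/
theorem three {T : Type} (hT : Nat.card T = 3) (U V : Set (LinOrd T)) :
    UnivCorr U V ↔ U ⊆ V ∨ V ⊆ U ∨ ∃ x y z : T, x ≠ y ∧ x ≠ z ∧ y ≠ z ∧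
      ((U = {L | L.1 x y} ∧ V = {L | L.1 x z}) ∨ (U = {L | L.1 y x} ∧ V = {L | L.1 z x})) := by
  constructor
  · intro h
    have hfin : Finite T := Nat.finite_of_card_ne_zero (by omega)
    obtain ⟨e⟩ : Nonempty (T ≃ Fin 3) :=
      ⟨(Finite.equivFin T).trans (finCongr hT)⟩
    have back : ∀ (W : Set (LinOrd T)) (L : LinOrd T),
        L ∈ W ↔ L.restrict e.symm.toEmbedding ∈
          {L : LinOrd (Fin 3) | L.restrict e.toEmbedding ∈ W} := by
      intro W L
      rw [Set.mem_ofPred_eq, restrict_symm]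
    rcases three_fin (h.transport e) with h1 | h1 | ⟨x, y, z, hxy, hxz, hyz, h1⟩
    · left
      intro L hL
      exact (back V L).2 (h1 ((back U L).1 hL))
    · right; left
      intro L hL
      exact (back U L).2 (h1 ((back V L).1 hL))
    · right; right
      refine ⟨e.symm x, e.symm y, e.symm z, e.symm.injective.ne hxy, e.symm.injective.ne hxz,
        e.symm.injective.ne hyz, ?_⟩
      rcases h1 with ⟨h2, h3⟩ | ⟨h2, h3⟩
      · left
        constructor
        · ext L; rw [back U L, h2]; exact Iff.rfl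
        · ext L; rw [back V L, h3]; exact Iff.rfl
      · right
        constructor
        · ext L; rw [back U L, h2]; exact Iff.rfl
        · ext L; rw [back V L, h3]; exact Iff.rfl
  · rintro (h | h | ⟨x, y, z, hxy, hxz, hyz, ⟨rfl, rfl⟩ | ⟨rfl, rfl⟩⟩)
    · exact univCorr_of_subset h
    · exact (univCorr_of_subset h).symm
    · exact xyz hxy hxz
    · exact xyz' hxy hxz

end Pool.Agent.H45.Corr
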